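import Pool.Agent.Lib.MP_ae5b4e_an_T.Defs

/-!
# POR (iii), N2, type I: PACKING (block PK). Definitions

On a slice (`Sl`, fixed real `γ`), `tp v x s` is the point at distance `s` below the line
`Im τ = - v`, `dpt` the depth of its label. The points of type `I` (`T.IAt`) at mutual distances `≥ 1`
are counted by the area of the images of the cones below them.
-/

noncomputable section

namespace Pool.Agent.MP_ae5b4e_an_PK

open Complex Set Filter Topology Metric
open Pool.Agent.MP_ae5b4e_an_WB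
open Pool.Agent.MP_ae5b4e_an_WD
open Pool.Agent.MP_ae5b4e_an_T
open Pool.Agent.MP_ae5b4e_an_M (S1 C1f Gf)

/-- the point at distance `s` below the line `Im τ = - v`, under `x` -/
def tp (v x s : ℝ) : ℂ := (x : ℂ) - (v + s : ℝ) * I

/-- depth of the label at distance `s` below the line, under `x` -/
def dpt (v : ℝ) (f : ℂ → ℂ) (x s : ℝ) : ℝ := -(f (tp v x s)).im

/-- the label is asymptotic to the identity at `- i ∞` -/
def Asy (f : ℂ → ℂ) : Prop :=
  ∀ ε : ℝ, 0 < ε → ∃ R : ℝ, ∀ τ : ℂ, R ≤ -τ.im → ‖f τ - τ‖ ≤ ε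

/-- cone of discs below `x` -/
def Cn (v x κ a : ℝ) : Set ℂ := {τ | ∃ s ∈ Ioc (0 : ℝ) a, τ ∈ ball (tp v x s) (κ * s)}

/-- truncated cone of discs below `x`, distances between `σ` and `a` -/
def Ct (v x κ σ a : ℝ) : Set ℂ := {τ | ∃ s ∈ Icc σ a, τ ∈ ball (tp v x s) (κ * s)}

theorem tp_re (v x s : ℝ) : (tp v x s).re = x := by simp [tp]

theorem tp_im (v x s : ℝ) : (tp v x s).im = -(v + s) := by simp [tp]

theorem tp_mem {v x s : ℝ} (hs : 0 < s) : tp v x s ∈ Hp v := by
  show (tp v x s).im < -v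
  rw [tp_im]
  linarith

theorem iAt_iff (v : ℝ) (f : ℂ → ℂ) (x : ℝ) :
    IAt v f x ↔ Tendsto (dpt v f x) (𝓝[>] 0) atTop := by
  unfold IAt
  constructor
  · intro h
    have h1 := Filter.tendsto_neg_atBot_atTop.comp h
    exact h1
  · intro h
    have h1 := Filter.tendsto_neg_atTop_atBot.comp h
    refine h1.congr fun s => ?_
    simp [dpt, tp]

end Pool.Agent.MP_ae5b4e_an_PK
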