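import Pool.Agent.Lib.MP_ae5b4e_an_PK.EK

/-!
# POR (iii), N2, type I, PK: the entrance theorem (block EL), final form
-/

noncomputable section

namespace Pool.Agent.MP_ae5b4e_an_PK

open Complex Set Filter Topology Metric
open Pool.Agent.MP_ae5b4e_an_WB
open Pool.Agent.MP_ae5b4e_an_WD
open Pool.Agent.MP_ae5b4e_an_T
open Pool.Agent.MP_ae5b4e_an_M (S1 C1f Gf)

/-- ENTRANCE, for every point `x` whose vertical path reaches the depth `D1` at a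
distance `σ < a` (not only the points of type `I`). `om` is the logarithm of `w` near `y = k π`;
`X = y²` is a function `Φ k` of `om` (injectivity of `om` on the horoball); `K, κ, a, B, D1, Φ` are
uniform in `x` and `σ`. In particular `depth ≥ 2` on the truncated cone. -/
theorem entrance {W : Set (ℂ → ℂ)} {C kap : ℝ} (hW : Fm W C kap) {q : ℂ → ℂ} (hq : q ∈ W)
    {γ v : ℝ} {f : ℂ → ℂ} (hγ : 1 ≤ γ) (h : Sl q C γ v f) (hd : Deep v f) (ha : Asy f) :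
    ∃ (K : ℕ) (κ a B D1 : ℝ) (Φ : ℕ → ℂ → ℂ), 0 < κ ∧ κ ≤ 1 / 8 ∧ 0 < a ∧ a ≤ 1 ∧ 1 ≤ B ∧ 1 ≤ D1 ∧
      ∀ x σ : ℝ, 0 < σ → σ < a → D1 ≤ dpt v f x σ → ∃ k : ℕ, 1 ≤ k ∧ k ≤ K ∧ ∃ om : ℂ → ℂ,
        ContinuousOn om (Ct v x κ σ a) ∧
        (∀ τ ∈ Ct v x κ σ a, exp (2 * om τ) = (γ : ℂ) ^ 2 * q (f τ)) ∧
        (∀ τ ∈ Ct v x κ σ a, Xf q γ f τ = Φ k (om τ)) ∧
        (∀ s ∈ Icc σ a, ∀ τ ∈ ball (tp v x s) (κ * s),
          |(om τ).im| ≤ B * (1 + Real.log (1 / s) ^ 2)) ∧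
        ∀ τ ∈ Ct v x κ σ a, ‖Xf q γ f τ‖ ≤ B :=
  entrance' hW hq hγ h hd ha

end Pool.Agent.MP_ae5b4e_an_PK
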