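import Pool.Agent.Lib.MP_ae5b4e_an_PK.PackK
import Pool.Agent.Lib.MP_ae5b4e_an_PK.Contract

/-!
# POR (iii), N2, type I, PK: PACKING
-/

noncomputable section

namespace Pool.Agent.MP_ae5b4e_an_PK

open Complex Set Filter Topology Metric MeasureTheory
open Pool.Agent.MP_ae5b4e_an_WB
open Pool.Agent.MP_ae5b4e_an_WD
open Pool.Agent.MP_ae5b4e_an_T
open Pool.Agent.MP_ae5b4e_an_M (S1 C1f Gf)

/-- for `|Im z| < κ` and `σ ≤ exp (Re z) ≤ a` the point `ch v x z` is in the truncated cone -/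
private theorem Main_ch_mem {v x κ σ a : ℝ} {z : ℂ} (hz : |z.im| < κ) (hs : σ ≤ Real.exp z.re)
    (ha : Real.exp z.re ≤ a) : ch v x z ∈ Ct v x κ σ a := by
  refine ⟨Real.exp z.re, ⟨hs, ha⟩, ?_⟩
  rw [mem_ball, dist_eq_norm]
  refine (ch_dist v x z).trans_lt ?_
  rw [mul_comm κ]
  exact mul_lt_mul_of_pos_left hz (Real.exp_pos _)

private theorem Main_Ct_mono {v x κ κ' σ a : ℝ} (hσ : 0 < σ) (hκ : κ ≤ κ') :
    Ct v x κ σ a ⊆ Ct v x κ' σ a := by
  rintro τ ⟨s, hs, hτ⟩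
  exact ⟨s, hs, ball_subset_ball (mul_le_mul_of_nonneg_right hκ (hσ.trans_le hs.1).le) hτ⟩

/-- the final inequality of constants -/
private theorem Main_arith {κ D B C3 ell t c : ℝ} {K M : ℕ} (hκ : 0 < κ) (hD : 1 ≤ D) (hB : 1 ≤ B)
    (hC3 : 0 ≤ C3) (hell : 1 ≤ ell) (ht : 1 ≤ t) (hM : (M : ℝ) ≤ B * t ^ 2 + 1)
    (h : c * (2 * κ * D ^ 2) ≤
      K * (t * ((2 * M + 1) * (2 * (ell + C3 + 4 * D * t + D) * (4 * D))))) :
    c ≤ 20 * K * B * (5 + C3) / κ * t ^ 3 * (ell / D + t) := by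
  have hD0 : 0 < D := by linarith
  have ht0 : 0 < t := by linarith
  have ht2 : 1 ≤ t ^ 2 := one_le_pow₀ ht
  have hBt : 1 ≤ B * t ^ 2 := by nlinarith
  have h1 : (2 * (M : ℝ) + 1) ≤ 5 * (B * t ^ 2) := by linarith
  have h2 : ell + C3 + 4 * D * t + D ≤ (5 + C3) * (ell + D * t) := by
    have e1 : D ≤ D * t := by nlinarith
    have e2 : C3 ≤ C3 * ell := by nlinarith
    have e3 : 0 ≤ C3 * (D * t) := by positivity
    nlinarith
  have h3 : (2 * (M : ℝ) + 1) * (2 * (ell + C3 + 4 * D * t + D) * (4 * D)) ≤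
      5 * (B * t ^ 2) * (2 * ((5 + C3) * (ell + D * t)) * (4 * D)) := by
    refine mul_le_mul h1 ?_ (by positivity) (by positivity)
    exact mul_le_mul_of_nonneg_right (by linarith) (by positivity)
  have h4 : (K : ℝ) * (t * ((2 * M + 1) * (2 * (ell + C3 + 4 * D * t + D) * (4 * D)))) ≤
      K * (t * (5 * (B * t ^ 2) * (2 * ((5 + C3) * (ell + D * t)) * (4 * D)))) := by
    refine mul_le_mul_of_nonneg_left ?_ (Nat.cast_nonneg _)
    exact mul_le_mul_of_nonneg_left h3 ht0.le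
  have h5 := h.trans h4
  have h6 : (K : ℝ) * (t * (5 * (B * t ^ 2) * (2 * ((5 + C3) * (ell + D * t)) * (4 * D)))) =
      (20 * K * B * (5 + C3) / κ * t ^ 3 * (ell / D + t)) * (2 * κ * D ^ 2) := by
    field_simp
    ring
  rw [h6] at h5
  exact le_of_mul_le_mul_right h5 (by positivity)

/-- PACKING FOR ONE SHEET, truncated cones (the same proof as `pack_k`). -/
private theorem Main_pack_k {q : ℂ → ℂ} {C γ v : ℝ} {f : ℂ → ℂ}
    (h : Sl q C γ v f) (ha : Asy f) {κ a C3 D T ell x0 : ℝ} {M : ℕ} {S : Finset ℝ}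
    {σ : ℝ → ℝ} {om : ℝ → ℂ → ℂ} {Φ : ℂ → ℂ} (hκ : 0 < κ) (hκ1 : κ ≤ 1 / 64) (ha0 : 0 < a)
    (ha1 : a ≤ 1) (hD : 0 < D) (hT : 0 ≤ T) (hell : 0 ≤ ell) (hC0 : 0 ≤ C3)
    (hC3 : ∀ x ∈ S, |(f (tp v x a)).re - x| ≤ C3) (hx0 : ∀ x ∈ S, |x - x0| ≤ ell)
    (hsep : ∀ x ∈ S, ∀ y ∈ S, x ≠ y → 1 ≤ |x - y|)
    (hσ : ∀ x ∈ S, 0 < σ x ∧ σ x < a ∧ Real.log (a / σ x) ≤ T)
    (hσD : ∀ x ∈ S, dpt v f x (σ x) = 2 * D ∧ ∀ r ∈ Icc (σ x) a, dpt v f x r ≤ 2 * D)
    (haD : ∀ x ∈ S, dpt v f x a ≤ D / 4)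
    (hc : ∀ x ∈ S, ContinuousOn (om x) (Ct v x κ (σ x) a))
    (he : ∀ x ∈ S, ∀ τ ∈ Ct v x κ (σ x) a, exp (2 * om x τ) = (γ : ℂ) ^ 2 * q (f τ))
    (hΦ : ∀ x ∈ S, ∀ τ ∈ Ct v x κ (σ x) a, Xf q γ f τ = Φ (om x τ))
    (hb : ∀ x ∈ S, ∀ s : ℝ, σ x < s → s < a → ∀ τ ∈ ball (tp v x s) (κ * s),
      |(om x τ).im| ≤ Real.pi * M) :
    (S.card : ℝ) * (2 * κ * D ^ 2) ≤
      T * ((2 * M + 1) * (2 * (ell + C3 + 4 * D * T + D) * (4 * D))) := by
  have hκ8 : κ ≤ 1 / 8 := by linarith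
  have hre : ∀ x ∈ S, ∀ z ∈ RR (Real.log (σ x)) (Real.log a) κ,
      σ x < Real.exp z.re ∧ Real.exp z.re < a := by
    intro x hx z hz
    obtain ⟨z1, z2, -⟩ := hz
    obtain ⟨s1, -, -⟩ := hσ x hx
    constructor
    · have := Real.exp_lt_exp.2 z1
      rwa [Real.exp_log s1] at this
    · have := Real.exp_lt_exp.2 z2
      rwa [Real.exp_log ha0] at this
  have hball : ∀ x ∈ S, ∀ z ∈ RR (Real.log (σ x)) (Real.log a) κ,
      ch v x z ∈ ball (tp v x (Real.exp z.re)) (κ * Real.exp z.re) := by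
    intro x hx z hz
    rw [mem_ball, dist_eq_norm]
    refine (ch_dist v x z).trans_lt ?_
    rw [mul_comm κ]
    exact mul_lt_mul_of_pos_left hz.2.2 (Real.exp_pos _)
  have hCn : ∀ x ∈ S, ∀ z ∈ RR (Real.log (σ x)) (Real.log a) κ, ch v x z ∈ Ct v x κ (σ x) a :=
    fun x hx z hz => Main_ch_mem hz.2.2 (hre x hx z hz).1.le (hre x hx z hz).2.le
  have hHp : ∀ x ∈ S, ∀ z ∈ RR (Real.log (σ x)) (Real.log a) κ, ch v x z ∈ Hp v := by
    intro x hx z hz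
    have h1 := hball x hx z hz
    rw [mem_ball, dist_eq_norm] at h1
    have h2 := (abs_le.1 (abs_im_le_norm (ch v x z - tp v x (Real.exp z.re)))).2
    rw [sub_im, tp_im] at h2
    have h3 : κ * Real.exp z.re ≤ 1 / 64 * Real.exp z.re :=
      mul_le_mul_of_nonneg_right hκ1 (Real.exp_pos _).le
    have h4 := Real.exp_pos z.re
    show (ch v x z).im < -v
    linarith
  have hcc : ∀ x : ℝ, Continuous fun z => ch v x z := by
    intro x
    unfold ch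
    fun_prop
  obtain ⟨W, hW⟩ : ∃ W : ℝ, W = ell + C3 + 4 * D * T + D := ⟨_, rfl⟩
  have hW0 : 0 ≤ W := by
    rw [hW]
    positivity
  have key := count_area (S := S) (G := fun x z => f (ch v x z))
    (R := fun x => RR (Real.log (σ x)) (Real.log a) κ)
    (om := fun x z => (om x (ch v x z)).im) (M := M) (B := LBox x0 (4 * D) W)
    (fun x _ => isOpen_RR _ _ _)
    (fun x hx z hz => by
      have ho : IsOpen {z : ℂ | |z.im| < 1} := isOpen_lt continuous_im.abs continuous_const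
      have hz1 : z ∈ {z : ℂ | |z.im| < 1} := by
        show |z.im| < 1
        linarith [hz.2.2]
      exact (diff_fch h x).differentiableAt (ho.mem_nhds hz1))
    (fun x hx => by
      refine continuous_im.comp_continuousOn ?_
      exact (hc x hx).comp (hcc x).continuousOn (hCn x hx))
    (fun x hx z hz => hb x hx (Real.exp z.re) (hre x hx z hz).1 (hre x hx z hz).2 _
      (hball x hx z hz))
    (fun x hx y hy z hz w hw he1 hlt => by
      have e1 := same_point h ha (hHp x hx z hz) (hHp y hy w hw) (he x hx _ (hCn x hx z hz))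
        (he y hy _ (hCn y hy w hw)) (hΦ x hx _ (hCn x hx z hz)) (hΦ y hy _ (hCn y hy w hw)) he1 hlt
      refine ch_inj hκ8 hz.2.2 hw.2.2 ((hre x hx z hz).2.le.trans ha1)
        ((hre y hy w hw).2.le.trans ha1) ?_ e1
      rcases eq_or_ne x y with hxy | hxy
      · exact Or.inl hxy
      · exact Or.inr (hsep x hx y hy hxy))
    (fun x hx z hz => by
      obtain ⟨s1, s2, s3⟩ := hσ x hx
      obtain ⟨b1, b2, b3⟩ := label_box h hκ hκ1 s1 s2.le hD (hσD x hx).2 (hC3 x hx) s3 hz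
      refine ⟨b1.le, b2, ?_⟩
      have b4 := hx0 x hx
      have b5 : (f (ch v x z)).re - x0 = ((f (ch v x z)).re - x) + (x - x0) := by ring
      rw [b5, hW]
      refine (abs_add_le _ _).trans ?_
      linarith)
  rw [volume_LBox (by positivity) hW0] at key
  have hlow : ∀ x ∈ S, ENNReal.ofReal (2 * κ * D ^ 2) ≤ ENNReal.ofReal T *
      ∫⁻ z in RR (Real.log (σ x)) (Real.log a) κ, ‖deriv (fun z => f (ch v x z)) z‖ₑ ^ 2 := by
    intro x hx
    obtain ⟨s1, s2, s3⟩ := hσ x hx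
    refine (area_low h hκ hκ1 s1 s2.le hD (hσD x hx).1 (haD x hx)).trans ?_
    exact mul_le_mul_left (ENNReal.ofReal_le_ofReal s3) _
  have hsum := Finset.sum_le_sum hlow
  rw [← Finset.mul_sum, Finset.sum_const, nsmul_eq_mul] at hsum
  have hfin : ENNReal.ofReal ((S.card : ℝ) * (2 * κ * D ^ 2)) ≤
      ENNReal.ofReal (T * ((2 * M + 1) * (2 * W * (4 * D)))) := by
    calc ENNReal.ofReal ((S.card : ℝ) * (2 * κ * D ^ 2))
        = (S.card : ENNReal) * ENNReal.ofReal (2 * κ * D ^ 2) := by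
          rw [ENNReal.ofReal_mul (Nat.cast_nonneg _), ENNReal.ofReal_natCast]
      _ ≤ _ := hsum
      _ ≤ ENNReal.ofReal T * ((2 * M + 1 : ℕ) * ENNReal.ofReal (2 * W * (4 * D))) :=
          mul_le_mul_right key _
      _ = ENNReal.ofReal (T * ((2 * M + 1) * (2 * W * (4 * D)))) := by
          rw [ENNReal.ofReal_mul hT]
          congr 1
          rw [← ENNReal.ofReal_natCast, ← ENNReal.ofReal_mul (Nat.cast_nonneg _)]
          congr 1
          push_cast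
          ring
  rw [← hW]
  exact (ENNReal.ofReal_le_ofReal_iff (by positivity)).1 hfin

/-- PACKING. The number of points `x` in an interval of length `2 ell`, with mutual distances
`≥ 1`, whose vertical paths reach the depth `2 D` already at a distance `≥ exp (-t)` of the line
(any points of the line, in particular points of type `I`).

PROOF. `entrance`: `K, κ0, a, B, D1, Φ`; `κ = min κ0 (1/64)`; `dpt_bound`: `C2`, `re_bound`: `C3` at `a`.
`C1` large (`≥ 4 C2 / a ^ 2`, `≥ D1`). For `x ∈ S` choose `σ x` (`first_passage`,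
`dpt v f x a ≤ C2 / a² ≤ D / 4 < 2 D`), then `k x`, `om x` (`entrance x (σ x)`, `D1 ≤ 2 D`). `T = t` (`log (a / σ x) ≤ log (1 / s0) ≤ t`). For `s > σ x`:
`log (1/s) ≤ t`, so `|Im om| ≤ B (1 + t²) ≤ 2 B t² ≤ π M`, `M = ⌈B t²⌉₊`. `pack_k` for the set
`S.filter (k x = k)` and every `k ∈ [1, K]`; sum: `card S = ∑_k card (S_k)`
(`Finset.card_eq_sum_card_fiberwise`):
`card S * 2 κ D² ≤ K t (2 B t² + 3) * 8 D (ell + C3 + 4 D t + D)`; with `D ≥ 1`, `t ≥ 1`, `ell ≥ 1`: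
`card S ≤ C t³ (ell / D + t)`. -/
theorem packing {W : Set (ℂ → ℂ)} {C kap : ℝ} (hW : Fm W C kap) {q : ℂ → ℂ} (hq : q ∈ W)
    {γ v : ℝ} {f : ℂ → ℂ} (hγ : 1 ≤ γ) (h : Sl q C γ v f) (hd : Deep v f) (ha : Asy f) :
    ∃ a C1 : ℝ, 0 < a ∧ a ≤ 1 ∧ 1 ≤ C1 ∧ ∀ (ell D t x0 : ℝ) (S : Finset ℝ), 1 ≤ ell → C1 ≤ D →
      1 ≤ t → (∀ x ∈ S, |x - x0| ≤ ell ∧ ∃ s ∈ Icc (Real.exp (-t)) a, 2 * D ≤ dpt v f x s) →
      (∀ x ∈ S, ∀ y ∈ S, x ≠ y → 1 ≤ |x - y|) →
      (S.card : ℝ) ≤ C1 * t ^ 3 * (ell / D + t) := by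
  obtain ⟨K, κ0, a, B, D1, Φ, hκ0, hκ08, ha0, ha1, hB, hD1, hent⟩ := entrance hW hq hγ h hd ha
  obtain ⟨C2, hC2, hdb⟩ := dpt_bound h ha
  obtain ⟨C3, hC3, hrb⟩ := re_bound h ha ha0 ha1
  obtain ⟨κ, hκd⟩ : ∃ κ : ℝ, κ = min κ0 (1 / 64) := ⟨_, rfl⟩
  have hκ : 0 < κ := by
    rw [hκd]
    exact lt_min hκ0 (by norm_num)
  have hκ1 : κ ≤ 1 / 64 := by
    rw [hκd]
    exact min_le_right _ _
  have hκκ : κ ≤ κ0 := by
    rw [hκd]
    exact min_le_left _ _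
  refine ⟨a, max (max 1 (4 * C2 / a ^ 2)) (max D1 (20 * K * B * (5 + C3) / κ)), ha0, ha1,
    (le_max_left _ _).trans (le_max_left _ _), ?_⟩
  intro ell D t x0 S hell hD ht hS hsep
  have hDa : 1 ≤ D := ((le_max_left _ _).trans (le_max_left _ _)).trans hD
  have hDb : 4 * C2 / a ^ 2 ≤ D := ((le_max_right _ _).trans (le_max_left _ _)).trans hD
  have hDc : D1 ≤ D := ((le_max_left _ _).trans (le_max_right _ _)).trans hD
  have hD0 : 0 < D := by linarith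
  have ht0 : 0 < t := by linarith
  have haD : ∀ x : ℝ, dpt v f x a ≤ D / 4 := by
    intro x
    have e1 := hdb x a ha0 ha1
    have e2 : 4 * C2 / a ^ 2 = 4 * (C2 / a ^ 2) := by ring
    rw [e2] at hDb
    linarith
  have hex : Real.exp (-t) > 0 := Real.exp_pos _
  have hσ : ∀ x ∈ S, ∃ σ : ℝ, Real.exp (-t) ≤ σ ∧ σ < a ∧ dpt v f x σ = 2 * D ∧
      ∀ r ∈ Icc σ a, dpt v f x r ≤ 2 * D := by
    intro x hx
    obtain ⟨-, s0, hs0, hs1⟩ := hS x hx
    obtain ⟨σ, e1, e2, e3, e4⟩ := first_passage h (hex.trans_le hs0.1) hs0.2 hs1 (by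
      have := haD x
      linarith)
    exact ⟨σ, hs0.1.trans e1, e2, e3, e4⟩
  choose! σ hσ1 hσ2 hσ3 hσ4 using hσ
  have hσ0 : ∀ x ∈ S, 0 < σ x := fun x hx => hex.trans_le (hσ1 x hx)
  have hent2 : ∀ x ∈ S, ∃ k : ℕ, 1 ≤ k ∧ k ≤ K ∧ ∃ om : ℂ → ℂ,
        ContinuousOn om (Ct v x κ0 (σ x) a) ∧
        (∀ τ ∈ Ct v x κ0 (σ x) a, exp (2 * om τ) = (γ : ℂ) ^ 2 * q (f τ)) ∧
        (∀ τ ∈ Ct v x κ0 (σ x) a, Xf q γ f τ = Φ k (om τ)) ∧
        (∀ s ∈ Icc (σ x) a, ∀ τ ∈ ball (tp v x s) (κ0 * s),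
          |(om τ).im| ≤ B * (1 + Real.log (1 / s) ^ 2)) ∧
        ∀ τ ∈ Ct v x κ0 (σ x) a, ‖Xf q γ f τ‖ ≤ B := by
    intro x hx
    exact hent x (σ x) (hσ0 x hx) (hσ2 x hx) (by
      rw [hσ3 x hx]
      linarith)
  choose! k hk1 hkK om hom1 hom2 hom3 hom4 hom5 using hent2
  obtain ⟨M, hMd⟩ : ∃ M : ℕ, M = ⌈B * t ^ 2⌉₊ := ⟨_, rfl⟩
  have hBt0 : 0 ≤ B * t ^ 2 := by positivity
  have hM1 : B * t ^ 2 ≤ M := by
    rw [hMd]
    exact Nat.le_ceil _
  have hM2 : (M : ℝ) ≤ B * t ^ 2 + 1 := by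
    rw [hMd]
    exact (Nat.ceil_lt_add_one hBt0).le
  have hlog : ∀ x ∈ S, Real.log (1 / σ x) ≤ t := by
    intro x hx
    rw [one_div, Real.log_inv]
    have e1 := Real.log_le_log hex (hσ1 x hx)
    rw [Real.log_exp] at e1
    linarith
  have hsheet : ∀ b ∈ Finset.Icc 1 K, (((S.filter fun x => k x = b).card : ℕ) : ℝ) *
      (2 * κ * D ^ 2) ≤ t * ((2 * M + 1) * (2 * (ell + C3 + 4 * D * t + D) * (4 * D))) := by
    intro b _
    have hsub : ∀ x ∈ S.filter fun x => k x = b, x ∈ S ∧ k x = b := fun x hx =>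
      Finset.mem_filter.1 hx
    refine Main_pack_k h ha (σ := σ) (om := om) (Φ := Φ b) hκ hκ1 ha0 ha1 hD0 ht0.le
      (by linarith) hC3 (fun x _ => hrb x) (fun x hx => (hS x (hsub x hx).1).1)
      (fun x hx y hy => hsep x (hsub x hx).1 y (hsub y hy).1) ?_
      (fun x hx => ⟨hσ3 x (hsub x hx).1, hσ4 x (hsub x hx).1⟩) (fun x _ => haD x) ?_ ?_ ?_ ?_
    · intro x hx
      have hxS := (hsub x hx).1
      refine ⟨hσ0 x hxS, hσ2 x hxS, ?_⟩
      refine le_trans (Real.log_le_log (div_pos ha0 (hσ0 x hxS)) ?_) (hlog x hxS)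
      exact div_le_div_of_nonneg_right ha1 (hσ0 x hxS).le
    · intro x hx
      have hxS := (hsub x hx).1
      exact (hom1 x hxS).mono (Main_Ct_mono (hσ0 x hxS) hκκ)
    · intro x hx τ hτ
      have hxS := (hsub x hx).1
      exact hom2 x hxS τ (Main_Ct_mono (hσ0 x hxS) hκκ hτ)
    · intro x hx τ hτ
      obtain ⟨hxS, hxb⟩ := hsub x hx
      rw [hom3 x hxS τ (Main_Ct_mono (hσ0 x hxS) hκκ hτ), hxb]
    · intro x hx s hs1 hs2 τ hτ
      have hxS := (hsub x hx).1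
      have hs0 : 0 < s := (hσ0 x hxS).trans hs1
      have e1 := hom4 x hxS s ⟨hs1.le, hs2.le⟩ τ
        (ball_subset_ball (mul_le_mul_of_nonneg_right hκκ hs0.le) hτ)
      have e2 : 0 ≤ Real.log (1 / s) := by
        refine Real.log_nonneg ?_
        rw [le_div_iff₀ hs0]
        linarith
      have e3 : Real.log (1 / s) ≤ t := by
        refine le_trans (Real.log_le_log (by positivity) ?_) (hlog x hxS)
        exact div_le_div_of_nonneg_left zero_le_one (hσ0 x hxS) hs1.le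
      have e4 : Real.log (1 / s) ^ 2 ≤ t ^ 2 := pow_le_pow_left₀ e2 e3 2
      have e5 : 1 ≤ t ^ 2 := one_le_pow₀ ht
      have e6 : B * (1 + Real.log (1 / s) ^ 2) ≤ B * (t ^ 2 + t ^ 2) :=
        mul_le_mul_of_nonneg_left (by linarith) (by linarith)
      have e7 := Real.pi_gt_three
      have e8 : 3 * (M : ℝ) ≤ Real.pi * M :=
        mul_le_mul_of_nonneg_right e7.le (Nat.cast_nonneg _)
      nlinarith
  have hsum : (S.card : ℝ) * (2 * κ * D ^ 2) ≤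
      K * (t * ((2 * M + 1) * (2 * (ell + C3 + 4 * D * t + D) * (4 * D)))) := by
    have e1 : S.card = ∑ b ∈ Finset.Icc 1 K, (S.filter fun x => k x = b).card :=
      Finset.card_eq_sum_card_fiberwise fun x hx =>
        Finset.mem_coe.2 (Finset.mem_Icc.2 ⟨hk1 x hx, hkK x hx⟩)
    rw [e1, Nat.cast_sum, Finset.sum_mul]
    refine (Finset.sum_le_sum hsheet).trans ?_
    rw [Finset.sum_const, Nat.card_Icc, nsmul_eq_mul]
    simp
  have hfin := Main_arith hκ hDa hB hC3 hell ht hM2 hsum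
  refine hfin.trans ?_
  refine mul_le_mul_of_nonneg_right ?_ (by positivity)
  refine mul_le_mul_of_nonneg_right ?_ (by positivity)
  exact (le_max_right _ _).trans (le_max_right _ _)

end Pool.Agent.MP_ae5b4e_an_PK
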