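import Mathlib

/-!
# POR (iii), N2, type I, PK: area formula
-/

noncomputable section

namespace Pool.Agent.MP_ae5b4e_an_PK

open Complex Set Filter Topology Metric MeasureTheory

private theorem Area_det (c : ℂ) : (c • (1 : ℂ →L[ℝ] ℂ)).det = ‖c‖ ^ 2 := by
  have h1 : ((c • (1 : ℂ →L[ℝ] ℂ) : ℂ →L[ℝ] ℂ) : ℂ →ₗ[ℝ] ℂ) = LinearMap.mul ℝ ℂ c := by
    refine LinearMap.ext fun z => ?_
    rfl
  have h2 : (c • (1 : ℂ →L[ℝ] ℂ)).det = Algebra.norm ℝ c := by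
    rw [Algebra.norm_apply]
    change LinearMap.det ((c • (1 : ℂ →L[ℝ] ℂ) : ℂ →L[ℝ] ℂ) : ℂ →ₗ[ℝ] ℂ) = _
    rw [h1]
    rfl
  rw [h2, Algebra.norm_complex_apply, Complex.sq_norm]

/-- AREA FORMULA for an injective holomorphic function.

PROOF. Literally `Pool.Agent.MY018.lintegral_holo` (`Pool/Agent/Lib/MP_018119_an_MY/AreaD.lean`
on main) with `g = 1` (`setLIntegral_one`): copy `AreaD_det` and its proof. -/
theorem area_image {Z : Set ℂ} (hZ : MeasurableSet Z) {F : ℂ → ℂ}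
    (hd : ∀ z ∈ Z, DifferentiableAt ℂ F z) (hi : InjOn F Z) :
    ∫⁻ z in Z, ‖deriv F z‖ₑ ^ 2 = volume (F '' Z) := by
  have h1 := lintegral_image_eq_lintegral_abs_det_fderiv_mul (volume : Measure ℂ) hZ
    (f' := fun z => deriv F z • (1 : ℂ →L[ℝ] ℂ))
    (fun z hz => (hd z hz).hasDerivAt.complexToReal_fderiv.hasFDerivWithinAt) hi (fun _ => 1)
  rw [setLIntegral_one] at h1
  rw [h1]
  refine setLIntegral_congr_fun hZ fun z _ => ?_
  simp only [mul_one]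
  rw [Area_det, abs_of_nonneg (sq_nonneg _), ENNReal.ofReal_pow (norm_nonneg _),
    ofReal_norm]

end Pool.Agent.MP_ae5b4e_an_PK
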