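import Pool.Agent.Lib.MP_ae5b4e_an_PK.Area

/-!
# POR (iii), N2, type I, PK: counting by the area of the images
-/

noncomputable section

namespace Pool.Agent.MP_ae5b4e_an_PK

open Complex Set Filter Topology Metric MeasureTheory

/-- one window of the imaginary part -/
theorem count_one {ι : Type*} {S : Finset ι} {G : ι → ℂ → ℂ} {Z : ι → Set ℂ} {B : Set ℂ}
    (hZ : ∀ i ∈ S, MeasurableSet (Z i)) (hG : ∀ i ∈ S, ∀ z ∈ Z i, DifferentiableAt ℂ (G i) z)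
    (hinj : ∀ i ∈ S, ∀ j ∈ S, ∀ z ∈ Z i, ∀ w ∈ Z j, G i z = G j w → i = j ∧ z = w)
    (hB : ∀ i ∈ S, ∀ z ∈ Z i, G i z ∈ B) :
    ∑ i ∈ S, ∫⁻ z in Z i, ‖deriv (G i) z‖ₑ ^ 2 ≤ volume B := by
  have hio : ∀ i ∈ S, InjOn (G i) (Z i) := fun i hi z hz w hw h =>
    (hinj i hi i hi z hz w hw h).2
  have hco : ∀ i ∈ S, ContinuousOn (G i) (Z i) := fun i hi z hz =>
    (hG i hi z hz).continuousAt.continuousWithinAt
  calc ∑ i ∈ S, ∫⁻ z in Z i, ‖deriv (G i) z‖ₑ ^ 2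
      = ∑ i ∈ S, volume (G i '' Z i) :=
        Finset.sum_congr rfl fun i hi => area_image (hZ i hi) (hG i hi) (hio i hi)
    _ = volume (⋃ i ∈ S, G i '' Z i) := by
        rw [measure_biUnion_finset]
        · intro i hi j hj hij
          rw [Function.onFun, Set.disjoint_left]
          rintro _ ⟨z, hz, rfl⟩ ⟨w, hw, h⟩
          exact hij (hinj i hi j hj z hz w hw h.symm).1
        · intro i hi
          exact (hZ i hi).image_of_continuousOn_injOn (hco i hi) (hio i hi)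
    _ ≤ volume B := by
        refine measure_mono (iUnion₂_subset fun i hi => ?_)
        rintro _ ⟨z, hz, rfl⟩
        exact hB i hi z hz

/-- COUNTING WITH THE WINDOWS OF THE IMAGINARY PART (`om i` = imaginary part of the logarithm). -/
theorem count_area {ι : Type*} {S : Finset ι} {G : ι → ℂ → ℂ} {R : ι → Set ℂ} {om : ι → ℂ → ℝ}
    {M : ℕ} {B : Set ℂ} (hR : ∀ i ∈ S, IsOpen (R i))
    (hG : ∀ i ∈ S, ∀ z ∈ R i, DifferentiableAt ℂ (G i) z)
    (hom : ∀ i ∈ S, ContinuousOn (om i) (R i)) (hM : ∀ i ∈ S, ∀ z ∈ R i, |om i z| ≤ Real.pi * M)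
    (hinj : ∀ i ∈ S, ∀ j ∈ S, ∀ z ∈ R i, ∀ w ∈ R j, G i z = G j w → |om i z - om j w| < Real.pi →
      i = j ∧ z = w)
    (hB : ∀ i ∈ S, ∀ z ∈ R i, G i z ∈ B) :
    ∑ i ∈ S, ∫⁻ z in R i, ‖deriv (G i) z‖ₑ ^ 2 ≤ (2 * M + 1 : ℕ) * volume B := by
  have hpi : 0 < Real.pi := Real.pi_pos
  set T : Finset ℤ := Finset.Ico (-(M : ℤ)) (M + 1) with hT
  have hcard : T.card = 2 * M + 1 := by
    rw [hT, Int.card_Ico]
    omega
  let Z : ℤ → ι → Set ℂ := fun m i =>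
    (R i ∩ om i ⁻¹' (Iio (Real.pi * (m + 1)))) \ (R i ∩ om i ⁻¹' (Iio (Real.pi * m)))
  have hZsub : ∀ m i, Z m i ⊆ R i := fun m i z hz => hz.1.1
  have hZl : ∀ m i z, z ∈ Z m i → Real.pi * m ≤ om i z := by
    intro m i z hz
    by_contra h
    push Not at h
    exact hz.2 ⟨hz.1.1, h⟩
  have hZu : ∀ m i z, z ∈ Z m i → om i z < Real.pi * (m + 1) := fun m i z hz => hz.1.2
  have hZm : ∀ m, ∀ i ∈ S, MeasurableSet (Z m i) := by
    intro m i hi
    exact ((hom i hi).isOpen_inter_preimage (hR i hi) isOpen_Iio).measurableSet.diff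
      ((hom i hi).isOpen_inter_preimage (hR i hi) isOpen_Iio).measurableSet
  have hcov : ∀ i ∈ S, R i ⊆ ⋃ m : {m // m ∈ T}, Z m.1 i := by
    intro i hi z hz
    have h1 := hM i hi z hz
    rw [abs_le] at h1
    set m : ℤ := ⌊om i z / Real.pi⌋ with hm
    have h2 : (m : ℝ) ≤ om i z / Real.pi := Int.floor_le _
    have h3 : om i z / Real.pi < m + 1 := Int.lt_floor_add_one _
    have h4 : Real.pi * m ≤ om i z := by
      rw [le_div_iff₀ hpi] at h2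
      linarith
    have h5 : om i z < Real.pi * (m + 1) := by
      rw [div_lt_iff₀ hpi] at h3
      linarith
    have h6 : -(M : ℤ) ≤ m := by
      rw [hm, Int.le_floor, le_div_iff₀ hpi]
      push_cast
      linarith [h1.1]
    have h7 : m < M + 1 := by
      rw [hm, Int.floor_lt, div_lt_iff₀ hpi]
      push_cast
      nlinarith [h1.2]
    refine mem_iUnion.2 ⟨⟨m, Finset.mem_Ico.2 ⟨h6, h7⟩⟩, ⟨hz, h5⟩, fun h => ?_⟩
    exact absurd h.2 (not_lt.2 h4)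
  have hone : ∀ m ∈ T, ∑ i ∈ S, ∫⁻ z in Z m i, ‖deriv (G i) z‖ₑ ^ 2 ≤ volume B := by
    intro m _
    refine count_one (hZm m) (fun i hi z hz => hG i hi z (hZsub m i hz)) ?_
      (fun i hi z hz => hB i hi z (hZsub m i hz))
    intro i hi j hj z hz w hw h
    refine hinj i hi j hj z (hZsub m i hz) w (hZsub m j hw) h ?_
    have a1 := hZl m i z hz
    have a2 := hZu m i z hz
    have b1 := hZl m j w hw
    have b2 := hZu m j w hw
    rw [abs_lt]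
    constructor <;> nlinarith
  calc ∑ i ∈ S, ∫⁻ z in R i, ‖deriv (G i) z‖ₑ ^ 2
      ≤ ∑ i ∈ S, ∑ m ∈ T, ∫⁻ z in Z m i, ‖deriv (G i) z‖ₑ ^ 2 := by
        refine Finset.sum_le_sum fun i hi => ?_
        calc ∫⁻ z in R i, ‖deriv (G i) z‖ₑ ^ 2
            ≤ ∫⁻ z in ⋃ m : {m // m ∈ T}, Z m.1 i, ‖deriv (G i) z‖ₑ ^ 2 :=
              lintegral_mono_set (hcov i hi)
          _ ≤ ∑' m : {m // m ∈ T}, ∫⁻ z in Z m.1 i, ‖deriv (G i) z‖ₑ ^ 2 :=
              lintegral_iUnion_le _ _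
          _ = ∑ m ∈ T, ∫⁻ z in Z m i, ‖deriv (G i) z‖ₑ ^ 2 := by
              rw [tsum_fintype]
              exact Finset.sum_coe_sort T (fun m => ∫⁻ z in Z m i, ‖deriv (G i) z‖ₑ ^ 2)
    _ = ∑ m ∈ T, ∑ i ∈ S, ∫⁻ z in Z m i, ‖deriv (G i) z‖ₑ ^ 2 := Finset.sum_comm
    _ ≤ ∑ m ∈ T, volume B := Finset.sum_le_sum hone
    _ = (2 * M + 1 : ℕ) * volume B := by
        rw [Finset.sum_const, hcard, nsmul_eq_mul]

end Pool.Agent.MP_ae5b4e_an_PK
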