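import Pool.Agent.Lib.MP_ae5b4e_an_PK.Defs
import Pool.Agent.Lib.MP_ae5b4e_an_T.GrC
import Pool.Agent.Lib.MP_ae5b4e_an_WD.AV

/-!
# POR (iii), N2, type I, PK, block EL (entrance)
-/

noncomputable section

namespace Pool.Agent.MP_ae5b4e_an_PK

open Complex Set Filter Topology Metric
open Pool.Agent.MP_ae5b4e_an_WB
open Pool.Agent.MP_ae5b4e_an_WD
open Pool.Agent.MP_ae5b4e_an_T
open Pool.Agent.MP_ae5b4e_an_M (S1 C1f Gf)

variable {q : ℂ → ℂ} {C γ v : ℝ} {f : ℂ → ℂ}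

/-- `|Re y|` for `y² = X` -/
def ax (X : ℂ) : ℝ := √((‖X‖ + X.re) / 2)

/-- PROOF. `‖y‖² + Re (y²) = 2 (Re y)²`, `Real.sqrt_sq_eq_abs` (as `T.iy_eq` in T/SchD.lean). -/
theorem ax_eq {X y : ℂ} (h : y ^ 2 = X) : ax X = |y.re| := by
  have h1 : ‖X‖ = y.re ^ 2 + y.im ^ 2 := by
    rw [← h, norm_pow, ← Complex.normSq_eq_norm_sq, Complex.normSq_apply]
    ring
  have h2 : X.re = y.re ^ 2 - y.im ^ 2 := by
    rw [← h, pow_two, Complex.mul_re]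
    ring
  have h3 : (‖X‖ + X.re) / 2 = y.re ^ 2 := by
    rw [h1, h2]
    ring
  rw [ax, h3, Real.sqrt_sq_eq_abs]

theorem ax_cont : Continuous ax := by
  unfold ax
  fun_prop

/-- THE WALLS. `|w| ≤ 1` implies that `|Re y|` is not a half integer multiple of `π`.

PROOF. Suppose `ax X = (m + 1/2) π`. Choose `y` with `y² = X` (`IsAlgClosed.exists_pow_nat_eq` or
`Complex.cpow`), replace `y` by `-y` if necessary: `y.re = (m + 1/2) π` (`ax_eq`). `X ≠ 0`, so `q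
(f τ) ≠ 0`.
`T.y_spec`: `G y ^ 2 = γ² q (f τ)`, so `‖G y‖ ≤ 1`; `WD.norm_G_gt_of_re`: `exp 1 / 2 < ‖G y‖`,
`exp 1 / 2 > 1`. -/
theorem ax_ne (h : Sl q C γ v f) {τ : ℂ} (hτ : τ ∈ Hp v)
    (hw : ‖(γ : ℂ) ^ 2 * q (f τ)‖ ≤ 1) (m : ℕ) : ax (Xf q γ f τ) ≠ (m + 1 / 2) * Real.pi := by
  intro hax
  have hpi := Real.pi_pos
  have hpos : 0 < ((m : ℝ) + 1 / 2) * Real.pi := by positivity
  obtain ⟨y, hy, hre⟩ : ∃ y : ℂ, y ^ 2 = Xf q γ f τ ∧ y.re = (m + 1 / 2) * Real.pi := by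
    obtain ⟨y, hy⟩ := IsAlgClosed.exists_pow_nat_eq (Xf q γ f τ) (n := 2) two_pos
    rw [ax_eq hy] at hax
    rcases abs_choice y.re with h1 | h1
    · exact ⟨y, hy, h1 ▸ hax⟩
    · exact ⟨-y, by rw [neg_sq, hy], by rw [neg_re, ← h1, hax]⟩
  have hy0 : y ≠ 0 := by
    rintro rfl
    rw [zero_re] at hre
    exact hpos.ne hre
  have hq : q (f τ) ≠ 0 := by
    intro h0
    rw [Xf, h0, zero_mul] at hy
    exact hy0 (pow_eq_zero_iff two_ne_zero |>.1 hy)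
  obtain ⟨-, h2, -⟩ := y_spec h hτ hq hy
  rw [← h2, norm_pow] at hw
  have h3 : ‖G y‖ ≤ 1 := by
    have h4 := norm_nonneg (G y)
    nlinarith
  have h5 := norm_G_gt_of_re (y := y) (m : ℤ) (by rw [hre]; push_cast; ring)
  have h6 := Real.exp_one_gt_d9
  linarith

/-- PROOF. `0 ≤ ax`, `k = ⌊ax / π + 1/2⌋₊`; equality on the left excluded by `ax_ne` (for `k ≥
1`, `m = k - 1`;
for `k = 0` `ax ≥ 0 > - π / 2`). -/
theorem exists_strip (h : Sl q C γ v f) {τ : ℂ} (hτ : τ ∈ Hp v)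
    (hw : ‖(γ : ℂ) ^ 2 * q (f τ)‖ ≤ 1) : ∃ k : ℕ, |ax (Xf q γ f τ) - k * Real.pi| < Real.pi / 2
    := by
  have hpi := Real.pi_pos
  have h0 : 0 ≤ ax (Xf q γ f τ) := Real.sqrt_nonneg _
  obtain ⟨a, ha⟩ : ∃ a : ℝ, a = ax (Xf q γ f τ) := ⟨_, rfl⟩
  have hne := ax_ne h hτ hw
  rw [← ha] at h0 hne ⊢
  have h1 := Nat.floor_le (show 0 ≤ a / Real.pi + 1 / 2 by positivity)
  have h2 := Nat.lt_floor_add_one (a / Real.pi + 1 / 2)
  obtain ⟨k, hk⟩ : ∃ k : ℕ, k = ⌊a / Real.pi + 1 / 2⌋₊ := ⟨_, rfl⟩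
  rw [← hk] at h1 h2
  have h3 : ((k : ℝ) - 1 / 2) * Real.pi ≤ a := (le_div_iff₀ hpi).1 (by linarith)
  have h4 : a < ((k : ℝ) + 1 / 2) * Real.pi := (div_lt_iff₀ hpi).1 (by linarith)
  refine ⟨k, abs_lt.2 ⟨?_, by linarith⟩⟩
  have h5 : ((k : ℝ) - 1 / 2) * Real.pi ≠ a := by
    rcases Nat.eq_zero_or_pos k with h6 | h6
    · rw [h6]
      push_cast
      intro h7
      linarith
    · obtain ⟨m, rfl⟩ : ∃ m, k = m + 1 := ⟨k - 1, by omega⟩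
      intro h7
      refine hne m ?_
      rw [← h7]
      push_cast
      ring
  have h6 := lt_of_le_of_ne h3 h5
  linarith

/-- THE STRIP INDEX IS CONSTANT.

PROOF. `τ ↦ ax (Xf q γ f τ)` is continuous on `S` (`ax_cont`, `T.Xf_diff`); the image of the
preconnected
set `S` is an interval (`IsPreconnected.image`, `IsPreconnected.Icc_subset` / intermediate value)
which
contains neither `(k + 1/2) π` nor `(k - 1/2) π` (`ax_ne`; for `k = 0` `ax ≥ 0`). -/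
theorem strip_const (h : Sl q C γ v f) {S : Set ℂ} (hS : IsPreconnected S) (hSH : S ⊆ Hp v)
    (hw : ∀ τ ∈ S, ‖(γ : ℂ) ^ 2 * q (f τ)‖ ≤ 1) {τ₀ τ₁ : ℂ} (h0 : τ₀ ∈ S) (h1 : τ₁ ∈ S) {k : ℕ}
    (hk : |ax (Xf q γ f τ₀) - k * Real.pi| < Real.pi / 2) :
    |ax (Xf q γ f τ₁) - k * Real.pi| < Real.pi / 2 := by
  have hpi := Real.pi_pos
  have hc : ContinuousOn (fun τ => ax (Xf q γ f τ)) S :=
    (ax_cont.comp_continuousOn (Xf_diff h).continuousOn).mono hSH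
  have hoc := (hS.image _ hc).ordConnected
  have hm0 : ax (Xf q γ f τ₀) ∈ (fun τ => ax (Xf q γ f τ)) '' S := ⟨τ₀, h0, rfl⟩
  have hm1 : ax (Xf q γ f τ₁) ∈ (fun τ => ax (Xf q γ f τ)) '' S := ⟨τ₁, h1, rfl⟩
  obtain ⟨hk1, hk2⟩ := abs_lt.1 hk
  refine abs_lt.2 ⟨?_, ?_⟩
  · by_contra hcon
    rw [not_lt] at hcon
    rcases Nat.eq_zero_or_pos k with h6 | h6
    · have h7 : 0 ≤ ax (Xf q γ f τ₁) := Real.sqrt_nonneg _
      rw [h6] at hcon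
      push_cast at hcon
      linarith
    · obtain ⟨m, rfl⟩ : ∃ m, k = m + 1 := ⟨k - 1, by omega⟩
      push_cast at hcon hk1
      obtain ⟨τ, hτS, hτ⟩ := hoc.out hm1 hm0 (show ((m : ℝ) + 1 / 2) * Real.pi ∈ Icc _ _ from
        ⟨by linarith, by linarith⟩)
      exact ax_ne h (hSH hτS) (hw τ hτS) m hτ
  · by_contra hcon
    rw [not_lt] at hcon
    obtain ⟨τ, hτS, hτ⟩ := hoc.out hm0 hm1 (show ((k : ℝ) + 1 / 2) * Real.pi ∈ Icc _ _ from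
      ⟨by linarith, by linarith⟩)
    exact ax_ne h (hSH hτS) (hw τ hτS) k hτ

end Pool.Agent.MP_ae5b4e_an_PK
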