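import Pool.Agent.Lib.MP_ae5b4e_an_PK.Defs
import Pool.Agent.Lib.MP_ae5b4e_an_T.GrE
import Pool.Agent.Lib.MP_ae5b4e_an_T.Bxc

/-!
# POR (iii), N2, type I, PK, block EL (entrance)
-/

noncomputable section

namespace Pool.Agent.MP_ae5b4e_an_PK

open Complex Set Filter Topology Metric
open Pool.Agent.MP_ae5b4e_an_WB
open Pool.Agent.MP_ae5b4e_an_WD
open Pool.Agent.MP_ae5b4e_an_T
open Pool.Agent.MP_ae5b4e_an_M (S1 C1f Gf)

/-- PROOF. `T.grow` (T/GrE.lean). -/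
theorem grw {C : ℝ} (hC : 0 < C) : Grw C := by
  intro c hc
  exact grow hC hc

/-- THE POCKET. A vertical path which reaches the depth `D + 1` at the distance `σ ≤ a` has depth
`≥ D` at all distances between `σ` and `a`.

PROOF. `T.boxl_of (grw hW.C_pos) hW (K1 := K1) (δ := 1) (D := D)`: `σ0`; `a = min σ0 1`. If `dpt s < D` for some
`s ∈ [σ, a]`: `boxl` for `τ = tp v x s`, `τ' = tp v x σ` (same real part, `tp_re`, `tp_im`) gives
`‖f τ' - f τ‖ < 1`, so `dpt σ < D + 1`. -/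
theorem pocket {W : Set (ℂ → ℂ)} {C kap : ℝ} (hW : Fm W C kap) (K1 D : ℝ) :
    ∃ a : ℝ, 0 < a ∧ a ≤ 1 ∧ ∀ q ∈ W, ∀ (γ v : ℝ) (f : ℂ → ℂ), 1 ≤ γ → γ ≤ K1 → Sl q C γ v f →
      Deep v f → ∀ x σ : ℝ, 0 < σ → σ ≤ a → D + 1 ≤ dpt v f x σ → ∀ s ∈ Icc σ a, D ≤ dpt v f x s := by
  obtain ⟨σ0, hσ0, hbox⟩ := boxl_of (grw hW.C_pos) hW (K1 := K1) (δ := 1) (D := D) one_pos
  refine ⟨min σ0 1, lt_min hσ0 one_pos, min_le_right _ _, ?_⟩
  intro q hq γ v f hγ hγ1 h hd x σ hσ hσa hdp s hs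
  by_contra hcon
  rw [not_le] at hcon
  have hs0 : 0 < s := lt_of_lt_of_le hσ hs.1
  have h1 := hbox q hq γ v f hγ hγ1 h hd (tp v x s) (tp_mem hs0)
    (by rw [tp_im]; have := hs.2.trans (min_le_left _ _); linarith)
    hcon.le (tp v x σ) (tp_mem hσ)
    (by rw [tp_re, tp_re, tp_im, sub_self, abs_zero]; linarith)
    (by rw [tp_im, tp_im]; have := hs.1; linarith)
  have h2 : |(f (tp v x σ) - f (tp v x s)).im| ≤ ‖f (tp v x σ) - f (tp v x s)‖ :=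
    Complex.abs_im_le_norm _
  rw [Complex.sub_im] at h2
  have h4 : |(f (tp v x σ)).im - (f (tp v x s)).im| < 1 := lt_of_le_of_lt h2 h1
  have h5 := (abs_lt.mp h4).1
  unfold dpt at hcon hdp
  linarith

end Pool.Agent.MP_ae5b4e_an_PK
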