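import Pool.Agent.Lib.MP_ae5b4e_an_PK.Defs

/-!
# POR (iii), N2, type I, PK: bounds of the depth of the label (part A)
-/

noncomputable section

namespace Pool.Agent.MP_ae5b4e_an_PK

open Complex Set Filter Topology Metric
open Pool.Agent.MP_ae5b4e_an_WB
open Pool.Agent.MP_ae5b4e_an_WD
open Pool.Agent.MP_ae5b4e_an_T
open Pool.Agent.MP_ae5b4e_an_M (S1 C1f Gf)

variable {q : ℂ → ℂ} {C γ v : ℝ} {f : ℂ → ℂ}

private theorem GeoA_im_neg (h : Sl q C γ v f) {z : ℂ} (hz : z ∈ Hp v) : (f z).im < 0 := by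
  have h1 := h.dep z hz
  have h2 : z.im < -v := hz
  linarith

private theorem GeoA_ball {v : ℝ} {τ z : ℂ} (hz : z ∈ ball τ (-v - τ.im)) : z ∈ Hp v := by
  have h1 : ‖z - τ‖ < -v - τ.im := by
    rw [← dist_eq_norm]
    exact hz
  have h2 : |(z - τ).im| ≤ ‖z - τ‖ := Complex.abs_im_le_norm _
  have h3 := (abs_le.1 h2).2
  rw [Complex.sub_im] at h3
  show z.im < -v
  linarith

private theorem GeoA_ne {w w0 : ℂ} (hw : w.im < 0) (hw0 : w0.im < 0) :
    w - (starRingEnd ℂ) w0 ≠ 0 := by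
  intro h
  have h1 := congrArg Complex.im h
  rw [Complex.sub_im, Complex.conj_im, Complex.zero_im] at h1
  linarith

private theorem GeoA_lt {w w0 : ℂ} (hw : w.im < 0) (hw0 : w0.im < 0) :
    ‖(w - w0) / (w - (starRingEnd ℂ) w0)‖ < 1 := by
  rw [norm_div, div_lt_one (norm_pos_iff.2 (GeoA_ne hw hw0))]
  have h1 : Complex.normSq (w - w0) < Complex.normSq (w - (starRingEnd ℂ) w0) := by
    rw [Complex.normSq_apply, Complex.normSq_apply]
    simp only [Complex.sub_re, Complex.sub_im, Complex.conj_re, Complex.conj_im]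
    nlinarith [mul_pos_of_neg_of_neg hw hw0]
  rw [Complex.normSq_eq_norm_sq, Complex.normSq_eq_norm_sq] at h1
  exact lt_of_pow_lt_pow_left₀ 2 (norm_nonneg _) h1

private theorem GeoA_diff (h : Sl q C γ v f) {τ : ℂ} (hτ : τ ∈ Hp v) :
    DifferentiableOn ℂ (fun z => (f z - f τ) / (f z - (starRingEnd ℂ) (f τ)))
      (ball τ (-v - τ.im)) := by
  have hfd : DifferentiableOn ℂ f (ball τ (-v - τ.im)) := h.fd.mono fun z hz => GeoA_ball hz
  refine (hfd.sub_const _).div (hfd.sub_const _) fun z hz => ?_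
  exact GeoA_ne (GeoA_im_neg h (GeoA_ball hz)) (GeoA_im_neg h hτ)

private theorem GeoA_maps (h : Sl q C γ v f) {τ : ℂ} (hτ : τ ∈ Hp v) :
    MapsTo (fun z => (f z - f τ) / (f z - (starRingEnd ℂ) (f τ))) (ball τ (-v - τ.im))
      (closedBall ((fun z => (f z - f τ) / (f z - (starRingEnd ℂ) (f τ))) τ) 1) := by
  intro z hz
  refine ball_subset_closedBall ?_
  have h1 : (fun z => (f z - f τ) / (f z - (starRingEnd ℂ) (f τ))) τ = 0 := by
    show (f τ - f τ) / (f τ - (starRingEnd ℂ) (f τ)) = 0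
    rw [sub_self, zero_div]
  rw [h1, mem_ball_zero_iff]
  exact GeoA_lt (GeoA_im_neg h (GeoA_ball hz)) (GeoA_im_neg h hτ)

private theorem GeoA_conj {w : ℂ} (hw : w.im < 0) :
    ‖w - (starRingEnd ℂ) w‖ = 2 * -w.im := by
  rw [Complex.sub_conj, norm_mul, Complex.norm_I, mul_one, Complex.norm_real, Real.norm_eq_abs,
    abs_of_neg (by linarith)]
  ring

/-- Pick (with the constant 2): `|f'| ≤ 2 depth / distance`.

PROOF. `f` maps the disc `ball τ s`, `s = - v - Im τ` (contained in `Hp v`), into the lower half plane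
(`h.dep`: `- Im f ≥ distance > 0`). Cayley transform `g (z) = (f (τ + s z) - f τ) / (f (τ + s z) -
conj (f τ))` maps the unit disc into itself (`|w - w0| < |w - conj w0|` for `Im w, Im w0 < 0`), `g 0 = 0`,
so `|g' 0| ≤ 1` (Schwarz: `Complex.norm_deriv_le_one_of_mapsTo_ball` or
`Complex.norm_deriv_le_div_of_mapsTo_ball`), and `g' 0 = s f' τ / (f τ - conj (f τ))`,
`|f τ - conj (f τ)| = 2 (- Im f τ)`. (A lemma of this kind may exist: `T/SchA.lean`, `N5`, `PB`.) -/
theorem deriv_le (h : Sl q C γ v f) {τ : ℂ} (hτ : τ ∈ Hp v) :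
    ‖deriv f τ‖ ≤ 2 * (-(f τ).im) / (-v - τ.im) := by
  have hs : 0 < -v - τ.im := by
    have h2 : τ.im < -v := hτ
    linarith
  have hw := GeoA_im_neg h hτ
  have hne := GeoA_ne hw hw
  have h1 := Complex.norm_deriv_le_div_of_mapsTo_ball (GeoA_diff h hτ) (GeoA_maps h hτ) hs
  have hfd : HasDerivAt f (deriv f τ) τ := by
    have h2 : IsOpen (Hp v) := isOpen_lt Complex.continuous_im continuous_const
    exact (h.fd.differentiableAt (h2.mem_nhds hτ)).hasDerivAt
  have h3 : HasDerivAt (fun z => (f z - f τ) / (f z - (starRingEnd ℂ) (f τ)))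
      (deriv f τ / (f τ - (starRingEnd ℂ) (f τ))) τ := by
    have h4 := (hfd.sub_const (f τ)).fun_div (hfd.sub_const ((starRingEnd ℂ) (f τ))) hne
    have h5 : (deriv f τ * (f τ - (starRingEnd ℂ) (f τ)) - (f τ - f τ) * deriv f τ) /
        (f τ - (starRingEnd ℂ) (f τ)) ^ 2 = deriv f τ / (f τ - (starRingEnd ℂ) (f τ)) := by
      rw [sub_self, zero_mul, sub_zero]
      field_simp
    rw [h5] at h4
    exact h4
  rw [h3.deriv, norm_div, GeoA_conj hw, div_le_div_iff₀ (by linarith) hs] at h1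
  rw [le_div_iff₀ hs]
  linarith

/-- Harnack along a segment.

PROOF. Let `s = - v - Im τ > 0`, `P = - Im f`. The segment `z_t = τ + t (τ' - τ)`, `t ∈ [0,1]`, has
distance `≥ (1 - κ) s ≥ 7 s / 8` to the line (in `Hp v`). By `deriv_le` the function `t ↦ log P (z_t)`
(`P > 0`) has derivative `≤ κ s * 2 / (7 s / 8) ≤ 16 κ / 7` in absolute value, so
`|log P τ' - log P τ| ≤ 16 κ / 7 ≤ 2 / 7 < log 2`: the two bounds. Then
`|f τ' - f τ| ≤ ∫ |f'| ≤ κ s * 2 * exp (2/7) P τ / (7 s / 8) ≤ 4 κ P τ` (`exp (2/7) ≤ 1.34`,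
`16 / 7 * 1.34 = 3.07 < 4`). [Instead of the logarithm: the mean value inequality for
`t ↦ f (z_t)` with a Groenwall argument; or Harnack's inequality directly:
`|f τ' - f τ| ≤ 2 κ/(1-κ) P τ` from the Schwarz lemma for the Cayley transform `g` of `deriv_le`:
`|g (z)| ≤ |z|` at `z = (τ' - τ) / s`, `|z| ≤ κ`; `f τ' = (f τ - g conj (f τ)) / (1 - g)`, so
`f τ' - f τ = g (f τ - conj f τ) / (1 - g)`, norm `≤ 2 κ P / (1 - κ) ≤ (16/7) κ P`. This gives all the
statements at once: `≤ 4 κ P` and `|P τ' - P τ| ≤ (16/7)(1/8) P = 2 P / 7`.] -/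
theorem near (h : Sl q C γ v f) {κ : ℝ} (hκ0 : 0 ≤ κ) (hκ : κ ≤ 1 / 8) {τ τ' : ℂ} (hτ : τ ∈ Hp v)
    (hd : ‖τ' - τ‖ ≤ κ * (-v - τ.im)) :
    τ' ∈ Hp v ∧ -(f τ').im ≤ 2 * (-(f τ).im) ∧ (-(f τ).im) / 2 ≤ -(f τ').im ∧
      ‖f τ' - f τ‖ ≤ 4 * κ * (-(f τ).im) := by
  have hs : 0 < -v - τ.im := by
    have h2 : τ.im < -v := hτ
    linarith
  have hw := GeoA_im_neg h hτ
  have hmem : τ' ∈ ball τ (-v - τ.im) := by
    rw [mem_ball, dist_eq_norm]
    nlinarith
  have hτ' := GeoA_ball hmem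
  have hw' := GeoA_im_neg h hτ'
  have h1 := Complex.dist_le_div_mul_dist_of_mapsTo_ball (GeoA_diff h hτ) (GeoA_maps h hτ) hmem
  have h2 : ‖(f τ' - f τ) / (f τ' - (starRingEnd ℂ) (f τ))‖ ≤ κ := by
    rw [dist_eq_norm, dist_eq_norm] at h1
    have h3 : (fun z => (f z - f τ) / (f z - (starRingEnd ℂ) (f τ))) τ' -
        (fun z => (f z - f τ) / (f z - (starRingEnd ℂ) (f τ))) τ =
        (f τ' - f τ) / (f τ' - (starRingEnd ℂ) (f τ)) := by
      show (f τ' - f τ) / (f τ' - (starRingEnd ℂ) (f τ)) -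
        (f τ - f τ) / (f τ - (starRingEnd ℂ) (f τ)) = _
      rw [sub_self, zero_div, sub_zero]
    rw [h3] at h1
    refine h1.trans ?_
    rw [div_mul_eq_mul_div, one_mul, div_le_iff₀ hs]
    exact hd
  have hne := GeoA_ne hw' hw
  rw [norm_div, div_le_iff₀ (norm_pos_iff.2 hne)] at h2
  have h3 : ‖f τ' - (starRingEnd ℂ) (f τ)‖ ≤ ‖f τ' - f τ‖ + 2 * -(f τ).im := by
    rw [← GeoA_conj hw]
    have h4 : f τ' - (starRingEnd ℂ) (f τ) = (f τ' - f τ) + (f τ - (starRingEnd ℂ) (f τ)) := by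
      ring
    rw [h4]
    exact norm_add_le _ _
  obtain ⟨D, hD⟩ : ∃ D, D = ‖f τ' - f τ‖ := ⟨_, rfl⟩
  obtain ⟨P, hP⟩ : ∃ P, P = -(f τ).im := ⟨_, rfl⟩
  have hP0 : 0 < P := by linarith
  have hD0 : 0 ≤ D := by rw [hD]; exact norm_nonneg _
  rw [← hD, ← hP] at h3
  rw [← hD] at h2
  have h5 : D ≤ κ * (D + 2 * P) := h2.trans (mul_le_mul_of_nonneg_left h3 hκ0)
  have h6 : κ * D ≤ 1 / 8 * D := mul_le_mul_of_nonneg_right hκ hD0
  have h7 : κ * P ≤ 1 / 8 * P := mul_le_mul_of_nonneg_right hκ hP0.le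
  have h8 : 0 ≤ κ * P := mul_nonneg hκ0 hP0.le
  have h9 : D ≤ 16 / 7 * (κ * P) := by linarith
  have h10 : |(f τ' - f τ).im| ≤ D := by rw [hD]; exact Complex.abs_im_le_norm _
  rw [Complex.sub_im, abs_le] at h10
  refine ⟨hτ', ?_, ?_, ?_⟩
  · linarith [h10.1]
  · linarith [h10.2]
  · rw [← hD, ← hP]
    linarith

/-- the derivative of `s ↦ f (tp v x s)` is `- I f'` -/
theorem hasDerivAt_tp (h : Sl q C γ v f) (x : ℝ) {s : ℝ} (hs : 0 < s) :
    HasDerivAt (fun r : ℝ => f (tp v x r)) (-I * deriv f (tp v x s)) s := by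
  have h1 : HasDerivAt (fun r : ℝ => ((v + r : ℝ) : ℂ)) 1 s := by
    simpa using ((hasDerivAt_id s).const_add v).ofReal_comp
  have h2 : HasDerivAt (fun r : ℝ => tp v x r) (-I) s := by
    have h3 := (h1.mul_const I).const_sub (x : ℂ)
    rw [one_mul] at h3
    exact h3
  have h4 : HasDerivAt f (deriv f (tp v x s)) (tp v x s) := by
    have h5 : IsOpen (Hp v) := isOpen_lt Complex.continuous_im continuous_const
    exact (h.fd.differentiableAt (h5.mem_nhds (tp_mem hs))).hasDerivAt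
  have h6 := HasDerivAt.comp (h₂ := f) (h := fun r : ℝ => tp v x r) s h4 h2
  rw [mul_comm] at h6
  exact h6

/-- `s ^ 2 * depth` is nondecreasing.

PROOF. `dpt v f x` has the derivative `Re (f' (tp v x s))` (`hasDerivAt_tp`, `Im (- I z) = - Re z`),
`≥ - 2 dpt / s` (`deriv_le`; `- v - Im (tp v x s) = s`), so `(s² dpt)' ≥ 2 s dpt - 2 s dpt = 0`:
`monotoneOn_of_deriv_nonneg` on `Ioi 0`. -/
theorem sq_dpt_mono (h : Sl q C γ v f) (x : ℝ) :
    MonotoneOn (fun s => s ^ 2 * dpt v f x s) (Ioi 0) := by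
  have hder : ∀ s : ℝ, 0 < s → HasDerivAt (fun s => s ^ 2 * dpt v f x s)
      (2 * s * dpt v f x s + s ^ 2 * (deriv f (tp v x s)).re) s := by
    intro s hs
    have h1 := hasDerivAt_tp h x hs
    have h2 : HasDerivAt (fun r : ℝ => (f (tp v x r)).im) ((-I * deriv f (tp v x s)).im) s :=
      Complex.imCLM.hasFDerivAt.comp_hasDerivAt s h1
    have h3 : HasDerivAt (dpt v f x) ((deriv f (tp v x s)).re) s := by
      have h4 := h2.neg
      have h5 : -(-I * deriv f (tp v x s)).im = (deriv f (tp v x s)).re := by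
        simp
      rw [h5] at h4
      exact h4
    have h6 := (hasDerivAt_pow 2 s).mul h3
    have h7 : (2 : ℕ) * s ^ (2 - 1) * dpt v f x s + s ^ 2 * (deriv f (tp v x s)).re =
        2 * s * dpt v f x s + s ^ 2 * (deriv f (tp v x s)).re := by
      norm_num
    rw [h7] at h6
    exact h6
  refine monotoneOn_of_deriv_nonneg (convex_Ioi 0) ?_ ?_ ?_
  · exact fun s hs => (hder s hs).continuousAt.continuousWithinAt
  · rw [interior_Ioi]
    exact fun s hs => (hder s hs).differentiableAt.differentiableWithinAt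
  · rw [interior_Ioi]
    intro s hs
    have hs0 : 0 < s := hs
    rw [(hder s hs).deriv]
    have h1 := deriv_le h (tp_mem (x := x) (v := v) hs0)
    have h2 : -v - (tp v x s).im = s := by
      rw [tp_im]
      ring
    rw [h2, le_div_iff₀ hs0] at h1
    have h3 := (abs_le.1 (Complex.abs_re_le_norm (deriv f (tp v x s)))).1
    have h4 : dpt v f x s = -(f (tp v x s)).im := rfl
    rw [← h4] at h1
    have h5 : s ^ 2 * (deriv f (tp v x s)).re ≥ -(s * (‖deriv f (tp v x s)‖ * s)) := by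
      have h6 : s ^ 2 * (-‖deriv f (tp v x s)‖) ≤ s ^ 2 * (deriv f (tp v x s)).re :=
        mul_le_mul_of_nonneg_left h3 (by positivity)
      have h7 : s ^ 2 * (-‖deriv f (tp v x s)‖) = -(s * (‖deriv f (tp v x s)‖ * s)) := by ring
      linarith
    have h8 : s * (‖deriv f (tp v x s)‖ * s) ≤ s * (2 * dpt v f x s) :=
      mul_le_mul_of_nonneg_left h1 hs0.le
    have h9 : s * (2 * dpt v f x s) = 2 * s * dpt v f x s := by ring
    linarith

end Pool.Agent.MP_ae5b4e_an_PK
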