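import Pool.Agent.Lib.MP_ae5b4e_an_PK.EA
import Pool.Agent.Lib.MP_ae5b4e_an_PK.GeoA
import Pool.Agent.Lib.MP_ae5b4e_an_T.T3Path

/-!
# POR (iii), N2, type I, PK, block EL (entrance)
-/

noncomputable section

namespace Pool.Agent.MP_ae5b4e_an_PK

open Complex Set Filter Topology Metric
open Pool.Agent.MP_ae5b4e_an_WB
open Pool.Agent.MP_ae5b4e_an_WD
open Pool.Agent.MP_ae5b4e_an_T
open Pool.Agent.MP_ae5b4e_an_M (S1 C1f Gf)

variable {q : ℂ → ℂ} {C γ v : ℝ} {f : ℂ → ℂ}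

/-- In the strip `|Re y| < π / 2` a small `G y` forces `y` near `0`, where `y / G y` is near `1`.

PROOF. `WD.im_bound_of_re_le (R := π/2) (c := ‖tipc‖ / 2)`: `|Im y| ≤ M` if `‖G y‖² ≤ ‖tipc‖ / 2`. `y / G y =
exp (-1 + y cot y) y / sin y → 1` for `y → 0`, `y ≠ 0` (`y cot y → 1`, `sin y / y → 1`; or with
`M.S1`, `M.C1f`, continuous, `S1 0 = C1f 0 = 1`: `G y = y S1 (y²) exp (1 - C1f (y²) / S1 (y²))`): there is `ρ` with
`Re (y / G y) ≥ 0` for `0 < |y| < ρ`. On the compact set `|Re y| ≤ π/2`, `|Im y| ≤ M`, `ρ ≤ |y|` the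
function `‖G‖` is continuous and positive (`sin y ≠ 0`), so `≥ ε1 > 0`. (`y = 0` gives `sin y = 0`.) -/
theorem strip0 : ∃ ε : ℝ, 0 < ε ∧ ε ≤ 1 ∧ ∀ y : ℂ, |y.re| < Real.pi / 2 → sin y ≠ 0 → ‖G y‖ ≤ ε →
    0 ≤ (y / G y).re := by
  have htip : 3 / 4 ≤ ‖tipc‖ := by
    have h1 := Real.add_one_le_exp 2
    unfold tipc
    rw [norm_neg, norm_real, Real.norm_of_nonneg (by positivity)]
    linarith
  obtain ⟨M, hM⟩ := im_bound_of_re_le (Real.pi / 2) (c := 1 / 2) (by norm_num)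
  -- near `0`
  have hnear : ∀ᶠ y : ℂ in 𝓝 0, sin y ≠ 0 → 0 ≤ (y / G y).re := by
    have h1 : ∀ᶠ y : ℂ in 𝓝 0 ⊓ 𝓟 {y | sin y ≠ 0}, ‖G y / y - 1‖ < 1 / 2 := by
      have h2 := (tendsto_iff_norm_sub_tendsto_zero.1 G_div_tendsto).eventually
        (Iio_mem_nhds (by norm_num : (0 : ℝ) < 1 / 2))
      exact h2
    rw [eventually_inf_principal] at h1
    filter_upwards [h1] with y hy hs
    have h2 := hy hs
    have h3 := (abs_le.1 (Complex.abs_re_le_norm (G y / y - 1))).1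
    rw [Complex.sub_re, Complex.one_re] at h3
    rw [← inv_div, Complex.inv_re]
    exact div_nonneg (by linarith) (Complex.normSq_nonneg _)
  obtain ⟨ρ, hρ, hρ2⟩ := Metric.eventually_nhds_iff.1 hnear
  -- the compact set
  have hK : IsCompact ({y : ℂ | |y.re| ≤ Real.pi / 2 ∧ |y.im| ≤ M ∧ ρ ≤ ‖y‖}) := by
    refine (isCompact_closedBall (0 : ℂ) (Real.pi / 2 + |M|)).of_isClosed_subset ?_ ?_
    · refine IsClosed.inter ?_ (IsClosed.inter ?_ ?_)
      · exact isClosed_le (Complex.continuous_re.abs) continuous_const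
      · exact isClosed_le (Complex.continuous_im.abs) continuous_const
      · exact isClosed_le continuous_const continuous_norm
    · rintro y ⟨h1, h2, -⟩
      rw [mem_closedBall_zero_iff]
      have h3 := Complex.norm_le_abs_re_add_abs_im y
      have h4 := le_abs_self M
      linarith
  have hsin : ∀ y ∈ {y : ℂ | |y.re| ≤ Real.pi / 2 ∧ |y.im| ≤ M ∧ ρ ≤ ‖y‖}, sin y ≠ 0 := by
    rintro y ⟨h1, -, h3⟩ h0
    obtain ⟨k, hk⟩ := Complex.sin_eq_zero_iff.1 h0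
    have hpi := Real.pi_pos
    have h4 : y.re = k * Real.pi := by
      rw [hk]
      simp
    have h5 : k = 0 := by
      rw [h4, abs_mul, abs_of_pos hpi] at h1
      have h6 : |(k : ℝ)| < 1 := by
        by_contra h7
        rw [not_lt] at h7
        nlinarith
      have h8 : |k| < 1 := by exact_mod_cast h6
      exact Int.abs_lt_one_iff.1 h8
    rw [hk, h5] at h3
    simp at h3
    linarith
  have hGc : ContinuousOn (fun y => (G y)⁻¹)
      {y : ℂ | |y.re| ≤ Real.pi / 2 ∧ |y.im| ≤ M ∧ ρ ≤ ‖y‖} := by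
    have h1 : ContinuousOn G {y : ℂ | |y.re| ≤ Real.pi / 2 ∧ |y.im| ≤ M ∧ ρ ≤ ‖y‖} := by
      unfold G
      refine Complex.continuous_sin.continuousOn.mul (ContinuousOn.cexp ?_)
      exact continuousOn_const.sub (continuousOn_id.mul
        (Complex.continuous_cos.continuousOn.div Complex.continuous_sin.continuousOn hsin))
    refine h1.inv₀ fun y hy => ?_
    unfold G
    exact mul_ne_zero (hsin y hy) (exp_ne_zero _)
  obtain ⟨B, hB⟩ := hK.exists_bound_of_continuousOn hGc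
  have hB0 : 0 < |B| + 1 := by positivity
  refine ⟨min (1 / 2) (1 / (|B| + 1)), lt_min (by norm_num) (by positivity),
    (min_le_left _ _).trans (by norm_num), fun y hre hs hG => ?_⟩
  have hG1 : ‖G y‖ ≤ 1 / 2 := hG.trans (min_le_left _ _)
  have hG2 : ‖G y‖ ≤ 1 / (|B| + 1) := hG.trans (min_le_right _ _)
  by_cases hy : ‖y‖ < ρ
  · exact hρ2 (by rw [dist_zero_right]; exact hy) hs
  exfalso
  rw [not_lt] at hy
  have him : |y.im| ≤ M := by
    refine hM y hre.le ?_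
    have h1 : ‖tipc‖ - ‖G y ^ 2‖ ≤ ‖G y ^ 2 - tipc‖ := by
      rw [norm_sub_rev]
      exact norm_sub_norm_le _ _
    have h2 : ‖G y ^ 2‖ ≤ 1 / 4 := by
      rw [norm_pow]
      nlinarith [norm_nonneg (G y)]
    linarith
  have h3 := hB y ⟨hre.le, him, hy⟩
  have hG0 : G y ≠ 0 := by
    unfold G
    exact mul_ne_zero hs (exp_ne_zero _)
  have hGn : 0 < ‖G y‖ := norm_pos_iff.2 hG0
  rw [norm_inv, inv_le_iff_one_le_mul₀ hGn] at h3
  have h4 : B * ‖G y‖ ≤ |B| * (1 / (|B| + 1)) :=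
    mul_le_mul (le_abs_self B) hG2 hGn.le (abs_nonneg B)
  have h5 : |B| * (1 / (|B| + 1)) < 1 := by
    rw [mul_one_div, div_lt_one hB0]
    linarith
  linarith

/-- PROOF. `dpt v f x` has the derivative `Re (f' (tp v x s))` on `[σ, a]` (`hasDerivAt_tp`,
`Im (- I z) = - Re z`). If `q (f τ) = 0`: `h.gf` with `S1 0 = C1f 0 = 1` gives `γ f' = γ`, `f' = 1`. Otherwise
`y` with `y² = X`: `T.y_spec`: `f' = y / G y`, `sin y ≠ 0`, `‖G y‖² = ‖γ² q‖ ≤ ε²`, `|Re y| = ax X < π/2`: `hε`.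
So `dpt` is monotone on `[σ, a]`. -/
theorem mono_strip0 (h : Sl q C γ v f) {ε : ℝ} (hε0 : 0 < ε)
    (hε : ∀ y : ℂ, |y.re| < Real.pi / 2 → sin y ≠ 0 → ‖G y‖ ≤ ε → 0 ≤ (y / G y).re) {x σ a : ℝ}
    (hσ : 0 < σ) (hσa : σ ≤ a)
    (hs : ∀ s ∈ Icc σ a, ‖(γ : ℂ) ^ 2 * q (f (tp v x s))‖ ≤ ε ^ 2 ∧
      ax (Xf q γ f (tp v x s)) < Real.pi / 2) : dpt v f x σ ≤ dpt v f x a := by
  have hder : ∀ s : ℝ, 0 < s → HasDerivAt (dpt v f x) ((deriv f (tp v x s)).re) s := by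
    intro s hs
    have h1 := hasDerivAt_tp h x hs
    have h2 : HasDerivAt (fun r : ℝ => (f (tp v x r)).im) ((-I * deriv f (tp v x s)).im) s :=
      Complex.imCLM.hasFDerivAt.comp_hasDerivAt s h1
    have h4 := h2.neg
    have h5 : -(-I * deriv f (tp v x s)).im = (deriv f (tp v x s)).re := by
      simp
    rw [h5] at h4
    exact h4
  have hpos : ∀ s ∈ Icc σ a, 0 ≤ (deriv f (tp v x s)).re := by
    intro s hsm
    have hs0 : 0 < s := hσ.trans_le hsm.1
    obtain ⟨hq1, hax⟩ := hs s hsm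
    have hγ : (γ : ℂ) ≠ 0 := by exact_mod_cast h.γ_pos.ne'
    by_cases hq : q (f (tp v x s)) = 0
    · have h1 := h.gf _ (tp_mem (x := x) (v := v) hs0)
      unfold Gf at h1
      rw [hq, zero_mul, Pool.Agent.MP_ae5b4e_an_M.S1_zero,
        Pool.Agent.MP_ae5b4e_an_M.C1f_zero, div_one, sub_self, Complex.exp_zero, mul_one,
        mul_one] at h1
      have h2 : deriv f (tp v x s) = 1 := by
        have h3 : (γ : ℂ) * deriv f (tp v x s) = γ * 1 := by rw [h1, mul_one]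
        exact mul_left_cancel₀ hγ h3
      rw [h2, Complex.one_re]
      exact zero_le_one
    · obtain ⟨y, hy⟩ := IsAlgClosed.exists_pow_nat_eq (Xf q γ f (tp v x s)) (n := 2) two_pos
      obtain ⟨h1, h2, h3⟩ := y_spec h (tp_mem hs0) hq hy
      rw [ax_eq hy] at hax
      rw [h3]
      refine hε y hax h1 ?_
      rw [← h2, norm_pow] at hq1
      exact le_of_sq_le_sq hq1 hε0.le
  have hmono : MonotoneOn (dpt v f x) (Icc σ a) := by
    refine monotoneOn_of_deriv_nonneg (convex_Icc σ a) ?_ ?_ ?_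
    · exact fun s hs => (hder s (hσ.trans_le hs.1)).continuousAt.continuousWithinAt
    · rw [interior_Icc]
      exact fun s hs => (hder s (hσ.trans hs.1)).differentiableAt.differentiableWithinAt
    · rw [interior_Icc]
      intro s hs
      rw [(hder s (hσ.trans hs.1)).deriv]
      exact hpos s ⟨hs.1.le, hs.2.le⟩
  exact hmono ⟨le_rfl, hσa⟩ ⟨hσa, le_rfl⟩ hσa

end Pool.Agent.MP_ae5b4e_an_PK
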