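import Pool.Agent.Lib.MP_ae5b4e_an_PK.Defs
import Pool.Agent.Lib.MP_ae5b4e_an_WD.AV

/-!
# POR (iii), N2, type I, PK, block EL (entrance)
-/

noncomputable section

namespace Pool.Agent.MP_ae5b4e_an_PK

open Complex Set Filter Topology Metric
open Pool.Agent.MP_ae5b4e_an_WB
open Pool.Agent.MP_ae5b4e_an_WD
open Pool.Agent.MP_ae5b4e_an_T
open Pool.Agent.MP_ae5b4e_an_M (S1 C1f Gf)

/-- In the strips `1 ≤ k ≤ K` a small `G y` forces `y` near `k π`.

PROOF. `WD.im_bound_of_re_le (R := (K + 1) π) (c := ‖tipc‖ / 2)`: `|Im y| ≤ M` if `‖G y‖² ≤ ‖tipc‖ / 2`. For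
every `k` the set `|Re y - k π| ≤ π / 2`, `|Im y| ≤ M`, `ρ ≤ ‖y - k π‖` is compact and `sin y ≠ 0` on it, so
`‖G‖ = ‖sin y‖ ‖exp (1 - y cot y)‖` is continuous and `≥ ε_k > 0`; `ε` = half the minimum of the `ε_k`,
`k ≤ K`, and of `√(‖tipc‖ / 2)`. -/
theorem near_kpi (K : ℕ) {ρ : ℝ} (hρ : 0 < ρ) : ∃ ε : ℝ, 0 < ε ∧ ε ≤ 1 ∧ ∀ k : ℕ, 1 ≤ k → k ≤ K →
    ∀ y : ℂ, |y.re - k * Real.pi| < Real.pi / 2 → ‖G y‖ ≤ ε → ‖y - k * Real.pi‖ < ρ := by
  have hpi := Real.pi_pos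
  have htip : 0 < ‖tipc‖ := by
    unfold tipc
    rw [norm_neg, norm_real, Real.norm_eq_abs, abs_of_pos (by positivity)]
    positivity
  obtain ⟨M, hM⟩ := im_bound_of_re_le ((K + 1) * Real.pi) (c := ‖tipc‖ / 2) (by positivity)
  -- the compact set
  set ρ' : ℝ := min ρ 1 with hρ'
  have hρ0 : 0 < ρ' := lt_min hρ one_pos
  set S : Set ℂ := (Icc (Real.pi / 2) ((K + 1) * Real.pi) ×ℂ Icc (-M) M) ∩
    {y : ℂ | ∀ j : ℕ, ρ' ≤ ‖y - j * Real.pi‖} with hS
  have hSc : IsCompact S := by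
    refine (isCompact_Icc.reProdIm isCompact_Icc).inter_right ?_
    have : {y : ℂ | ∀ j : ℕ, ρ' ≤ ‖y - j * Real.pi‖} =
        ⋂ j : ℕ, {y : ℂ | ρ' ≤ ‖y - j * Real.pi‖} := by
      ext y
      simp
    rw [this]
    exact isClosed_iInter fun j => isClosed_le continuous_const (by fun_prop)
  have hsin : ∀ y ∈ S, sin y ≠ 0 := by
    rintro y ⟨hy1, hy2⟩ h0
    obtain ⟨m, hm⟩ := Complex.sin_eq_zero_iff.1 h0
    have hre : y.re = m * Real.pi := by
      rw [hm]
      simp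
    have h1 : Real.pi / 2 ≤ y.re := hy1.1.1
    have hm0 : (0 : ℤ) ≤ m := by
      by_contra hneg
      have h2 : (m : ℝ) ≤ -1 := by
        have : m ≤ -1 := by omega
        exact_mod_cast this
      nlinarith
    have h2 := hy2 m.toNat
    have h3 : ((m.toNat : ℕ) : ℂ) = (m : ℂ) := by
      have h4 : ((m.toNat : ℕ) : ℤ) = m := Int.toNat_of_nonneg hm0
      exact_mod_cast congrArg (fun z : ℤ => (z : ℂ)) h4
    rw [h3, hm, sub_self, norm_zero] at h2
    linarith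
  have hcont : ContinuousOn (fun y => ‖G y‖) S := by
    refine ContinuousOn.norm ?_
    unfold G
    exact (continuous_sin.continuousOn).mul (continuous_exp.comp_continuousOn
      (continuousOn_const.sub (continuousOn_id.mul
        (continuous_cos.continuousOn.div continuous_sin.continuousOn hsin))))
  have hG0 : ∀ y ∈ S, 0 < ‖G y‖ := by
    intro y hy
    rw [norm_pos_iff]
    unfold G
    exact mul_ne_zero (hsin y hy) (Complex.exp_ne_zero _)
  obtain ⟨ε₁, hε₁, hε₂⟩ : ∃ ε₁ : ℝ, 0 < ε₁ ∧ ∀ y ∈ S, ε₁ < ‖G y‖ := by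
    rcases S.eq_empty_or_nonempty with he | hne
    · exact ⟨1, one_pos, fun y hy => by simp [he] at hy⟩
    · obtain ⟨y₀, hy₀, hmin⟩ := hSc.exists_isMinOn hne hcont
      refine ⟨‖G y₀‖ / 2, by have := hG0 y₀ hy₀; positivity, fun y hy => ?_⟩
      have h1 : ‖G y₀‖ ≤ ‖G y‖ := hmin hy
      have h2 := hG0 y₀ hy₀
      linarith
  refine ⟨min (min ε₁ 1) (‖tipc‖ / 2), by positivity, (min_le_left _ _).trans (min_le_right _ _),
    fun k hk1 hkK y hy hGy => ?_⟩
  by_contra hcon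
  push Not at hcon
  have hG1 : ‖G y‖ ≤ ε₁ := hGy.trans ((min_le_left _ _).trans (min_le_left _ _))
  have hG2 : ‖G y‖ ≤ 1 := hGy.trans ((min_le_left _ _).trans (min_le_right _ _))
  have hG3 : ‖G y‖ ≤ ‖tipc‖ / 2 := hGy.trans (min_le_right _ _)
  have hk1' : (1 : ℝ) ≤ k := by exact_mod_cast hk1
  have hkK' : (k : ℝ) ≤ K := by exact_mod_cast hkK
  obtain ⟨ha, hb⟩ := abs_lt.1 hy
  have hre1 : Real.pi / 2 ≤ y.re := by nlinarith
  have hre2 : y.re ≤ (K + 1) * Real.pi := by nlinarith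
  have him : |y.im| ≤ M := by
    refine hM y ?_ ?_
    · rw [abs_of_nonneg (by linarith)]
      exact hre2
    · have h1 : ‖tipc‖ - ‖G y ^ 2‖ ≤ ‖G y ^ 2 - tipc‖ := by
        rw [norm_sub_rev]
        exact norm_sub_norm_le _ _
      have h2 : ‖G y ^ 2‖ ≤ ‖tipc‖ / 2 := by
        rw [norm_pow]
        have h3 := norm_nonneg (G y)
        nlinarith
      linarith
  have hyS : y ∈ S := by
    refine ⟨⟨⟨hre1, hre2⟩, abs_le.1 him⟩, fun j => ?_⟩
    by_cases hj : j = k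
    · rw [hj]
      exact (min_le_left _ _).trans hcon
    · have h1 : |y.re - j * Real.pi| ≤ ‖y - j * Real.pi‖ := by
        have h2 := Complex.abs_re_le_norm (y - j * Real.pi)
        simpa using h2
      have h2 : Real.pi / 2 ≤ |y.re - j * Real.pi| := by
        rcases lt_or_gt_of_ne hj with hjk | hjk
        · have h3 : (j : ℝ) + 1 ≤ k := by exact_mod_cast hjk
          refine le_trans ?_ (le_abs_self _)
          nlinarith
        · have h3 : (k : ℝ) + 1 ≤ j := by exact_mod_cast hjk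
          refine le_trans ?_ (neg_le_abs _)
          nlinarith
      have h3 : (1 : ℝ) ≤ Real.pi / 2 := by linarith [Real.pi_gt_three]
      exact (min_le_right _ _).trans (h3.trans (h2.trans h1))
  exact absurd hG1 (not_le.2 (hε₂ y hyS))

end Pool.Agent.MP_ae5b4e_an_PK
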