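import Pool.Agent.Lib.MP_ae5b4e_an_WB.GB

/-!
# POR (iii), N2, type I, PK, block EL: the logarithm of `w` near `y = k π`
-/

noncomputable section

namespace Pool.Agent.MP_ae5b4e_an_PK

open Complex Set Filter Topology Metric
open Pool.Agent.MP_ae5b4e_an_WB

/-- `log (± w)` as a function of `e = y - k π` -/
def ome (k : ℕ) (e : ℂ) : ℂ := log (sin e) + 1 - (k * Real.pi + e) * (cos e / sin e)

private theorem EE_per (k : ℕ) (e : ℂ) : sin ((k : ℂ) * Real.pi + e) = (-1) ^ k * sin e ∧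
    cos ((k : ℂ) * Real.pi + e) = (-1) ^ k * cos e := by
  induction k with
  | zero => simp
  | succ n ih =>
    have h : (((n + 1 : ℕ) : ℂ) * Real.pi + e) = ((n : ℂ) * Real.pi + e) + Real.pi := by
      push_cast
      ring
    rw [h, Complex.sin_add_pi, Complex.cos_add_pi, ih.1, ih.2, pow_succ]
    constructor <;> ring

/-- PROOF. `sin (k π + e) = (-1)^k sin e`, `cos` the same, so `G (k π + e) = (-1)^k sin e exp (1 - (k π + e)
cos e / sin e)`; `exp (log (sin e)) = sin e`. -/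
theorem exp_ome {k : ℕ} {e : ℂ} (he : sin e ≠ 0) :
    exp (ome k e) = (-1) ^ k * G (k * Real.pi + e) ∧ exp (2 * ome k e) = G (k * Real.pi + e) ^ 2 := by
  have h1 : sin ((k : ℂ) * Real.pi + e) = (-1) ^ k * sin e := by
    exact (EE_per k e).1
  have h2 : cos ((k : ℂ) * Real.pi + e) = (-1) ^ k * cos e := by
    exact (EE_per k e).2
  have hk : ((-1 : ℂ) ^ k) ≠ 0 := pow_ne_zero _ (by norm_num)
  have hk2 : ((-1 : ℂ) ^ k) * (-1) ^ k = 1 := by
    rw [← pow_add, ← two_mul, pow_mul, neg_one_sq, one_pow]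
  have hG : G ((k : ℂ) * Real.pi + e) =
      (-1) ^ k * (sin e * exp (1 - ((k : ℂ) * Real.pi + e) * (cos e / sin e))) := by
    unfold G
    rw [h1, h2, mul_div_mul_left _ _ hk, mul_assoc]
  have h3 : exp (ome k e) = (-1) ^ k * G ((k : ℂ) * Real.pi + e) := by
    rw [hG, ← mul_assoc, hk2, one_mul]
    unfold ome
    rw [add_sub_assoc, exp_add, exp_log he]
  refine ⟨h3, ?_⟩
  have h4 : exp (2 * ome k e) = exp (ome k e) ^ 2 := by
    rw [← exp_nat_mul]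
    norm_num
  rw [h4, h3, mul_pow, ← pow_mul, mul_comm k 2, pow_mul, neg_one_sq, one_pow, one_mul]

/-- `Re ome = log ‖G‖` -/
theorem re_ome {k : ℕ} {e : ℂ} (he : sin e ≠ 0) :
    (ome k e).re = Real.log ‖G (k * Real.pi + e)‖ := by
  have h1 := congrArg norm (exp_ome (k := k) he).1
  rw [Complex.norm_exp, norm_mul, norm_pow, norm_neg, norm_one, one_pow, one_mul] at h1
  rw [← h1, Real.log_exp]

private theorem EE_sin {e : ℂ} (he : ‖e‖ ≤ 1 / 8) : ‖sin e - e‖ ≤ ‖e‖ / 100 := by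
  have h1 := Complex.sin_bound (x := e) (he.trans (by norm_num))
  have h2 : sin e - e = (sin e - (e - e ^ 3 / 6)) - e ^ 3 / 6 := by ring
  have h3 : ‖e ^ 3 / 6‖ = ‖e‖ ^ 3 / 6 := by
    rw [norm_div, norm_pow]
    norm_num
  rw [h2]
  refine (norm_sub_le _ _).trans ?_
  rw [h3]
  have h0 : 0 ≤ ‖e‖ := norm_nonneg e
  have h4 : ‖e‖ ^ 2 ≤ 1 / 64 := by nlinarith
  have h5 : ‖e‖ ^ 3 ≤ 1 / 64 * ‖e‖ := by nlinarith
  have h6 : ‖e‖ ^ 5 ≤ 1 / 64 * ‖e‖ := by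
    have : ‖e‖ ^ 5 = ‖e‖ ^ 2 * ‖e‖ ^ 3 := by ring
    rw [this]
    have h7 : 0 ≤ ‖e‖ ^ 3 := by positivity
    nlinarith
  linarith

private theorem EE_cos {e : ℂ} (he : ‖e‖ ≤ 1 / 8) : ‖cos e - 1‖ ≤ 1 / 64 := by
  have h1 := Complex.cos_bound (x := e) (he.trans (by norm_num))
  have h2 : cos e - 1 = (cos e - (1 - e ^ 2 / 2)) - e ^ 2 / 2 := by ring
  have h3 : ‖e ^ 2 / 2‖ = ‖e‖ ^ 2 / 2 := by
    rw [norm_div, norm_pow]
    norm_num
  rw [h2]
  refine (norm_sub_le _ _).trans ?_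
  rw [h3]
  have h0 : 0 ≤ ‖e‖ := norm_nonneg e
  have h4 : ‖e‖ ^ 2 ≤ 1 / 64 := by nlinarith
  have h5 : ‖e‖ ^ 4 ≤ 1 / 64 := by
    have : ‖e‖ ^ 4 = ‖e‖ ^ 2 * ‖e‖ ^ 2 := by ring
    rw [this]
    nlinarith
  linarith

private theorem EE_sin' {e : ℂ} (he : ‖e‖ ≤ 1 / 8) :
    99 / 100 * ‖e‖ ≤ ‖sin e‖ ∧ ‖sin e‖ ≤ 101 / 100 * ‖e‖ := by
  have h1 := EE_sin he
  have h2 : ‖e‖ ≤ ‖sin e‖ + ‖sin e - e‖ := by
    calc ‖e‖ = ‖sin e - (sin e - e)‖ := by rw [sub_sub_cancel]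
      _ ≤ _ := norm_sub_le _ _
  have h3 : ‖sin e‖ ≤ ‖e‖ + ‖sin e - e‖ := by
    calc ‖sin e‖ = ‖e + (sin e - e)‖ := by rw [add_sub_cancel]
      _ ≤ _ := norm_add_le _ _
  constructor <;> linarith

private theorem EE_cos' {e : ℂ} (he : ‖e‖ ≤ 1 / 8) :
    63 / 64 ≤ ‖cos e‖ ∧ ‖cos e‖ ≤ 65 / 64 ∧ 63 / 64 ≤ (cos e).re := by
  have h1 := EE_cos he
  have h2 : (1 : ℝ) ≤ ‖cos e‖ + ‖cos e - 1‖ := by
    calc (1 : ℝ) = ‖cos e - (cos e - 1)‖ := by rw [sub_sub_cancel, norm_one]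
      _ ≤ _ := norm_sub_le _ _
  have h3 : ‖cos e‖ ≤ 1 + ‖cos e - 1‖ := by
    calc ‖cos e‖ = ‖1 + (cos e - 1)‖ := by rw [add_sub_cancel]
      _ ≤ _ := (norm_add_le _ _).trans (by rw [norm_one])
  have h4 : |(cos e - 1).re| ≤ ‖cos e - 1‖ := Complex.abs_re_le_norm _
  rw [Complex.sub_re, Complex.one_re, abs_le] at h4
  refine ⟨by linarith, by linarith, by linarith⟩

/-- THE REGION. Near `e = 0` the condition `‖G‖ ≤ 1` keeps `e` away from the negative real axis,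
uniformly in `k ≥ 1`.

PROOF. Let `r = ‖sin e‖`, `c = cos e / sin e`. `‖G (k π + e)‖ = r exp (1 - Re ((k π + e) c)) ≤ 1` gives
`k π Re c ≥ 1 + log r - Re (e c)`; `‖e c‖ ≤ 1.1` for `‖e‖ < ρ` (`‖e‖ ≤ 1.05 ‖sin e‖`, `‖cos e‖ ≤ 1.04`), so
`k π Re c ≥ - (log (1/r) + 1)`, hence `Re c ≥ - (log (1/r) + 1)/π` (`k ≥ 1`), and `‖c‖ ≥ 0.9 / r`:
`Re c / ‖c‖ ≥ - r (log (1/r) + 1) / (0.9 π) ≥ - 1/4` if `r` is small (`r log (1/r) → 0`): the second statement.
`sin e = cos e / c`; `‖cos e - 1‖ ≤ 1/8`: if `sin e = - r ≤ 0` were real then `c = - cos e / r` has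
`Re c / ‖c‖ ≤ - 3/4`, contradiction. `c ∈ slitPlane` since `Re c ≥ - ‖c‖/4 > - ‖c‖`. -/
theorem ome_region : ∃ ρ : ℝ, 0 < ρ ∧ ρ ≤ 1 / 8 ∧ ∀ (k : ℕ) (e : ℂ), 1 ≤ k → 0 < ‖e‖ → ‖e‖ < ρ →
    ‖G (k * Real.pi + e)‖ ≤ 1 → sin e ∈ slitPlane ∧ (cos e / sin e) ∈ slitPlane ∧
      -(‖cos e / sin e‖ / 4) ≤ (cos e / sin e).re := by
  refine ⟨1 / 8, by norm_num, le_rfl, fun k e hk he0 he hG => ?_⟩
  have he' := he.le
  obtain ⟨s1, s2⟩ := EE_sin' he'
  obtain ⟨c1, c2, c3⟩ := EE_cos' he'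
  obtain ⟨r, hr⟩ : ∃ r : ℝ, r = ‖sin e‖ := ⟨_, rfl⟩
  rw [← hr] at s1 s2
  have hr0 : 0 < r := by linarith
  have hs0 : sin e ≠ 0 := by
    intro h
    rw [h, norm_zero] at hr
    exact hr0.ne' hr
  obtain ⟨c, hc⟩ : ∃ c : ℂ, c = cos e / sin e := ⟨_, rfl⟩
  rw [← hc]
  have hcn : ‖c‖ = ‖cos e‖ / r := by rw [hc, norm_div, hr]
  have hcr : 63 / 64 ≤ ‖c‖ * r := by
    rw [hcn, div_mul_cancel₀ _ hr0.ne']
    exact c1
  have hc0 : 0 < ‖c‖ := by
    by_contra h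
    have := mul_nonpos_of_nonpos_of_nonneg (not_lt.1 h) hr0.le
    linarith
  -- the inequality from `‖G‖ ≤ 1`
  have h1 : Real.log ‖G (k * Real.pi + e)‖ ≤ 0 :=
    Real.log_nonpos (norm_nonneg _) hG
  rw [← re_ome hs0] at h1
  have h2 : (ome k e).re = Real.log r + 1 - (((k : ℝ) * Real.pi) * c.re + (e * c).re) := by
    unfold ome
    rw [← hc, Complex.sub_re, Complex.add_re, Complex.log_re, ← hr, Complex.one_re, add_mul,
      Complex.add_re]
    congr 2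
    have : ((k : ℂ) * Real.pi) = (((k : ℝ) * Real.pi : ℝ) : ℂ) := by push_cast; rfl
    rw [this, Complex.re_ofReal_mul]
  have h3 : |(e * c).re| ≤ 11 / 10 := by
    refine (Complex.abs_re_le_norm _).trans ?_
    rw [norm_mul, hcn, ← mul_div_assoc, div_le_iff₀ hr0]
    have : ‖e‖ * ‖cos e‖ ≤ ‖e‖ * (65 / 64) := mul_le_mul_of_nonneg_left c2 (norm_nonneg _)
    linarith
  have h4 : -Real.log r ≤ 1 / (2 * r) := by
    have h5 := Real.log_le_sub_one_of_pos (show 0 < 1 / (2 * r) by positivity)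
    rw [one_div, Real.log_inv, Real.log_mul (by norm_num) hr0.ne'] at h5
    have h6 : Real.log 2 ≤ 1 := by
      have := Real.log_two_lt_d9
      linarith
    rw [one_div]
    linarith
  have hkp : 3 ≤ (k : ℝ) * Real.pi := by
    have h5 : (1 : ℝ) ≤ k := by exact_mod_cast hk
    have h6 := Real.pi_gt_three
    nlinarith
  have h7 : -(‖c‖ / 4) ≤ c.re := by
    rcases le_or_gt 0 c.re with h | h
    · exact (neg_nonpos.2 (by positivity)).trans h
    · have h8 : ((k : ℝ) * Real.pi) * c.re ≤ 3 * c.re := by nlinarith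
      have h9 := (abs_le.1 h3).2
      have h10 : -(1 / (2 * r)) - 1 / 10 ≤ 3 * c.re := by
        rw [h2] at h1
        linarith
      have h11 : (1 / (2 * r)) * r = 1 / 2 := by
        field_simp
      have h12 : (-(1 / (2 * r)) - 1 / 10) * r ≤ 3 * c.re * r :=
        mul_le_mul_of_nonneg_right h10 hr0.le
      have h13 : -(1 / 2) - r / 10 ≤ 3 * c.re * r := by
        have : (-(1 / (2 * r)) - 1 / 10) * r = -(1 / 2) - r / 10 := by
          rw [sub_mul, neg_mul, h11]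
          ring
        rwa [this] at h12
      have h14 : -(‖c‖ / 4) * r ≤ c.re * r := by linarith
      exact le_of_mul_le_mul_right h14 hr0
  refine ⟨?_, ?_, h7⟩
  · by_contra hn
    rw [Complex.mem_slitPlane_iff] at hn
    push Not at hn
    obtain ⟨hn1, hn2⟩ := hn
    have h8 : sin e = ((-r : ℝ) : ℂ) := by
      have h9 : (sin e).re = -r := by
        have h10 : ‖sin e‖ = |(sin e).re| := by
          have : sin e = (((sin e).re : ℝ) : ℂ) := Complex.ext rfl (by rw [hn2, Complex.ofReal_im])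
          rw [this, Complex.norm_real, Real.norm_eq_abs, Complex.ofReal_re]
        rw [← hr, abs_of_nonpos hn1] at h10
        linarith
      exact Complex.ext (by rw [h9, Complex.ofReal_re]) (by rw [hn2, Complex.ofReal_im])
    have h11 : cos e = ((-r : ℝ) : ℂ) * c := by
      rw [hc, ← h8, mul_div_cancel₀ _ hs0]
    have h12 : (cos e).re = -r * c.re := by
      rw [h11, Complex.re_ofReal_mul]
    have h13 : ‖c‖ * r = ‖cos e‖ := by
      rw [hcn, div_mul_cancel₀ _ hr0.ne']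
    nlinarith
  · rw [Complex.mem_slitPlane_iff]
    by_contra hn
    push Not at hn
    obtain ⟨hn1, hn2⟩ := hn
    have h10 : ‖c‖ = |c.re| := by
      have : c = ((c.re : ℝ) : ℂ) := Complex.ext rfl (by rw [hn2, Complex.ofReal_im])
      rw [this, Complex.norm_real, Real.norm_eq_abs, Complex.ofReal_re]
    rw [abs_of_nonpos hn1] at h10
    linarith

/-- PROOF. `Complex.log` differentiable on the slit plane; `sin e ≠ 0`. -/
theorem ome_diff {k : ℕ} {e : ℂ} (he : sin e ∈ slitPlane) : DifferentiableAt ℂ (ome k) e := by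
  have h0 : sin e ≠ 0 := slitPlane_ne_zero he
  have h1 : DifferentiableAt ℂ (fun z : ℂ => log (sin z)) e :=
    (differentiable_sin e).clog he
  have h2 : DifferentiableAt ℂ (fun z : ℂ => cos z / sin z) e :=
    (differentiable_cos e).div (differentiable_sin e) h0
  have h3 : DifferentiableAt ℂ (fun z : ℂ => (k * Real.pi + z) * (cos z / sin z)) e :=
    ((differentiableAt_const _).add differentiableAt_id).mul h2
  exact (h1.add (differentiableAt_const _)).sub h3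

/-- PROOF. `‖log z‖ ≤ |log ‖z‖| + π`; `‖e‖ / 2 ≤ ‖sin e‖ ≤ 2 ‖e‖`, `‖cos e‖ ≤ 2` for `‖e‖ ≤ 1/8`. -/
theorem ome_bound (k : ℕ) {ρ1 : ℝ} (hρ1 : 0 < ρ1) : ∃ B : ℝ, 0 < B ∧ ∀ j : ℕ, j ≤ k → ∀ e : ℂ,
    ρ1 ≤ ‖e‖ → ‖e‖ ≤ 1 / 8 → ‖ome j e‖ ≤ B := by
  refine ⟨|Real.log (ρ1 / 2)| + Real.pi + 1 + (k * Real.pi + 1) * (4 / ρ1), by positivity,
    fun j hj e he1 he2 => ?_⟩
  obtain ⟨s1, s2⟩ := EE_sin' he2
  obtain ⟨c1, c2, c3⟩ := EE_cos' he2
  have hs : ρ1 / 2 ≤ ‖sin e‖ := by linarith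
  have hs0 : 0 < ‖sin e‖ := by linarith
  have hs1 : ‖sin e‖ ≤ 1 := by linarith
  have h1 : ‖log (sin e)‖ ≤ |Real.log (ρ1 / 2)| + Real.pi := by
    refine (Complex.norm_le_abs_re_add_abs_im _).trans ?_
    rw [Complex.log_re, Complex.log_im]
    refine add_le_add ?_ (Complex.abs_arg_le_pi _)
    have h2 : Real.log ‖sin e‖ ≤ 0 := Real.log_nonpos hs0.le hs1
    have h3 : Real.log (ρ1 / 2) ≤ Real.log ‖sin e‖ := Real.log_le_log (by positivity) hs
    rw [abs_of_nonpos h2, abs_of_nonpos (h3.trans h2)]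
    linarith
  have h4 : ‖cos e / sin e‖ ≤ 4 / ρ1 := by
    rw [norm_div, div_le_div_iff₀ hs0 hρ1]
    have : ‖cos e‖ * ρ1 ≤ 2 * ρ1 := mul_le_mul_of_nonneg_right (c2.trans (by norm_num)) hρ1.le
    linarith
  have h5 : ‖(j : ℂ) * Real.pi + e‖ ≤ k * Real.pi + 1 := by
    refine (norm_add_le _ _).trans ?_
    rw [norm_mul, Complex.norm_natCast, Complex.norm_real, Real.norm_eq_abs,
      abs_of_pos Real.pi_pos]
    have h6 : (j : ℝ) ≤ k := by exact_mod_cast hj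
    have h7 := mul_le_mul_of_nonneg_right h6 Real.pi_pos.le
    linarith
  unfold ome
  refine (norm_sub_le _ _).trans (add_le_add ((norm_add_le _ _).trans ?_) ?_)
  · rw [norm_one]
    linarith
  · rw [norm_mul]
    exact mul_le_mul h5 h4 (norm_nonneg _) (by positivity)

end Pool.Agent.MP_ae5b4e_an_PK
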