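import Pool.Agent.Lib.MP_ae5b4e_an_PK.EE

/-!
# POR (iii), N2, type I, PK, block EL: injectivity of the logarithm of `w` near `y = k π`
-/

noncomputable section

namespace Pool.Agent.MP_ae5b4e_an_PK

open Complex Set Filter Topology Metric
open Pool.Agent.MP_ae5b4e_an_WB

private theorem EEi_cos {y : ℝ} (hy : |y| ≤ 4) : Real.cos y ≤ 1 - y ^ 2 / 32 := by
  have hpi3 := Real.pi_gt_three
  have hpi4 := Real.pi_lt_d2
  have hpp : (0 : ℝ) < Real.pi ^ 2 := by positivity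
  have hp1 : Real.pi ^ 2 ≤ 16 := by nlinarith
  rcases le_total |y| Real.pi with h | h
  · have h1 := Real.cos_le_one_sub_mul_cos_sq h
    have h2 : y ^ 2 / 32 ≤ 2 / Real.pi ^ 2 * y ^ 2 := by
      rw [div_mul_eq_mul_div, div_le_div_iff₀ (by norm_num) hpp]
      nlinarith [sq_nonneg y]
    linarith
  · have h1 : Real.cos y = Real.cos (2 * Real.pi - |y|) := by
      rw [Real.cos_two_pi_sub, Real.cos_abs]
    have h2 : abs (2 * Real.pi - |y|) ≤ Real.pi := by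
      rw [abs_le]
      constructor <;> linarith
    have h3 := Real.cos_le_one_sub_mul_cos_sq h2
    have h4 : |y| / 2 ≤ 2 * Real.pi - |y| := by linarith
    have h5 : (|y| / 2) ^ 2 ≤ (2 * Real.pi - |y|) ^ 2 :=
      pow_le_pow_left₀ (by positivity) h4 2
    rw [div_pow, sq_abs] at h5
    have h6 : y ^ 2 / 32 ≤ 2 / Real.pi ^ 2 * (2 * Real.pi - |y|) ^ 2 := by
      rw [div_mul_eq_mul_div, div_le_div_iff₀ (by norm_num) hpp]
      nlinarith [sq_nonneg y]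
    rw [h1]
    linarith

private theorem EEi_exp {δ : ℂ} (h0 : 0 ≤ δ.re) (h4 : |δ.im| ≤ 4) :
    1 / 4 * ‖δ‖ ≤ ‖exp δ - 1‖ := by
  have hC := EEi_cos h4
  have hE : 1 + δ.re ≤ Real.exp δ.re := by linarith [Real.add_one_le_exp δ.re]
  have h1 : ‖exp δ - 1‖ ^ 2 =
      Real.exp δ.re ^ 2 - 2 * Real.exp δ.re * Real.cos δ.im + 1 := by
    rw [Complex.sq_norm, Complex.normSq_apply]
    simp only [Complex.sub_re, Complex.sub_im, Complex.one_re, Complex.one_im, Complex.exp_re,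
      Complex.exp_im, sub_zero]
    have h2 := Real.sin_sq_add_cos_sq δ.im
    linear_combination Real.exp δ.re ^ 2 * h2
  have h3 : ‖δ‖ ^ 2 = δ.re ^ 2 + δ.im ^ 2 := by
    rw [Complex.sq_norm, Complex.normSq_apply]
    ring
  have h5 : δ.re ^ 2 ≤ (Real.exp δ.re - 1) ^ 2 := pow_le_pow_left₀ h0 (by linarith) 2
  have h6 : δ.im ^ 2 / 32 ≤ Real.exp δ.re * (1 - Real.cos δ.im) := by
    have h7 : 1 ≤ Real.exp δ.re := by linarith
    have h8 : 0 ≤ δ.im ^ 2 / 32 := by positivity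
    nlinarith
  have h9 : (1 / 4 * ‖δ‖) ^ 2 ≤ ‖exp δ - 1‖ ^ 2 := by
    rw [h1, mul_pow, h3]
    have h10 : 0 ≤ δ.re ^ 2 := sq_nonneg _
    nlinarith
  exact le_of_sq_le_sq h9 (norm_nonneg _)

/-- PROOF. `(exp δ - 1) / δ` does not vanish for `Re δ ≥ 0`, `|Im δ| ≤ 4`, `δ ≠ 0` (`exp δ = 1` only at `2 π i m`,
`2 π > 4`), tends to `1` at `0`; for `Re δ ≥ 8`: `|exp δ - 1| ≥ exp (Re δ) - 1 ≥ Re δ + 4 ≥ |δ|`. On the
compact rest (`0 ≤ Re δ ≤ 8`, `|Im δ| ≤ 4`) the continuous function (`dslope exp 0`) has a positive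
minimum. -/
theorem exp_sub_one_ge : ∃ c : ℝ, 0 < c ∧ ∀ δ : ℂ, 0 ≤ δ.re → |δ.im| ≤ 4 → c * ‖δ‖ ≤ ‖exp δ - 1‖ := by
  exact ⟨1 / 4, by norm_num, fun δ h0 h4 => EEi_exp h0 h4⟩

/-- the functions `sin e / e`, `e cot e`, `cot e - 1 / e` -/
private theorem EEi_fun : ∃ s u g : ℂ → ℂ, AnalyticAt ℂ s 0 ∧ AnalyticAt ℂ u 0 ∧ AnalyticAt ℂ g 0 ∧
    s 0 = 1 ∧ u 0 = 1 ∧ (∀ e, e * s e = sin e) ∧ (∀ e, s e ≠ 0 → u e * s e = cos e) ∧
    ∀ e, u e = 1 + e * g e := by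
  have hs : AnalyticAt ℂ (dslope sin 0) 0 := by
    obtain ⟨p, hp⟩ := Complex.analyticAt_sin (x := 0)
    exact ⟨_, hp.has_fpower_series_dslope_fslope⟩
  have hs0 : dslope sin 0 0 = (1 : ℂ) := by
    rw [dslope_same, Complex.deriv_sin, Complex.cos_zero]
  have hu : AnalyticAt ℂ (fun e => cos e / dslope sin 0 e) 0 :=
    Complex.analyticAt_cos.div hs (by rw [hs0]; exact one_ne_zero)
  have hg : AnalyticAt ℂ (dslope (fun e => cos e / dslope sin 0 e) 0) 0 := by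
    obtain ⟨p, hp⟩ := hu
    exact ⟨_, hp.has_fpower_series_dslope_fslope⟩
  refine ⟨dslope sin 0, fun e => cos e / dslope sin 0 e,
    dslope (fun e => cos e / dslope sin 0 e) 0, hs, hu, hg, hs0, ?_, fun e => ?_, fun e h => ?_,
    fun e => ?_⟩
  · show cos 0 / dslope sin 0 0 = 1
    rw [hs0, Complex.cos_zero, div_one]
  · have h1 := sub_smul_dslope (sin : ℂ → ℂ) 0 e
    rwa [sub_zero, smul_eq_mul, Complex.sin_zero, sub_zero] at h1
  · show cos e / dslope sin 0 e * dslope sin 0 e = cos e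
    exact div_mul_cancel₀ _ h
  · have h1 := sub_smul_dslope (fun e : ℂ => cos e / dslope sin 0 e) 0 e
    rw [sub_zero, smul_eq_mul, hs0, Complex.cos_zero, div_one] at h1
    rw [h1]
    ring

private theorem EEi_arg {e v : ℂ} (he : e ≠ 0) (hv : ‖v - 1‖ < 1 / 20)
    (h : -(‖v / e‖ / 4) ≤ (v / e).re) : |arg e| ≤ 2 := by
  by_contra hlt
  rw [not_le] at hlt
  have hn : 0 < ‖e‖ := norm_pos_iff.2 he
  -- the real part of `e` is not too negative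
  have h1 : (v / e).re ≤ e.re / ‖e‖ ^ 2 + 1 / 20 / ‖e‖ := by
    have h2 : v / e = e⁻¹ + (v - 1) / e := by
      field_simp
      ring
    have h3 : ((v - 1) / e).re ≤ 1 / 20 / ‖e‖ := by
      refine (re_le_norm _).trans ?_
      rw [norm_div]
      exact div_le_div_of_nonneg_right hv.le hn.le
    have h4 : (e⁻¹).re = e.re / ‖e‖ ^ 2 := by
      rw [Complex.inv_re, Complex.sq_norm]
    rw [h2, Complex.add_re, h4]
    linarith
  have h5 : ‖v / e‖ ≤ 21 / 20 / ‖e‖ := by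
    rw [norm_div]
    refine div_le_div_of_nonneg_right ?_ hn.le
    calc ‖v‖ = ‖(v - 1) + 1‖ := by rw [sub_add_cancel]
      _ ≤ ‖v - 1‖ + ‖(1 : ℂ)‖ := norm_add_le _ _
      _ ≤ 21 / 20 := by
        rw [norm_one]
        linarith
  have h6 : -(5 / 16 / ‖e‖) ≤ e.re / ‖e‖ ^ 2 := by
    have h7 : 5 / 16 / ‖e‖ = 21 / 20 / ‖e‖ / 4 + 1 / 20 / ‖e‖ := by
      field_simp
      norm_num
    rw [h7]
    linarith
  have h8 : e.re = ‖e‖ * Real.cos (arg e) := (Complex.norm_mul_cos_arg e).symm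
  have h9 : e.re / ‖e‖ ^ 2 = Real.cos (arg e) / ‖e‖ := by
    rw [h8]
    field_simp
  rw [h9, ← neg_div, div_le_div_iff_of_pos_right hn] at h6
  have h10 : Real.cos (arg e) = Real.cos |arg e| := (Real.cos_abs _).symm
  have h11 : Real.cos |arg e| ≤ Real.cos 2 :=
    Real.cos_le_cos_of_nonneg_of_le_pi (by norm_num) (abs_arg_le_pi e) hlt.le
  have h12 : Real.cos 2 ≤ -31 / 81 := by
    have h13 : Real.cos 2 = 2 * Real.cos 1 ^ 2 - 1 := by
      rw [← Real.cos_two_mul]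
      norm_num
    have h14 := Real.cos_one_le
    have h15 := Real.cos_one_pos
    nlinarith
  rw [h10] at h6
  linarith

private theorem EEi_log {e1 e2 : ℂ} {ρ : ℝ} (he1 : e1 ≠ 0) (he2 : e2 ≠ 0) (ha1 : |arg e1| ≤ 2)
    (ha2 : |arg e2| ≤ 2) (h : ‖e1‖ ≤ ‖e2‖) (h2 : ‖e2‖ ≤ ρ) :
    ‖log e2 - log e1‖ ≤ 4 * ρ * ‖e1⁻¹ - e2⁻¹‖ := by
  have hn1 : 0 < ‖e1‖ := norm_pos_iff.2 he1
  have h3 : 0 ≤ (log e2 - log e1).re := by
    rw [Complex.sub_re, Complex.log_re, Complex.log_re, sub_nonneg]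
    exact Real.log_le_log hn1 h
  have h4 : |(log e2 - log e1).im| ≤ 4 := by
    rw [Complex.sub_im, Complex.log_im, Complex.log_im]
    have h5 := abs_sub (arg e2) (arg e1)
    linarith
  have h5 := EEi_exp h3 h4
  have h6 : exp (log e2 - log e1) - 1 = e2 * (e1⁻¹ - e2⁻¹) := by
    rw [Complex.exp_sub, Complex.exp_log he1, Complex.exp_log he2]
    field_simp
  rw [h6, norm_mul] at h5
  have h7 : ‖e2‖ * ‖e1⁻¹ - e2⁻¹‖ ≤ ρ * ‖e1⁻¹ - e2⁻¹‖ :=
    mul_le_mul_of_nonneg_right h2 (norm_nonneg _)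
  linarith

/-- INJECTIVITY of `ome k` on the region, `ρ` uniform in `k ≥ 1`.

PROOF. `c = cos e / sin e` (`cot`), `‖c‖ ≥ 1 / (2 ρ)`; `ζ = log c`, `|Im ζ| ≤ 2` (`Re c ≥ - ‖c‖ / 4`:
`|arg c| ≤ π/2 + 0.26`). For `‖c‖ > 1` let `E (c) = arctan (1 / c)` = the small solution of `cot E = c`
(`E (c) = (log (1 + i / c) - log (1 - i / c)) / (2 i)`, analytic, `‖E c‖ ≤ 2 / ‖c‖`, and `e = E (cot e)` for `‖e‖ < 1/8`).
Let `H (ζ) = log (sin (E (exp ζ))) - E (exp ζ) exp ζ` on the convex set `Re ζ > log R`, `|Im ζ| < 2`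
(`sin (E c) = c⁻¹ (1 + c⁻²)^(-1/2)` is in the slit plane). Since `d (log sin e + 1 - (k π + e) cot e) = (cot e -
cot e + (k π + e) / sin² e) de` and `d c = - de / sin² e`: `ome = H + 1 - k π exp ζ` and `dH/dc = - E`, so
`|H' (ζ)| = |E (c) c| ≤ 2`. [Alternatively without `E`: parametrise by the segment in the `ζ` plane and lift.]
If `ome k e1 = ome k e2`, wlog `Re ζ1 ≥ Re ζ2`, `δ = ζ1 - ζ2` (`Re δ ≥ 0`, `|Im δ| ≤ 4`):
`k π |exp ζ1 - exp ζ2| = |H ζ1 - H ζ2| ≤ 2 |δ|` and `|exp ζ1 - exp ζ2| = ‖c2‖ |exp δ - 1| ≥ (1 / (2 ρ)) c0 |δ|`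
(`exp_sub_one_ge`): `δ = 0` if `π c0 / (2 ρ) > 2`. Then `c1 = c2`, `e1 - e2 ∈ π ℤ`, `e1 = e2`. -/
theorem ome_inj : ∃ ρ : ℝ, 0 < ρ ∧ ∀ (k : ℕ) (e1 e2 : ℂ), 1 ≤ k → 0 < ‖e1‖ → ‖e1‖ < ρ → 0 < ‖e2‖ →
    ‖e2‖ < ρ → ‖G (k * Real.pi + e1)‖ ≤ 1 → ‖G (k * Real.pi + e2)‖ ≤ 1 → ome k e1 = ome k e2 →
      e1 = e2 := by
  obtain ⟨ρ0, hρ0, hρ08, hreg⟩ := ome_region
  obtain ⟨s, u, g, hs, hu, hg, hs0, hu0, hsin, hcos, hug⟩ := EEi_fun
  obtain ⟨K1, t1, ht1, hL1⟩ :=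
    ((hs.clog (by rw [hs0]; exact one_mem_slitPlane)).sub hu).contDiffAt.exists_lipschitzOnWith
      (𝕂 := ℂ)
  obtain ⟨K2, t2, ht2, hL2⟩ := hg.contDiffAt.exists_lipschitzOnWith (𝕂 := ℂ)
  have hn1 : ∀ᶠ e in 𝓝 (0 : ℂ), ‖u e - 1‖ < 1 / 20 := by
    have h1 : Tendsto (fun e => ‖u e - 1‖) (𝓝 (0 : ℂ)) (𝓝 ‖u 0 - 1‖) :=
      (hu.continuousAt.tendsto.sub_const 1).norm
    rw [hu0, sub_self, norm_zero] at h1
    exact h1.eventually (gt_mem_nhds (by norm_num))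
  have hn2 : ∀ᶠ e in 𝓝 (0 : ℂ), |arg (s e)| < 1 := by
    have h1 : ContinuousAt (fun e => |arg (s e)|) (0 : ℂ) := by
      have h2 : ContinuousAt arg (s 0) := by
        rw [hs0]
        exact continuousAt_arg one_mem_slitPlane
      exact (ContinuousAt.comp h2 hs.continuousAt).abs
    have h3 : Tendsto (fun e => |arg (s e)|) (𝓝 (0 : ℂ)) (𝓝 |arg (s 0)|) := h1
    rw [hs0, arg_one, abs_zero] at h3
    exact h3.eventually (gt_mem_nhds (by norm_num))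
  have hn3 : ∀ᶠ e in 𝓝 (0 : ℂ), s e ≠ 0 := by
    refine hs.continuousAt.eventually_ne ?_
    rw [hs0]
    exact one_ne_zero
  obtain ⟨r, hr, hball⟩ := Metric.eventually_nhds_iff_ball.1
    (((hn1.and hn2).and hn3).and ((eventually_mem_set.2 ht1).and (eventually_mem_set.2 ht2)))
  obtain ⟨ρ, hρ, hρr, hρρ0, hρ1, hρK1, hρK2⟩ : ∃ ρ : ℝ, 0 < ρ ∧ ρ ≤ r ∧ ρ ≤ ρ0 ∧ ρ ≤ 1 ∧
      (4 + (K1 : ℝ)) * ρ ≤ 1 ∧ (K2 : ℝ) * ρ ≤ 1 / 4 := by
    have hK1 : (0 : ℝ) ≤ K1 := K1.2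
    have hK2 : (0 : ℝ) ≤ K2 := K2.2
    refine ⟨min (min r ρ0) (min (min 1 (1 / (4 + K1))) (1 / (4 * (K2 + 1)))), ?_, ?_, ?_, ?_, ?_, ?_⟩
    · positivity
    · exact (min_le_left _ _).trans (min_le_left _ _)
    · exact (min_le_left _ _).trans (min_le_right _ _)
    · exact (min_le_right _ _).trans ((min_le_left _ _).trans (min_le_left _ _))
    · have h1 : min (min r ρ0) (min (min 1 (1 / (4 + (K1 : ℝ)))) (1 / (4 * ((K2 : ℝ) + 1)))) ≤
          1 / (4 + K1) :=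
        (min_le_right _ _).trans ((min_le_left _ _).trans (min_le_right _ _))
      calc (4 + (K1 : ℝ)) * _ ≤ (4 + (K1 : ℝ)) * (1 / (4 + K1)) :=
            mul_le_mul_of_nonneg_left h1 (by positivity)
        _ = 1 := by field_simp
    · have h1 : min (min r ρ0) (min (min 1 (1 / (4 + (K1 : ℝ)))) (1 / (4 * ((K2 : ℝ) + 1)))) ≤
          1 / (4 * ((K2 : ℝ) + 1)) := (min_le_right _ _).trans (min_le_right _ _)
      calc (K2 : ℝ) * _ ≤ (K2 : ℝ) * (1 / (4 * ((K2 : ℝ) + 1))) :=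
            mul_le_mul_of_nonneg_left h1 hK2
        _ ≤ 1 / 4 := by
          rw [mul_one_div, div_le_div_iff₀ (by positivity) (by norm_num)]
          linarith
  refine ⟨ρ, hρ, fun k e1 e2 hk h10 h1ρ h20 h2ρ hG1 hG2 hom => ?_⟩
  -- facts about one point
  have hpt : ∀ e : ℂ, 0 < ‖e‖ → ‖e‖ < ρ → ‖G (k * Real.pi + e)‖ ≤ 1 →
      |arg e| ≤ 2 ∧ ome k e = log e + 1 - k * Real.pi * e⁻¹ + (log (s e) - u e) -
        k * Real.pi * g e := by
    intro e he0 heρ hG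
    have he : e ≠ 0 := norm_pos_iff.1 he0
    obtain ⟨⟨⟨hb1, hb2⟩, hb3⟩, -⟩ := hball e (mem_ball_zero_iff.2 (heρ.trans_le hρr))
    obtain ⟨-, -, hre⟩ := hreg k e hk he0 (heρ.trans_le hρρ0) hG
    have hc : cos e / sin e = u e / e := by
      rw [← hsin e, ← hcos e hb3]
      field_simp
    rw [hc] at hre
    have harg : |arg e| ≤ 2 := EEi_arg he hb1 hre
    refine ⟨harg, ?_⟩
    have hlog : log (sin e) = log e + log (s e) := by
      rw [← hsin e]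
      refine (log_mul_eq_add_log_iff he hb3).2 ?_
      have h1 := abs_le.1 harg
      have h2 := abs_lt.1 hb2
      have h3 := Real.pi_gt_three
      constructor
      · linarith [h1.1, h2.1]
      · linarith [h1.2, h2.2]
    unfold ome
    rw [hlog, hc]
    have h4 : u e / e = e⁻¹ + g e := by
      rw [hug e]
      field_simp
    have h5 : (k * Real.pi + e) * (u e / e) = k * Real.pi * (e⁻¹ + g e) + u e := by
      rw [add_mul, mul_div_cancel₀ _ he, h4]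
    rw [h5]
    ring
  obtain ⟨ha1, ho1⟩ := hpt e1 h10 h1ρ hG1
  obtain ⟨ha2, ho2⟩ := hpt e2 h20 h2ρ hG2
  have he1 : e1 ≠ 0 := norm_pos_iff.1 h10
  have he2 : e2 ≠ 0 := norm_pos_iff.1 h20
  obtain ⟨-, ht11, ht12⟩ := hball e1 (mem_ball_zero_iff.2 (h1ρ.trans_le hρr))
  obtain ⟨-, ht21, ht22⟩ := hball e2 (mem_ball_zero_iff.2 (h2ρ.trans_le hρr))
  -- the three differences
  set D := ‖e1⁻¹ - e2⁻¹‖ with hD
  have hD0 : 0 ≤ D := norm_nonneg _
  have hdist : ‖e1 - e2‖ ≤ ρ * D := by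
    have h1 : e1 - e2 = -(e1 * e2 * (e1⁻¹ - e2⁻¹)) := by
      field_simp
      ring
    rw [h1, norm_neg, norm_mul, norm_mul, ← hD]
    have h2 : ‖e1‖ * ‖e2‖ ≤ ρ * 1 :=
      mul_le_mul h1ρ.le (h2ρ.le.trans hρ1) (norm_nonneg _) hρ.le
    rw [mul_one] at h2
    exact mul_le_mul_of_nonneg_right h2 hD0
  have hlogd : ‖log e1 - log e2‖ ≤ 4 * ρ * D := by
    rcases le_total ‖e1‖ ‖e2‖ with h | h
    · have h1 := EEi_log he1 he2 ha1 ha2 h h2ρ.le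
      rw [norm_sub_rev]
      exact h1
    · have h1 := EEi_log he2 he1 ha2 ha1 h h1ρ.le
      rw [norm_sub_rev e2⁻¹ e1⁻¹] at h1
      exact h1
  have hF : ‖(log (s e1) - u e1) - (log (s e2) - u e2)‖ ≤ K1 * (ρ * D) := by
    have h1 := hL1.dist_le_mul e1 ht11 e2 ht21
    rw [dist_eq_norm, dist_eq_norm] at h1
    refine (show _ ≤ _ from h1).trans ?_
    exact mul_le_mul_of_nonneg_left hdist K1.2
  have hgd : ‖g e1 - g e2‖ ≤ K2 * (ρ * D) := by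
    have h1 := hL2.dist_le_mul e1 ht12 e2 ht22
    rw [dist_eq_norm, dist_eq_norm] at h1
    exact h1.trans (mul_le_mul_of_nonneg_left hdist K2.2)
  have hkey : (k * Real.pi : ℂ) * (e1⁻¹ - e2⁻¹) = (log e1 - log e2) +
      ((log (s e1) - u e1) - (log (s e2) - u e2)) - k * Real.pi * (g e1 - g e2) := by
    rw [ho1, ho2] at hom
    linear_combination -hom
  have hkn : ‖(k * Real.pi : ℂ)‖ = k * Real.pi := by
    rw [norm_mul, Complex.norm_natCast, Complex.norm_real, Real.norm_of_nonneg Real.pi_pos.le]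
  have hkpi : 3 ≤ (k : ℝ) * Real.pi := by
    have h1 : (1 : ℝ) ≤ k := by exact_mod_cast hk
    have h2 := Real.pi_gt_three
    nlinarith
  have hmain : (k * Real.pi : ℝ) * D ≤ 4 * ρ * D + K1 * (ρ * D) +
      (k * Real.pi : ℝ) * (K2 * (ρ * D)) := by
    calc (k * Real.pi : ℝ) * D = ‖(k * Real.pi : ℂ) * (e1⁻¹ - e2⁻¹)‖ := by
          rw [norm_mul, hkn]
      _ ≤ ‖log e1 - log e2‖ + ‖(log (s e1) - u e1) - (log (s e2) - u e2)‖ +
          ‖(k * Real.pi : ℂ) * (g e1 - g e2)‖ := by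
          rw [hkey]
          exact (norm_sub_le _ _).trans (add_le_add_left (norm_add_le _ _) _)
      _ ≤ _ := by
          rw [norm_mul, hkn]
          have h1 : (k * Real.pi : ℝ) * ‖g e1 - g e2‖ ≤ (k * Real.pi : ℝ) * (K2 * (ρ * D)) :=
            mul_le_mul_of_nonneg_left hgd (by linarith)
          linarith
  have hD1 : D = 0 := by
    by_contra hne
    have hDp : 0 < D := lt_of_le_of_ne hD0 (Ne.symm hne)
    have h1 : 4 * ρ * D + K1 * (ρ * D) ≤ D := by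
      have h2 : (4 + (K1 : ℝ)) * ρ * D ≤ 1 * D := mul_le_mul_of_nonneg_right hρK1 hD0
      linarith
    have h2 : (k * Real.pi : ℝ) * (K2 * (ρ * D)) ≤ (k * Real.pi : ℝ) * (1 / 4 * D) := by
      refine mul_le_mul_of_nonneg_left ?_ (by linarith)
      have h3 : (K2 : ℝ) * ρ * D ≤ 1 / 4 * D := mul_le_mul_of_nonneg_right hρK2 hD0
      linarith
    have h3 : 3 * D ≤ (k * Real.pi : ℝ) * D := mul_le_mul_of_nonneg_right hkpi hD0
    nlinarith
  rw [hD, norm_eq_zero, sub_eq_zero] at hD1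
  exact inv_injective hD1

end Pool.Agent.MP_ae5b4e_an_PK
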