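import Mathlib

/-!
# POR (iii), N2, type I, PK, block EL: `e = y - k π` as a function of `X = y²`
-/

noncomputable section

namespace Pool.Agent.MP_ae5b4e_an_PK

open Complex Set Filter Topology Metric

/-- the root of `X` near `k π`, minus `k π` -/
def ek (k : ℕ) (X : ℂ) : ℂ := k * Real.pi * (X / (k * Real.pi) ^ 2) ^ (1 / 2 : ℂ) - k * Real.pi

private theorem EF_pos {k : ℕ} (hk : 1 ≤ k) : (0 : ℝ) < k * Real.pi :=
  mul_pos (by exact_mod_cast hk) Real.pi_pos

private theorem EF_re {k : ℕ} (hk : 1 ≤ k) {y : ℂ} (hr : 0 < y.re) :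
    0 < (y / ((k * Real.pi : ℝ) : ℂ)).re := by
  rw [Complex.div_ofReal_re]
  exact div_pos hr (EF_pos hk)

private theorem EF_sq {k : ℕ} {X y : ℂ} (hy : y ^ 2 = X) :
    X / (k * Real.pi) ^ 2 = (y / ((k * Real.pi : ℝ) : ℂ)) ^ 2 := by
  rw [← hy, div_pow]
  push_cast
  rfl

/-- PROOF. `X / (k π)² = (y / (k π))²`, `Re (y / (k π)) > 0`; `Complex.sq_cpow_two_inv` or
`cpow_nat_inv_pow` / `Complex.pow_cpow_nat_inv` with the bounds of the argument. -/
theorem ek_of_sq {k : ℕ} (hk : 1 ≤ k) {X y : ℂ} (hy : y ^ 2 = X) (hr : 0 < y.re) :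
    ek k X = y - k * Real.pi := by
  have h0 : ((k : ℂ) * Real.pi) ≠ 0 := by
    have := (EF_pos hk).ne'
    exact_mod_cast this
  unfold ek
  rw [EF_sq hy, one_div, Complex.sq_cpow_two_inv (EF_re hk hr)]
  push_cast
  rw [mul_div_cancel₀ _ h0]

/-- PROOF. `X / (k π)²` is in the slit plane (it is the square of a number with positive real
part). -/
theorem ek_diff {k : ℕ} (hk : 1 ≤ k) {X y : ℂ} (hy : y ^ 2 = X) (hr : 0 < y.re) :
    DifferentiableAt ℂ (ek k) X := by
  have hs : X / (k * Real.pi) ^ 2 ∈ slitPlane := by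
    rw [EF_sq hy, sq]
    have h1 := EF_re hk hr
    set w := y / ((k * Real.pi : ℝ) : ℂ)
    rw [mem_slitPlane_iff, mul_re, mul_im]
    by_cases h : w.im = 0
    · left
      rw [h]
      nlinarith
    · right
      have : w.re * w.im + w.im * w.re = 2 * (w.re * w.im) := by ring
      rw [this]
      exact mul_ne_zero two_ne_zero (mul_ne_zero h1.ne' h)
  unfold ek
  refine DifferentiableAt.sub_const ?_ _
  refine DifferentiableAt.const_mul ?_ _
  exact DifferentiableAt.cpow (by fun_prop) (by fun_prop) hs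

end Pool.Agent.MP_ae5b4e_an_PK
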