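import Pool.Agent.Lib.MP_ae5b4e_an_PK.EA
import Pool.Agent.Lib.MP_ae5b4e_an_PK.EE
import Pool.Agent.Lib.MP_ae5b4e_an_PK.EF

/-!
# POR (iii), N2, type I, PK, block EL (entrance)
-/

noncomputable section

namespace Pool.Agent.MP_ae5b4e_an_PK

open Complex Set Filter Topology Metric
open Pool.Agent.MP_ae5b4e_an_WB
open Pool.Agent.MP_ae5b4e_an_WD
open Pool.Agent.MP_ae5b4e_an_T
open Pool.Agent.MP_ae5b4e_an_M (S1 C1f Gf)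

variable {q : ℂ → ℂ} {C γ v : ℝ} {f : ℂ → ℂ}

/-- the logarithm of `w` as a function of `τ` -/
def omx (k : ℕ) (q : ℂ → ℂ) (γ : ℝ) (f : ℂ → ℂ) (τ : ℂ) : ℂ := ome k (ek k (Xf q γ f τ))

/-- the radius `ρ` and the bound `ε` of `|w|` are good for the sheets `1 ≤ k ≤ K` -/
structure Rho (K : ℕ) (ρ ε : ℝ) : Prop where
  ρ_pos : 0 < ρ
  ρ_le : ρ ≤ 1 / 8
  ε_pos : 0 < ε
  ε_le : ε ≤ 1
  region : ∀ (k : ℕ) (e : ℂ), 1 ≤ k → 0 < ‖e‖ → ‖e‖ < ρ → ‖G (k * Real.pi + e)‖ ≤ 1 →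
    sin e ∈ slitPlane
  inj : ∀ (k : ℕ) (e1 e2 : ℂ), 1 ≤ k → 0 < ‖e1‖ → ‖e1‖ < ρ → 0 < ‖e2‖ → ‖e2‖ < ρ →
    ‖G (k * Real.pi + e1)‖ ≤ 1 → ‖G (k * Real.pi + e2)‖ ≤ 1 → ome k e1 = ome k e2 → e1 = e2
  near : ∀ k : ℕ, 1 ≤ k → k ≤ K → ∀ y : ℂ, |y.re - k * Real.pi| < Real.pi / 2 → ‖G y‖ ≤ ε →
    ‖y - k * Real.pi‖ < ρ

private theorem EG_sin (k : ℕ) (e : ℂ) : sin ((k : ℂ) * Real.pi + e) = (-1) ^ k * sin e := by
  induction k with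
  | zero => simp
  | succ n ih =>
    have h : (((n + 1 : ℕ) : ℂ) * Real.pi + e) = ((n : ℂ) * Real.pi + e) + Real.pi := by
      push_cast
      ring
    rw [h, Complex.sin_add_pi, ih, pow_succ]
    ring

/-- ONE POINT of the pocket.

PROOF. `y` with `y² = X`, `Re y ≥ 0`: `Re y = ax X` (`ax_eq`), `|Re y - k π| < π/2`, so `Re y > 0`, `X ≠ 0`,
`q (f τ) ≠ 0`. `T.y_spec`: `sin y ≠ 0`, `G y ^ 2 = γ² q`, `f' = y / G y`. `‖G y‖ ≤ ε`; `R.near`. `e = y - k π =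
ek k X` (`ek_of_sq`), `e ≠ 0` since `sin y ≠ 0`; `sin e = ± sin y ≠ 0`; `exp_ome`, `re_ome`: `Re om = log ‖G y‖ =
(1/2) log ‖γ² q‖`. Differentiability: `ome_diff` (`R.region`), `ek_diff`, `T.Xf_diff`. -/
theorem pt_facts {K : ℕ} {ρ ε : ℝ} (R : Rho K ρ ε) (h : Sl q C γ v f) {τ : ℂ} (hτ : τ ∈ Hp v) {k : ℕ}
    (hk : 1 ≤ k) (hkK : k ≤ K) (hs : |ax (Xf q γ f τ) - k * Real.pi| < Real.pi / 2)
    (hw : ‖(γ : ℂ) ^ 2 * q (f τ)‖ ≤ ε ^ 2) :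
    0 < ‖ek k (Xf q γ f τ)‖ ∧ ‖ek k (Xf q γ f τ)‖ < ρ ∧
    (k * Real.pi + ek k (Xf q γ f τ)) ^ 2 = Xf q γ f τ ∧
    ‖G (k * Real.pi + ek k (Xf q γ f τ))‖ ≤ ε ∧
    exp (2 * omx k q γ f τ) = (γ : ℂ) ^ 2 * q (f τ) ∧
    (omx k q γ f τ).re = Real.log ‖(γ : ℂ) ^ 2 * q (f τ)‖ / 2 ∧
    deriv f τ = (k * Real.pi + ek k (Xf q γ f τ)) / G (k * Real.pi + ek k (Xf q γ f τ)) ∧
    DifferentiableAt ℂ (omx k q γ f) τ ∧ q (f τ) ≠ 0 := by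
  have hpi := Real.pi_pos
  have hk1 : (1 : ℝ) ≤ k := by exact_mod_cast hk
  have hkp : Real.pi ≤ k * Real.pi := by nlinarith
  obtain ⟨y, hy, hyre⟩ : ∃ y : ℂ, y ^ 2 = Xf q γ f τ ∧ y.re = ax (Xf q γ f τ) := by
    obtain ⟨y, hy⟩ := IsAlgClosed.exists_pow_nat_eq (Xf q γ f τ) (n := 2) two_pos
    rcases abs_choice y.re with h1 | h1
    · exact ⟨y, hy, by rw [ax_eq hy, h1]⟩
    · exact ⟨-y, by rw [neg_sq, hy], by rw [neg_re, ax_eq hy, h1]⟩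
  rw [← hyre] at hs
  have hr : 0 < y.re := by
    have := (abs_lt.1 hs).1
    linarith
  have hy0 : y ≠ 0 := by
    rintro rfl
    rw [zero_re] at hr
    exact lt_irrefl _ hr
  have hq : q (f τ) ≠ 0 := by
    intro h0
    rw [Xf, h0, zero_mul] at hy
    exact hy0 (pow_eq_zero_iff two_ne_zero |>.1 hy)
  obtain ⟨hsy, hG2, hdf⟩ := y_spec h hτ hq hy
  have hGn : ‖G y‖ ≤ ε := by
    rw [← hG2, norm_pow] at hw
    have h1 := R.ε_pos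
    exact le_of_sq_le_sq hw h1.le
  have hnear := R.near k hk hkK y hs hGn
  have hek := ek_of_sq hk hy hr
  have hyk : (k : ℂ) * Real.pi + ek k (Xf q γ f τ) = y := by
    rw [hek]
    ring
  have hsin : sin (ek k (Xf q γ f τ)) ≠ 0 := by
    intro h0
    have h1 := EG_sin k (ek k (Xf q γ f τ))
    rw [h0, mul_zero, hyk] at h1
    exact hsy h1
  have he0 : 0 < ‖ek k (Xf q γ f τ)‖ := by
    rw [norm_pos_iff]
    intro h0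
    rw [h0, Complex.sin_zero] at hsin
    exact hsin rfl
  have heρ : ‖ek k (Xf q γ f τ)‖ < ρ := by
    rw [hek]
    exact hnear
  have hGe : ‖G (k * Real.pi + ek k (Xf q γ f τ))‖ ≤ ε := by
    rw [hyk]
    exact hGn
  have hsl := R.region k (ek k (Xf q γ f τ)) hk he0 heρ (hGe.trans R.ε_le)
  refine ⟨he0, heρ, by rw [hyk, hy], hGe, ?_, ?_, ?_, ?_, hq⟩
  · rw [omx, (exp_ome (k := k) hsin).2, hyk, hG2]
  · rw [omx, re_ome (k := k) hsin, hyk, ← hG2, norm_pow, Real.log_pow]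
    push_cast
    ring
  · rw [hyk]
    exact hdf
  · have h1 : DifferentiableAt ℂ (Xf q γ f) τ :=
      (Xf_diff h).differentiableAt ((Hp_open v).mem_nhds hτ)
    have h2 : DifferentiableAt ℂ (ek k) (Xf q γ f τ) := ek_diff hk hy hr
    have h3 : DifferentiableAt ℂ (ome k) (ek k (Xf q γ f τ)) := ome_diff hsl
    have h4 : DifferentiableAt ℂ (fun z => ek k (Xf q γ f z)) τ := h2.comp τ h1
    exact DifferentiableAt.comp (g := ome k) τ h3 h4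

/-- `X` IS A FUNCTION OF `om`.

PROOF. `Φ k w` := `(k π + e)²` for some `e` with `0 < ‖e‖ < ρ`, `‖G (k π + e)‖ ≤ 1`, `ome k e = w` if such an `e`
exists (it is unique by `R.inj`), `0` otherwise. `pt_facts`. -/
theorem exists_Phi {K : ℕ} {ρ ε : ℝ} (R : Rho K ρ ε) : ∃ Φ : ℕ → ℂ → ℂ, ∀ (q : ℂ → ℂ) (C γ v : ℝ)
    (f : ℂ → ℂ), Sl q C γ v f → ∀ τ ∈ Hp v, ∀ k : ℕ, 1 ≤ k → k ≤ K →
      |ax (Xf q γ f τ) - k * Real.pi| < Real.pi / 2 → ‖(γ : ℂ) ^ 2 * q (f τ)‖ ≤ ε ^ 2 →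
        Xf q γ f τ = Φ k (omx k q γ f τ) := by
  classical
  refine ⟨fun k w => if H : ∃ e : ℂ, 0 < ‖e‖ ∧ ‖e‖ < ρ ∧ ‖G (k * Real.pi + e)‖ ≤ 1 ∧ ome k e = w
    then (k * Real.pi + H.choose) ^ 2 else 0, ?_⟩
  intro q C γ v f h τ hτ k hk hkK hs hw
  obtain ⟨h1, h2, h3, h4, -⟩ := pt_facts R h hτ hk hkK hs hw
  have H : ∃ e : ℂ, 0 < ‖e‖ ∧ ‖e‖ < ρ ∧ ‖G (k * Real.pi + e)‖ ≤ 1 ∧
      ome k e = omx k q γ f τ := ⟨ek k (Xf q γ f τ), h1, h2, h4.trans R.ε_le, rfl⟩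
  have H2 := H.choose_spec
  have h5 : H.choose = ek k (Xf q γ f τ) :=
    R.inj k H.choose _ hk H2.1 H2.2.1 h1 h2 H2.2.2.1 (h4.trans R.ε_le) H2.2.2.2
  show _ = dite _ _ _
  rw [dif_pos H, h5, h3]

end Pool.Agent.MP_ae5b4e_an_PK
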