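import Pool.Agent.Lib.MP_ae5b4e_an_PK.Defs
import Pool.Agent.Lib.MP_ae5b4e_an_T.SchF
import Pool.Agent.Lib.MP_ae5b4e_an_T.GrC

/-!
# POR (iii), N2, type I, PK, block EL (entrance)
-/

noncomputable section

namespace Pool.Agent.MP_ae5b4e_an_PK

open Complex Set Filter Topology Metric
open Pool.Agent.MP_ae5b4e_an_WB
open Pool.Agent.MP_ae5b4e_an_WD
open Pool.Agent.MP_ae5b4e_an_T
open Pool.Agent.MP_ae5b4e_an_M (S1 C1f Gf)

variable {q : ℂ → ℂ} {C γ v : ℝ} {f : ℂ → ℂ}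

private theorem EH_le (N : ℕ) (x : ℂ) {j : ℕ} (hj : j ≤ N) : Pf j x ≤ rhoN N x :=
  Finset.le_sup' (fun j => Pf j x) (Finset.mem_range.2 (Nat.lt_succ_of_le hj))

private theorem EH_r {k : ℕ} (hk : 1 ≤ k) {x : ℂ → ℂ} (hx : DifferentiableOn ℂ x (ball 0 1))
    (hS : ∀ z ∈ ball (0 : ℂ) 1, S1 (x z) ≠ 0) {r : ℝ} (hr0 : 0 < r) (hr1 : r < 1) :
    Kf k (x 0) * (r * ‖deriv x 0‖) ≤ 2 := by
  have hcb : closedBall (0 : ℂ) r ⊆ ball 0 1 := closedBall_subset_ball hr1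
  obtain ⟨K, hK⟩ := (isCompact_closedBall (0 : ℂ) r).exists_bound_of_continuousOn
    (hx.continuousOn.mono hcb)
  obtain ⟨N, hN1, hNK⟩ : ∃ N : ℕ, k ≤ N ∧ K < (N * Real.pi) ^ 2 := by
    obtain ⟨n, hn⟩ := exists_nat_gt K
    refine ⟨n + k, by omega, ?_⟩
    have h1 : (1 : ℝ) ≤ Real.pi := by linarith [Real.pi_gt_three]
    have h2 : (0 : ℝ) ≤ n := Nat.cast_nonneg n
    have hk' : (1 : ℝ) ≤ k := by exact_mod_cast hk
    push_cast
    have h3 : (n : ℝ) + k ≤ (n + k) * Real.pi := le_mul_of_one_le_right (by linarith) h1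
    nlinarith
  have hmap : ∀ z ∈ ball (0 : ℂ) 1, (r : ℂ) * z ∈ closedBall (0 : ℂ) r := by
    intro z hz
    rw [mem_ball_zero_iff] at hz
    rw [mem_closedBall_zero_iff, norm_mul, Complex.norm_real, Real.norm_of_nonneg hr0.le]
    exact mul_le_of_le_one_right hr0.le hz.le
  obtain ⟨f, hf⟩ : ∃ f : ℂ → ℂ, f = fun z => x (r * z) := ⟨_, rfl⟩
  have hfd : DifferentiableOn ℂ f (ball 0 1) := by
    rw [hf]
    exact hx.comp ((differentiable_id.const_mul (r : ℂ)).differentiableOn)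
      fun z hz => hcb (hmap z hz)
  have hfO : ∀ z ∈ ball (0 : ℂ) 1, f z ∈ OmN N := by
    intro z hz
    rw [hf]
    refine ⟨(hK _ (hmap z hz)).trans_lt hNK, fun k hk _ he => ?_⟩
    refine hS _ (hcb (hmap z hz)) (MP_ae5b4e_an_M.S1_eq_zero.2 ⟨k, hk, ?_⟩)
    refine he.trans ?_
    rw [pk]
    push_cast
    rfl
  have hρ0 : ∀ y ∈ OmN N, 0 ≤ rhoN N y := by
    intro y _
    have h1 := EH_le N y (Nat.zero_le N)
    rw [show Pf 0 y = Uf y from if_pos rfl] at h1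
    exact (Uf_pos y).le.trans h1
  have hA := ahlfors (OmN_open N) (rhoN_cont N) hρ0 (spp_rhoN (hk.trans hN1)) hfd hfO
  have hf0 : f 0 = x 0 := by rw [hf]; simp
  have hfd0 : deriv f 0 = r * deriv x 0 := by
    have h1 : HasDerivAt x (deriv x 0) ((r : ℂ) * 0) := by
      rw [mul_zero]
      exact (hx.differentiableAt (isOpen_ball.mem_nhds (mem_ball_self one_pos))).hasDerivAt
    have h2 : HasDerivAt (fun z : ℂ => (r : ℂ) * z) ((r : ℂ) * 1) 0 :=
      (hasDerivAt_id (0 : ℂ)).const_mul (r : ℂ)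
    have h3 := h1.comp (0 : ℂ) h2
    rw [hf]
    change deriv (x ∘ fun z : ℂ => (r : ℂ) * z) 0 = _
    rw [h3.deriv]
    ring
  have h1 := EH_le N (x 0) hN1
  rw [show Pf k (x 0) = Kf k (x 0) from if_neg (by omega)] at h1
  rw [hf0, hfd0, norm_mul, Complex.norm_real, Real.norm_of_nonneg hr0.le] at hA
  exact (mul_le_mul_of_nonneg_right h1 (mul_nonneg hr0.le (norm_nonneg _))).trans hA

private theorem EH_mem {v : ℝ} {τ : ℂ} (hτ : τ ∈ Hp v) {z : ℂ} (hz : z ∈ ball (0 : ℂ) 1) :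
    τ + ((-v - τ.im : ℝ) : ℂ) * z ∈ Hp v := by
  have h1 : τ.im < -v := hτ
  have h2 : z.im < 1 := by
    rw [mem_ball_zero_iff] at hz
    exact ((le_abs_self _).trans (Complex.abs_im_le_norm z)).trans_lt hz
  change (τ + ((-v - τ.im : ℝ) : ℂ) * z).im < -v
  rw [Complex.add_im, Complex.im_ofReal_mul]
  nlinarith

private theorem EH_lin (τ : ℂ) (d : ℝ) : HasDerivAt (fun z : ℂ => τ + (d : ℂ) * z) (d : ℂ) 0 := by
  have h1 := ((hasDerivAt_id (0 : ℂ)).const_mul (d : ℂ)).const_add τ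
  rw [mul_one] at h1
  exact h1

/-- SCHOTTKY NEAR THE OMITTED VALUE `(k π)²`.

PROOF. As `T.SchF_r` and `T.sch` (T/SchF.lean): there `ahlfors` gives `rhoN N (x 0) * (r ‖x' 0‖) ≤ 2`, and
`Kf k (x 0) ≤ rhoN N (x 0)` for `1 ≤ k ≤ N` (`SchF_le`, `SchF_succ`: private, repeat them); `r → 1`. -/
theorem sch_k {k : ℕ} (hk : 1 ≤ k) {x : ℂ → ℂ} (hx : DifferentiableOn ℂ x (ball 0 1))
    (hS : ∀ z ∈ ball (0 : ℂ) 1, S1 (x z) ≠ 0) : Kf k (x 0) * ‖deriv x 0‖ ≤ 2 := by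
  by_contra hc
  rw [not_le] at hc
  obtain ⟨A, hA⟩ : ∃ A : ℝ, A = Kf k (x 0) * ‖deriv x 0‖ := ⟨_, rfl⟩
  rw [← hA] at hc
  have hA0 : 0 < A := by linarith
  have hq : 2 / A < 1 := (div_lt_one hA0).2 hc
  have hq0 : 0 < 2 / A := by positivity
  have h1 := EH_r hk hx hS (r := (2 / A + 1) / 2) (by linarith) (by linarith)
  have h2 : Kf k (x 0) * ((2 / A + 1) / 2 * ‖deriv x 0‖) = (2 / A + 1) / 2 * A := by
    rw [hA]; ring
  have h3 : (2 / A + 1) / 2 * A = (2 + A) / 2 := by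
    field_simp
  rw [h2, h3] at h1
  linarith

/-- PROOF. As `T.Xf_sch` (T/GrC.lean): `sch_k` for `z ↦ Xf q γ f (τ + d z)`, `d = - v - Im τ`. -/
theorem Xf_sch_k (h : Sl q C γ v f) {k : ℕ} (hk : 1 ≤ k) {τ : ℂ} (hτ : τ ∈ Hp v) :
    Kf k (Xf q γ f τ) * (‖deriv (Xf q γ f) τ‖ * (-v - τ.im)) ≤ 2 := by
  have hd : 0 < -v - τ.im := by
    have h1 : τ.im < -v := hτ
    linarith
  obtain ⟨d, hdd⟩ : ∃ d : ℝ, d = -v - τ.im := ⟨_, rfl⟩
  have hX := Xf_diff h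
  have hmem : ∀ z ∈ ball (0 : ℂ) 1, τ + (d : ℂ) * z ∈ Hp v := by
    intro z hz
    rw [hdd]
    exact EH_mem hτ hz
  rw [← hdd] at hd ⊢
  have h1 := sch_k hk (x := fun z => Xf q γ f (τ + d * z)) (hX.comp (by fun_prop) hmem)
    (fun z hz => h.s1 _ (hmem z hz))
  have h2 : HasDerivAt (fun z : ℂ => Xf q γ f (τ + d * z)) (deriv (Xf q γ f) τ * d) 0 := by
    have h3 : HasDerivAt (Xf q γ f) (deriv (Xf q γ f) τ) (τ + (d : ℂ) * 0) := by
      rw [mul_zero, add_zero]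
      exact (hX.differentiableAt ((Hp_open v).mem_nhds hτ)).hasDerivAt
    exact h3.comp (0 : ℂ) (EH_lin τ d)
  rw [h2.deriv, norm_mul, Complex.norm_real, Real.norm_of_nonneg hd.le] at h1
  simpa only [mul_zero, add_zero] using h1

/-- `X ≠ (k π)²` on the slice: `h.s1`, `M.S1_eq_zero` (as in T/SchF.lean). -/
theorem Xf_ne_pk (h : Sl q C γ v f) {k : ℕ} (hk : 1 ≤ k) {τ : ℂ} (hτ : τ ∈ Hp v) :
    Xf q γ f τ ≠ pk k := by
  intro he
  refine h.s1 τ hτ (MP_ae5b4e_an_M.S1_eq_zero.2 ⟨k, hk, ?_⟩)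
  refine (he : q (f τ) * (γ * deriv f τ) ^ 2 = pk k).trans ?_
  rw [pk]
  push_cast
  rfl

/-- UNIFORM DISTANCE FROM THE OMITTED VALUES at a fixed distance `a` from the line.

PROOF. `S0 = max 1 (2 γ √C)`: `T.Xf_apriori` (depth `≥ 2` by `hd`) gives `‖X‖ ≤ 1` at `tp v x S0`, so
`T (s) := ‖X (tp v x s) - pk k‖ ≥ 8` at `s = S0` (`π² - 1 > 8`). Let `R = Rk k`, `8 < Ak k = R / e`. Suppose
`T a < 8`; `s2` := the first `s ≥ a` with `T s = 8`; on `[a, s2]` `0 < T ≤ 8 < Ak k` (`Xf_ne_pk`), so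
`Kf k = (1/10) / (T log (R / T))` and `Xf_sch_k` says `‖X'‖ ≤ 20 T log (R / T) / s`. `l (s) := log (R / T s) =
log R - log ‖X - pk k‖` is differentiable with `|l'| ≤ ‖X'‖ / T ≤ 20 l / s` (derivative of `log ‖g‖` is
`Re (g' / g)` up to the factor `- I`), so `s ^ 20 l (s)` is nondecreasing on `[a, s2]`:
`l a ≤ (S0 / a) ^ 20 log (R / 8)`, `T a ≥ R exp (- (S0 / a) ^ 20 log (R / 8)) > 0`. Minimum over
`k ≤ K` and with `8`. -/
theorem dist_pk (K : ℕ) {C γ a : ℝ} (hC : 0 < C) (hγ : 1 ≤ γ) (ha : 0 < a) (ha1 : a ≤ 1) :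
    ∃ t0 : ℝ, 0 < t0 ∧ ∀ (q : ℂ → ℂ) (v : ℝ) (f : ℂ → ℂ), Sl q C γ v f → Deep v f → ∀ k : ℕ, 1 ≤ k →
      k ≤ K → ∀ x : ℝ, t0 ≤ ‖Xf q γ f (tp v x a) - pk k‖ := by
  obtain ⟨S0, hS0⟩ : ∃ S0 : ℝ, S0 = max 1 (2 * γ * √C) := ⟨_, rfl⟩
  have hS1 : 1 ≤ S0 := by rw [hS0]; exact le_max_left _ _
  have hS2 : 2 * γ * √C ≤ S0 := by rw [hS0]; exact le_max_right _ _
  obtain ⟨M, hM⟩ : ∃ M : ℝ, M = (S0 / a) ^ 20 := ⟨_, rfl⟩
  have hM0 : 0 < M := by rw [hM]; positivity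
  obtain ⟨Q, hQ⟩ : ∃ Q : ℝ, Q = Real.log (3 * 10 ^ 6 * (K + 1) / 8) := ⟨_, rfl⟩
  refine ⟨min 8 (Real.exp (-(M * Q))), by positivity, ?_⟩
  intro q v f h hd k hk hkK x
  have hk' : (1 : ℝ) ≤ k := by exact_mod_cast hk
  have hkK' : (k : ℝ) ≤ K := by exact_mod_cast hkK
  have hR : Rk k = 3 * 10 ^ 6 * k := rfl
  have hR1 : 3 * 10 ^ 6 ≤ Rk k := by rw [hR]; linarith
  have hR0 : 0 < Rk k := by linarith
  have hA8 : 8 < Ak k := by
    have e1 : Real.exp 1 < 3 := by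
      have := Real.exp_one_lt_d9
      linarith
    unfold Ak
    rw [lt_div_iff₀ (Real.exp_pos 1)]
    linarith
  have hL8 : 0 ≤ Real.log (Rk k / 8) := Real.log_nonneg (by linarith)
  have hLQ : Real.log (Rk k / 8) ≤ Q := by
    rw [hQ, hR]
    refine Real.log_le_log (by positivity) ?_
    linarith
  -- the function along the vertical path
  obtain ⟨g, hg⟩ : ∃ g : ℝ → ℂ, g = fun s => Xf q γ f (tp v x s) - pk k := ⟨_, rfl⟩
  have hgs : ∀ s, g s = Xf q γ f (tp v x s) - pk k := fun s => by rw [hg]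
  have hmem : ∀ s, 0 < s → tp v x s ∈ Hp v := fun s hs => tp_mem hs
  have hX := Xf_diff h
  have hgd : ∀ s, 0 < s → HasDerivAt g (deriv (Xf q γ f) (tp v x s) * -I) s := by
    intro s hs
    have h1 : HasDerivAt (Xf q γ f) (deriv (Xf q γ f) (tp v x s)) (tp v x s) :=
      (hX.differentiableAt ((Hp_open v).mem_nhds (hmem s hs))).hasDerivAt
    have h2 : HasDerivAt (fun s : ℝ => tp v x s) (-I) s := by
      have h3 : HasDerivAt (fun s : ℝ => ((v + s : ℝ) : ℂ)) ((1 : ℝ) : ℂ) s :=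
        HasDerivAt.ofReal_comp ((hasDerivAt_id s).const_add v)
      have h4 := (h3.mul_const I).const_sub (x : ℂ)
      refine h4.congr_deriv ?_
      simp
    have h5 : HasDerivAt (Xf q γ f ∘ fun s : ℝ => tp v x s)
        (deriv (Xf q γ f) (tp v x s) * -I) s :=
      HasDerivAt.comp (h₂ := Xf q γ f) (h := fun s : ℝ => tp v x s) s h1 h2
    rw [hg]
    exact h5.sub_const (pk k)
  have hg0 : ∀ s, 0 < s → g s ≠ 0 := by
    intro s hs
    rw [hgs]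
    exact sub_ne_zero.2 (Xf_ne_pk h hk (hmem s hs))
  have hgn : ∀ s, 0 < s → 0 < ‖g s‖ := fun s hs => norm_pos_iff.2 (hg0 s hs)
  have hgc : ContinuousOn g (Icc a S0) := fun s hs =>
    (hgd s (ha.trans_le hs.1)).continuousAt.continuousWithinAt
  -- the value at `S0`
  have hT : 8 ≤ ‖g S0‖ := by
    have h0 : 0 < S0 := by linarith
    have h1 := Xf_apriori h (hmem S0 h0) (by linarith [hd _ (hmem S0 h0)])
    have h2 : -v - (tp v x S0).im = S0 := by rw [tp_im]; ring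
    rw [h2] at h1
    have h3 : 4 * C * γ ^ 2 ≤ S0 ^ 2 := by
      have h4 : (2 * γ * √C) ^ 2 ≤ S0 ^ 2 :=
        pow_le_pow_left₀ (by positivity) hS2 2
      have h5 : (2 * γ * √C) ^ 2 = 4 * C * γ ^ 2 := by
        rw [mul_pow, mul_pow, Real.sq_sqrt hC.le]; ring
      linarith
    have h6 : ‖Xf q γ f (tp v x S0)‖ ≤ 1 := by
      have h7 : ‖Xf q γ f (tp v x S0)‖ * S0 ^ 2 ≤ 1 * S0 ^ 2 := by linarith
      exact le_of_mul_le_mul_right h7 (by positivity)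
    have h8 : ‖pk k‖ = (k * Real.pi) ^ 2 := by
      rw [pk, norm_pow, Complex.norm_real, Real.norm_of_nonneg (by positivity)]
    have h9 : 9 ≤ ‖pk k‖ := by
      rw [h8]
      have h10 : 3 ≤ k * Real.pi := by nlinarith [Real.pi_gt_three]
      nlinarith
    have h11 := norm_sub_norm_le (pk k) (Xf q γ f (tp v x S0))
    rw [norm_sub_rev] at h11
    rw [hgs]
    linarith
  by_contra hc
  rw [not_le, lt_min_iff, ← hgs] at hc
  obtain ⟨hc8, hcE⟩ := hc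
  -- the first time with distance `8`
  obtain ⟨A, hAd⟩ : ∃ A : Set ℝ, A = {s | s ∈ Icc a S0 ∧ 8 ≤ ‖g s‖} := ⟨_, rfl⟩
  have hAc : IsClosed A := by
    have h1 : A = Icc a S0 ∩ (fun s => ‖g s‖) ⁻¹' Ici 8 := by
      rw [hAd]; rfl
    rw [h1]
    exact hgc.norm.preimage_isClosed_of_isClosed isClosed_Icc isClosed_Ici
  have hAn : A.Nonempty := ⟨S0, by rw [hAd]; exact ⟨⟨by linarith, le_rfl⟩, hT⟩⟩
  have hAb : BddBelow A := ⟨a, fun s hs => by rw [hAd] at hs; exact hs.1.1⟩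
  obtain ⟨s2, hs2⟩ : ∃ s2 : ℝ, s2 = sInf A := ⟨_, rfl⟩
  have hs2A : s2 ∈ A := by rw [hs2]; exact hAc.csInf_mem hAn hAb
  have hs2' := hs2A
  rw [hAd] at hs2'
  obtain ⟨⟨has2, hs2S⟩, hs28⟩ := hs2'
  have hlt : ∀ s ∈ Ico a s2, ‖g s‖ < 8 := by
    intro s hs
    by_contra h1
    rw [not_lt] at h1
    have h2 : s ∈ A := by
      rw [hAd]
      exact ⟨⟨hs.1, hs.2.le.trans hs2S⟩, h1⟩
    have h3 := csInf_le hAb h2
    rw [← hs2] at h3
    linarith [hs.2]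
  -- the function `s ^ 20 l (s)`
  obtain ⟨l, hl⟩ : ∃ l : ℝ → ℝ, l = fun s => Real.log (Rk k) - 1 / 2 * Real.log (‖g s‖ ^ 2) :=
    ⟨_, rfl⟩
  have hls : ∀ s, l s = Real.log (Rk k) - Real.log ‖g s‖ := by
    intro s
    rw [hl]
    beta_reduce
    rw [Real.log_pow]
    push_cast
    ring
  have hld : ∀ s, 0 < s → HasDerivAt l (-(inner ℝ (g s) (deriv (Xf q γ f) (tp v x s) * -I) /
      ‖g s‖ ^ 2)) s := by
    intro s hs
    have h1 := (hgd s hs).norm_sq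
    have h2 := h1.log (by have := hgn s hs; positivity)
    have h3 := (h2.const_mul (1 / 2 : ℝ)).const_sub (Real.log (Rk k))
    rw [hl]
    refine h3.congr_deriv ?_
    ring
  have hkey : ∀ s ∈ Ico a s2, ‖deriv (Xf q γ f) (tp v x s)‖ * s ≤ 20 * (‖g s‖ * l s) := by
    intro s hs
    have hs0 : 0 < s := ha.trans_le hs.1
    have h1 := Xf_sch_k h hk (hmem s hs0)
    have h2 : -v - (tp v x s).im = s := by rw [tp_im]; ring
    have h3 : ‖Xf q γ f (tp v x s) - pk k‖ < Ak k := by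
      rw [← hgs]
      linarith [hlt s hs]
    rw [h2] at h1
    unfold Kf at h1
    rw [if_pos h3, ← hgs, Real.log_div hR0.ne' (hgn s hs0).ne', ← hls] at h1
    have h4 : 0 < l s := by
      rw [hls, sub_pos]
      exact Real.log_lt_log (hgn s hs0) (by linarith [hlt s hs])
    have h5 : 0 < ‖g s‖ * l s := mul_pos (hgn s hs0) h4
    rw [div_mul_eq_mul_div, div_le_iff₀ h5] at h1
    linarith
  have hmono : MonotoneOn (fun s => s ^ 20 * l s) (Icc a s2) := by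
    refine monotoneOn_of_deriv_nonneg (convex_Icc a s2) ?_ ?_ ?_
    · intro s hs
      exact ((continuousAt_id.pow 20).mul
        (hld s (ha.trans_le hs.1)).continuousAt).continuousWithinAt
    · intro s hs
      rw [interior_Icc] at hs
      exact (((hasDerivAt_id s).pow 20).mul
        (hld s (ha.trans hs.1))).differentiableAt.differentiableWithinAt
    · intro s hs
      rw [interior_Icc] at hs
      have hs0 : 0 < s := ha.trans hs.1
      have h1 : HasDerivAt (fun s : ℝ => s ^ 20 * l s) (20 * s ^ 19 * l s +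
          s ^ 20 * (-(inner ℝ (g s) (deriv (Xf q γ f) (tp v x s) * -I) / ‖g s‖ ^ 2))) s := by
        have h2 := (hasDerivAt_pow 20 s).mul (hld s hs0)
        refine h2.congr_deriv ?_
        norm_num
      rw [h1.deriv]
      have h3 := hkey s ⟨hs.1.le, hs.2⟩
      have h4 : |inner ℝ (g s) (deriv (Xf q γ f) (tp v x s) * -I)| ≤
          ‖g s‖ * ‖deriv (Xf q γ f) (tp v x s)‖ := by
        refine (abs_real_inner_le_norm _ _).trans ?_
        rw [norm_mul, norm_neg, Complex.norm_I, mul_one]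
      have h5 := hgn s hs0
      have h6 : inner ℝ (g s) (deriv (Xf q γ f) (tp v x s) * -I) / ‖g s‖ ^ 2 * s ≤ 20 * l s := by
        rw [div_mul_eq_mul_div, div_le_iff₀ (by positivity)]
        have h7 := (le_abs_self _).trans h4
        calc inner ℝ (g s) (deriv (Xf q γ f) (tp v x s) * -I) * s
            ≤ ‖g s‖ * ‖deriv (Xf q γ f) (tp v x s)‖ * s := mul_le_mul_of_nonneg_right h7 hs0.le
          _ = ‖g s‖ * (‖deriv (Xf q γ f) (tp v x s)‖ * s) := by ring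
          _ ≤ ‖g s‖ * (20 * (‖g s‖ * l s)) := mul_le_mul_of_nonneg_left h3 h5.le
          _ = 20 * l s * ‖g s‖ ^ 2 := by ring
      have h8 : 20 * s ^ 19 * l s +
          s ^ 20 * (-(inner ℝ (g s) (deriv (Xf q γ f) (tp v x s) * -I) / ‖g s‖ ^ 2)) =
          s ^ 19 * (20 * l s -
            inner ℝ (g s) (deriv (Xf q γ f) (tp v x s) * -I) / ‖g s‖ ^ 2 * s) := by ring
      rw [h8]
      exact mul_nonneg (by positivity) (by linarith)
  have hfin := hmono ⟨le_rfl, has2⟩ ⟨has2, le_rfl⟩ has2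
  beta_reduce at hfin
  have hs20 : 0 < s2 := ha.trans_le has2
  have hl2 : l s2 ≤ Real.log (Rk k / 8) := by
    rw [hls, Real.log_div hR0.ne' (by norm_num)]
    linarith [Real.log_le_log (by norm_num) hs28]
  have h1 : s2 ^ 20 * l s2 ≤ S0 ^ 20 * Real.log (Rk k / 8) := by
    calc s2 ^ 20 * l s2 ≤ s2 ^ 20 * Real.log (Rk k / 8) :=
          mul_le_mul_of_nonneg_left hl2 (by positivity)
      _ ≤ S0 ^ 20 * Real.log (Rk k / 8) :=
          mul_le_mul_of_nonneg_right (pow_le_pow_left₀ hs20.le hs2S 20) hL8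
  have h2 : l a ≤ M * Real.log (Rk k / 8) := by
    have h3 : a ^ 20 * l a ≤ a ^ 20 * (M * Real.log (Rk k / 8)) := by
      have h4 : a ^ 20 * (M * Real.log (Rk k / 8)) = S0 ^ 20 * Real.log (Rk k / 8) := by
        rw [hM, div_pow]
        field_simp
      rw [h4]
      exact hfin.trans h1
    exact le_of_mul_le_mul_left h3 (by positivity)
  have h5 : 0 ≤ Real.log (Rk k) := Real.log_nonneg (by linarith)
  have h6 : M * Real.log (Rk k / 8) ≤ M * Q := mul_le_mul_of_nonneg_left hLQ hM0.le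
  rw [hls] at h2
  have h7 : -(M * Q) ≤ Real.log ‖g a‖ := by linarith
  have h8 := (Real.le_log_iff_exp_le (hgn a ha)).1 h7
  linarith

end Pool.Agent.MP_ae5b4e_an_PK
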