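import Mathlib

/-!
# POR (iii), N2, type I, PK, block EL: growth of the logarithm along the vertical path (abstract)
-/

noncomputable section

namespace Pool.Agent.MP_ae5b4e_an_PK

open Complex Set Filter Topology Metric

private theorem EI_sp {w w0 : ℂ} (hw : w.re < 0) (hw0 : w0.re < 0) :
    ‖w - w0‖ ≤ ‖w + (starRingEnd ℂ) w0‖ := by
  rw [← abs_of_nonneg (norm_nonneg (w - w0)),
    ← abs_of_nonneg (norm_nonneg (w + (starRingEnd ℂ) w0)), ← sq_le_sq, ← Complex.normSq_eq_norm_sq,
    ← Complex.normSq_eq_norm_sq, Complex.normSq_apply, Complex.normSq_apply]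
  simp only [Complex.sub_re, Complex.sub_im, Complex.conj_re, Complex.conj_im, Complex.add_re,
    Complex.add_im]
  nlinarith [mul_pos_of_neg_of_neg hw hw0]

/-- A holomorphic function with negative real part (Schwarz-Pick with the constant 2).

PROOF. `g (z) = (om (τ + r z) - w0) / (om (τ + r z) + conj w0)`, `w0 = om τ`, maps the unit ball into
itself (`|w - w0| < |w + conj w0|` for `Re w, Re w0 < 0`), `g 0 = 0`; `Complex.norm_deriv_le_div_of_mapsTo_ball`;
`g' 0 = r om' τ / (2 Re w0)` (as `T.f_der` in T/GrC.lean). -/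
theorem pick_left {om : ℂ → ℂ} {τ : ℂ} {r : ℝ} (hr : 0 < r) (hd : DifferentiableOn ℂ om (ball τ r))
    (hn : ∀ z ∈ ball τ r, (om z).re < 0) : ‖deriv om τ‖ * r ≤ 2 * -(om τ).re := by
  have hτ : τ ∈ ball τ r := mem_ball_self hr
  obtain ⟨w0, hw⟩ : ∃ w0 : ℂ, w0 = om τ := ⟨_, rfl⟩
  have hw0 : w0.re < 0 := by
    rw [hw]
    exact hn τ hτ
  have hne : ∀ w : ℂ, w.re < 0 → w + (starRingEnd ℂ) w0 ≠ 0 := by
    intro w hw1 h0
    have h1 := congrArg Complex.re h0
    rw [Complex.add_re, Complex.conj_re, Complex.zero_re] at h1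
    linarith
  obtain ⟨g, hg⟩ : ∃ g : ℂ → ℂ, g = fun z =>
    (om z - w0) / (om z + (starRingEnd ℂ) w0) := ⟨_, rfl⟩
  have hgd : DifferentiableOn ℂ g (ball τ r) := by
    rw [hg]
    exact (hd.sub_const w0).div (hd.add_const _) fun z hz => hne _ (hn z hz)
  have hg0 : g τ = 0 := by
    rw [hg]
    simp only
    rw [← hw, sub_self, zero_div]
  have hgm : MapsTo g (ball τ r) (closedBall (g τ) 1) := by
    intro z hz
    rw [hg0, mem_closedBall_zero_iff, hg]
    simp only
    rw [norm_div]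
    exact div_le_one_of_le₀ (EI_sp (hn z hz) hw0) (norm_nonneg _)
  have h1 := norm_deriv_le_div_of_mapsTo_ball hgd hgm hr
  have h2 : HasDerivAt om (deriv om τ) τ :=
    (hd.differentiableAt (isOpen_ball.mem_nhds hτ)).hasDerivAt
  have h4 := (h2.sub_const w0).fun_div (h2.add_const ((starRingEnd ℂ) w0))
    (by rw [← hw]; exact hne w0 hw0)
  rw [← hw, sub_self, zero_mul, sub_zero] at h4
  have h5 : deriv g τ = deriv om τ / (w0 + (starRingEnd ℂ) w0) := by
    rw [hg, h4.deriv]
    have h6 := hne w0 hw0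
    field_simp
  have h6 : w0 + (starRingEnd ℂ) w0 = ((2 * w0.re : ℝ) : ℂ) := Complex.add_conj w0
  rw [h5, h6, norm_div, Complex.norm_real, Real.norm_eq_abs, abs_of_neg (by linarith),
    div_le_div_iff₀ (by linarith) hr] at h1
  rw [← hw]
  linarith

/-- GROWTH. `p s = p0 - (v + s) i` vertical path, `om` holomorphic on the discs of radius `s / 8`, with
`- Re om ≤ A (1 + log (1 / d))` at distance `d ≤ 9/8` from the line (`d = - v - Im τ`).

PROOF. For `τ` in the disc of radius `s / 16` about `p s`: `d ≥ 15 s / 16`, `- Re om τ ≤ A (1 + |log (1/d)|) ≤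
2 A (1 + log (1 / s))` (bounds of `log` at `s/2 ≤ d ≤ 9/8`), `pick_left` with radius `s / 16`: `‖om' τ‖ ≤ 64 A (1 + log (1/s)) / s`.
So on `[σ, a]`: `g s = om (p s)`, `‖g'‖ ≤ 64 A (1 + log (1/s)) / s = - (d/ds) (64 A (L + L²/2))`, `L = log (1/s)`:
`‖g s‖ ≤ ‖g a‖ + 64 A (L + L² / 2)` (`image_norm_le_of_norm_deriv_right_le_deriv_boundary` going down, or
the mean value inequality for `g ∘ exp (-·)`), and inside the disc of radius `s/16`:
`‖om τ - g s‖ ≤ (s / 16) * 64 A (1 + L) / s = 4 A (1 + L)`. Together `≤ B0 + 64 A (L + L²/2) + 4 A (1 + L) ≤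
(B0 + 100 A) (1 + L²)` (`L ≤ (1 + L²)/2`). -/
theorem om_growth {om : ℂ → ℂ} {x v σ a A B0 : ℝ} (hσ : 0 < σ) (hσa : σ < a) (ha : a ≤ 1)
    (hA : 0 ≤ A) (hB0 : 0 ≤ B0)
    (hd : ∀ s ∈ Icc σ a, DifferentiableOn ℂ om (ball ((x : ℂ) - (v + s : ℝ) * I) (s / 8)))
    (hn : ∀ s ∈ Icc σ a, ∀ τ ∈ ball ((x : ℂ) - (v + s : ℝ) * I) (s / 8), (om τ).re < 0 ∧
      -(om τ).re ≤ A * (1 + |Real.log (1 / (-v - τ.im))|))
    (h0 : ‖om ((x : ℂ) - (v + a : ℝ) * I)‖ ≤ B0) :
    ∀ s ∈ Icc σ a, ∀ τ ∈ ball ((x : ℂ) - (v + s : ℝ) * I) (s / 16),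
      ‖om τ‖ ≤ (B0 + 200 * A) * (1 + Real.log (1 / s) ^ 2) := by
  intro s hs τ hτ
  have hs0 : 0 < s := hσ.trans_le hs.1
  have hs1 : s ≤ 1 := hs.2.trans ha
  obtain ⟨p, hp⟩ : ∃ p : ℝ → ℂ, p = fun t : ℝ => (x : ℂ) - (v + t : ℝ) * I := ⟨_, rfl⟩
  have hp' : ∀ t : ℝ, (x : ℂ) - (v + t : ℝ) * I = p t := fun t => by rw [hp]
  have hpim : ∀ t : ℝ, -v - (p t).im = t := by
    intro t
    rw [hp]
    simp
  have hpd : ∀ t : ℝ, HasDerivAt p (-I) t := by
    intro t
    rw [hp]
    have h1 : HasDerivAt (fun t : ℝ => ((v + t : ℝ) : ℂ)) 1 t := by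
      have h2 := ((hasDerivAt_id t).const_add v).ofReal_comp
      simpa using h2
    have h3 := (h1.mul_const I).const_sub (x : ℂ)
    rw [one_mul] at h3
    exact h3
  -- the derivative on the path
  have hlog : ∀ t : ℝ, 0 < t → t ≤ 1 → |Real.log (1 / t)| = -Real.log t := by
    intro t h0 h1
    rw [one_div, Real.log_inv, abs_neg, abs_of_nonpos (Real.log_nonpos h0.le h1)]
  have hder : ∀ t ∈ Icc σ a, ‖deriv om (p t)‖ ≤ 16 * A * ((1 - Real.log t) / t) := by
    intro t ht
    have ht0 : 0 < t := hσ.trans_le ht.1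
    have h1 := pick_left (om := om) (τ := p t) (r := t / 8) (by linarith)
      (by rw [← hp']; exact hd t ht) (fun z hz => (hn t ht z (by rw [hp']; exact hz)).1)
    have h2 := (hn t ht (p t) (by rw [hp']; exact mem_ball_self (by linarith))).2
    rw [hpim, hlog t ht0 (ht.2.trans ha)] at h2
    rw [mul_div_assoc', le_div_iff₀ ht0]
    linarith
  -- the mean value inequality on the path
  have hmv : ‖om (p a) - om (p s)‖ ≤ 16 * A * (-Real.log s + Real.log s ^ 2 / 2) := by
    have hφ : ∀ t : ℝ, 0 < t → HasDerivAt (fun t => 16 * A * ((-Real.log s + Real.log s ^ 2 / 2) -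
        (-Real.log t + Real.log t ^ 2 / 2))) (16 * A * ((1 - Real.log t) / t)) t := by
      intro t ht
      have h1 := Real.hasDerivAt_log ht.ne'
      have h2 := ((h1.neg.add ((h1.pow 2).div_const 2)).const_sub
        (-Real.log s + Real.log s ^ 2 / 2)).const_mul (16 * A)
      refine h2.congr_deriv ?_
      push_cast
      field_simp
      ring
    have h1 := image_norm_le_of_norm_deriv_right_le_deriv_boundary'
      (f := fun t : ℝ => om (p t) - om (p s)) (a := s) (b := a)
      (f' := fun t : ℝ => deriv om (p t) * -I)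
      (B := fun t => 16 * A * ((-Real.log s + Real.log s ^ 2 / 2) -
        (-Real.log t + Real.log t ^ 2 / 2)))
      (B' := fun t => 16 * A * ((1 - Real.log t) / t)) ?_ ?_ ?_ ?_ ?_ ?_
      (right_mem_Icc.2 hs.2)
    · refine h1.trans ?_
      have h2 : 0 ≤ -Real.log a + Real.log a ^ 2 / 2 := by
        have h3 := Real.log_nonpos (hσ.trans hσa).le ha
        have h4 := sq_nonneg (Real.log a)
        linarith
      have h3 : 0 ≤ 16 * A * (-Real.log a + Real.log a ^ 2 / 2) := mul_nonneg (by linarith) h2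
      have h4 : 16 * A * ((-Real.log s + Real.log s ^ 2 / 2) -
          (-Real.log a + Real.log a ^ 2 / 2)) = 16 * A * (-Real.log s + Real.log s ^ 2 / 2) -
          16 * A * (-Real.log a + Real.log a ^ 2 / 2) := by ring
      rw [h4]
      linarith
    · intro t ht
      have ht' : t ∈ Icc σ a := ⟨hs.1.trans ht.1, ht.2⟩
      have ht0 : 0 < t := hσ.trans_le ht'.1
      have h2 : DifferentiableAt ℂ om (p t) := by
        have h3 := hd t ht'
        rw [hp'] at h3
        exact h3.differentiableAt (isOpen_ball.mem_nhds (mem_ball_self (by linarith)))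
      exact ((ContinuousAt.comp (g := om) (f := p) h2.continuousAt
        (hpd t).continuousAt).sub continuousAt_const).continuousWithinAt
    · intro t ht
      have ht' : t ∈ Icc σ a := ⟨hs.1.trans ht.1, ht.2.le⟩
      have ht0 : 0 < t := hσ.trans_le ht'.1
      have h2 : DifferentiableAt ℂ om (p t) := by
        have h3 := hd t ht'
        rw [hp'] at h3
        exact h3.differentiableAt (isOpen_ball.mem_nhds (mem_ball_self (by linarith)))
      exact ((HasDerivAt.comp t (h₂ := om) (h := p) h2.hasDerivAt (hpd t)).sub_const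
        (om (p s))).hasDerivWithinAt
    · simp
    · intro t ht
      exact (hφ t (hs0.trans_le ht.1)).continuousAt.continuousWithinAt
    · intro t ht
      exact (hφ t (hs0.trans_le ht.1)).hasDerivWithinAt
    · intro t ht
      rw [norm_mul, norm_neg, norm_I, mul_one]
      exact hder t ⟨hs.1.trans ht.1, ht.2.le⟩
  -- inside the disc
  obtain ⟨Λ, hΛ⟩ : ∃ Λ : ℝ, Λ = -Real.log s := ⟨_, rfl⟩
  have hΛ0 : 0 ≤ Λ := by
    rw [hΛ]
    have := Real.log_nonpos hs0.le hs1
    linarith
  have hlogs : Real.log (1 / s) = Λ := by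
    rw [one_div, Real.log_inv, hΛ]
  have hmv' : ‖om (p a) - om (p s)‖ ≤ 16 * A * (Λ + Λ ^ 2 / 2) := by
    have h1 : Λ ^ 2 = Real.log s ^ 2 := by
      rw [hΛ, neg_sq]
    rw [h1, hΛ]
    exact hmv
  rw [hp'] at hτ h0
  have hin : ∀ w ∈ ball (p s) (s / 16), w ∈ ball (p s) (s / 8) := fun w hw =>
    ball_subset_ball (by linarith) hw
  have hdiff : DifferentiableOn ℂ om (ball (p s) (s / 8)) := by
    rw [← hp']
    exact hd s hs
  have hder2 : ∀ w ∈ ball (p s) (s / 16), ‖deriv om w‖ ≤ 64 * A * (1 + Λ) / s := by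
    intro w hw
    have hsub : ball w (s / 16) ⊆ ball (p s) (s / 8) := by
      refine ball_subset_ball' ?_
      have := mem_ball.1 hw
      linarith
    have h1 := pick_left (om := om) (τ := w) (r := s / 16) (by linarith)
      (hdiff.mono hsub) (fun z hz => (hn s hs z (by rw [hp']; exact hsub hz)).1)
    have h2 := (hn s hs w (by rw [hp']; exact hin w hw)).2
    obtain ⟨d, hdd⟩ : ∃ d : ℝ, d = -v - w.im := ⟨_, rfl⟩
    rw [← hdd] at h2
    have h3 : |d - s| ≤ s / 16 := by
      have h4 := Complex.abs_im_le_norm (w - p s)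
      rw [Complex.sub_im] at h4
      have h5 := mem_ball_iff_norm.1 hw
      have h6 : d - s = -(w.im - (p s).im) := by
        have := hpim s
        linarith
      rw [h6, abs_neg]
      linarith
    rw [abs_le] at h3
    have hd0 : 0 < d := by linarith
    have h4 : |Real.log (1 / d)| ≤ 1 + Λ := by
      rw [one_div, Real.log_inv, abs_neg, abs_le]
      constructor
      · have h5 : Real.log (15 / 16 * s) ≤ Real.log d :=
          Real.log_le_log (by positivity) (by linarith)
        rw [Real.log_mul (by norm_num) hs0.ne'] at h5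
        have h6 := Real.one_sub_inv_le_log_of_pos (by norm_num : (0 : ℝ) < 15 / 16)
        norm_num at h6
        linarith
      · have h5 : Real.log d ≤ Real.log (17 / 16 * s) :=
          Real.log_le_log hd0 (by linarith)
        rw [Real.log_mul (by norm_num) hs0.ne'] at h5
        have h6 := Real.log_le_sub_one_of_pos (by norm_num : (0 : ℝ) < 17 / 16)
        linarith
    have h5 : A * (1 + |Real.log (1 / d)|) ≤ A * (1 + (1 + Λ)) :=
      mul_le_mul_of_nonneg_left (by linarith) hA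
    have h6 : 0 ≤ A * Λ := mul_nonneg hA hΛ0
    rw [le_div_iff₀ hs0]
    linarith
  have h1 : ‖om τ - om (p s)‖ ≤ 64 * A * (1 + Λ) / s * ‖τ - p s‖ :=
    Convex.norm_image_sub_le_of_norm_deriv_le
      (fun w hw => hdiff.differentiableAt (isOpen_ball.mem_nhds (hin w hw))) hder2
      (convex_ball (p s) (s / 16)) (mem_ball_self (by linarith)) hτ
  have h2 : ‖τ - p s‖ ≤ s / 16 := (mem_ball_iff_norm.1 hτ).le
  have h3 : 64 * A * (1 + Λ) / s * ‖τ - p s‖ ≤ 64 * A * (1 + Λ) / s * (s / 16) :=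
    mul_le_mul_of_nonneg_left h2 (by positivity)
  have h4 : 64 * A * (1 + Λ) / s * (s / 16) = 4 * A * (1 + Λ) := by
    field_simp
    ring
  have h5 : ‖om τ‖ ≤ ‖om (p a)‖ + ‖om (p a) - om (p s)‖ + ‖om τ - om (p s)‖ := by
    have e1 : om τ = om (p a) - (om (p a) - om (p s)) + (om τ - om (p s)) := by ring
    have e2 := norm_add_le (om (p a) - (om (p a) - om (p s))) (om τ - om (p s))
    rw [← e1] at e2
    have e3 := norm_sub_le (om (p a)) (om (p a) - om (p s))
    linarith
  rw [hlogs]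
  have h6 : ‖om τ‖ ≤ B0 + 16 * A * (Λ + Λ ^ 2 / 2) + 4 * A * (1 + Λ) := by linarith
  refine h6.trans ?_
  have h7 : 0 ≤ B0 * Λ ^ 2 := by positivity
  have h8 : 0 ≤ A * (1 - Λ) ^ 2 := by positivity
  have h9 : 0 ≤ A * Λ ^ 2 := by positivity
  nlinarith

end Pool.Agent.MP_ae5b4e_an_PK
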