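import Pool.Agent.Lib.MP_ae5b4e_an_PK.GeoA

/-!
# POR (iii), N2, type I, PK: bounds of the depth of the label (part B)
-/

noncomputable section

namespace Pool.Agent.MP_ae5b4e_an_PK

open Complex Set Filter Topology Metric
open Pool.Agent.MP_ae5b4e_an_WB
open Pool.Agent.MP_ae5b4e_an_WD
open Pool.Agent.MP_ae5b4e_an_T
open Pool.Agent.MP_ae5b4e_an_M (S1 C1f Gf)

variable {q : ℂ → ℂ} {C γ v : ℝ} {f : ℂ → ℂ}

private theorem GeoB_pos (h : Sl q C γ v f) (x : ℝ) {s : ℝ} (hs : 0 < s) : 0 < dpt v f x s := by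
  have h1 := h.dep _ (tp_mem (v := v) (x := x) hs)
  rw [tp_im] at h1
  unfold dpt
  linarith

private theorem GeoB_deriv (h : Sl q C γ v f) (x : ℝ) {s : ℝ} (hs : 0 < s) :
    ‖-I * deriv f (tp v x s)‖ ≤ 2 * dpt v f x s / s := by
  have h1 := deriv_le h (tp_mem (v := v) (x := x) hs)
  rw [tp_im] at h1
  have h2 : -v - -(v + s) = s := by ring
  rw [h2] at h1
  rw [norm_mul, norm_neg, norm_I, one_mul]
  exact h1

/-- one scale `S0 ≥ 1` at which the label is at distance at most `1` from the point -/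
private theorem GeoB_S0 (ha : Asy f) :
    ∃ S0 : ℝ, 1 ≤ S0 ∧ ∃ M : ℝ, 0 ≤ M ∧ ∀ x : ℝ, ‖f (tp v x S0) - tp v x S0‖ ≤ 1 ∧
      S0 ^ 2 * dpt v f x S0 ≤ M := by
  obtain ⟨R, hR⟩ := ha 1 one_pos
  refine ⟨max 1 (R - v), le_max_left _ _,
    max 0 ((max 1 (R - v)) ^ 2 * (v + max 1 (R - v) + 1)), le_max_left _ _, fun x => ?_⟩
  have h1 : R ≤ -(tp v x (max 1 (R - v))).im := by
    rw [tp_im]
    have := le_max_right 1 (R - v)
    linarith
  have h2 := hR _ h1
  refine ⟨h2, le_trans ?_ (le_max_right _ _)⟩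
  refine mul_le_mul_of_nonneg_left ?_ (sq_nonneg _)
  have h3 := (Complex.abs_im_le_norm (f (tp v x (max 1 (R - v))) - tp v x (max 1 (R - v)))).trans
    h2
  rw [sub_im, tp_im] at h3
  have h4 := (abs_le.1 h3).1
  unfold dpt
  linarith

/-- uniform bound of the depth at the distances `s ≤ 1`.

PROOF. `ha 1`: `R`; let `S0 = max 1 (R - v) ` so that `- Im (tp v x S0) = v + S0 ≥ R` and `S0 ≥ 1`:
`dpt v f x S0 ≤ v + S0 + 1`. `sq_dpt_mono`: `s² dpt s ≤ S0² dpt S0` for `s ≤ 1 ≤ S0`. -/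
theorem dpt_bound (h : Sl q C γ v f) (ha : Asy f) :
    ∃ C2 : ℝ, 1 ≤ C2 ∧ ∀ x s : ℝ, 0 < s → s ≤ 1 → dpt v f x s ≤ C2 / s ^ 2 := by
  obtain ⟨S0, hS0, M, hM, hS⟩ := GeoB_S0 (v := v) ha
  refine ⟨max 1 M, le_max_left _ _, fun x s hs hs1 => ?_⟩
  have h1 : s ^ 2 * dpt v f x s ≤ S0 ^ 2 * dpt v f x S0 :=
    sq_dpt_mono h x (mem_Ioi.2 hs) (mem_Ioi.2 (by linarith)) (by linarith)
  rw [le_div_iff₀ (by positivity), mul_comm]
  exact h1.trans ((hS x).2.trans (le_max_right _ _))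

/-- uniform bound of the horizontal displacement of the label at a fixed distance `a`.

PROOF. With `S0` as in `dpt_bound` (`‖f (tp v x S0) - tp v x S0‖ ≤ 1`): the path `s ∈ [a, S0]`
has derivative `≤ 2 dpt s / s ≤ 2 S0² (v + S0 + 1) / a³` (`hasDerivAt_tp`, `deriv_le`,
`sq_dpt_mono`), so `‖f (tp v x a) - f (tp v x S0)‖ ≤ S0 * ..`
(`norm_image_sub_le_of_norm_deriv_le_segment` or
`Convex.norm_image_sub_le_of_norm_hasDerivWithin_le`). -/
theorem re_bound (h : Sl q C γ v f) (ha : Asy f) {a : ℝ} (ha0 : 0 < a) (ha1 : a ≤ 1) :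
    ∃ C3 : ℝ, 0 ≤ C3 ∧ ∀ x : ℝ, |(f (tp v x a)).re - x| ≤ C3 := by
  obtain ⟨S0, hS0, M, hM, hS⟩ := GeoB_S0 (v := v) ha
  refine ⟨2 * M / a ^ 3 * S0 + 1, by positivity, fun x => ?_⟩
  have h1 : ∀ r ∈ Icc a S0, HasDerivWithinAt (fun r : ℝ => f (tp v x r))
      (-I * deriv f (tp v x r)) (Icc a S0) r := fun r hr =>
    (hasDerivAt_tp h x (lt_of_lt_of_le ha0 hr.1)).hasDerivWithinAt
  have h2 : ∀ r ∈ Icc a S0, ‖-I * deriv f (tp v x r)‖ ≤ 2 * M / a ^ 3 := by
    intro r hr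
    have hr0 : 0 < r := lt_of_lt_of_le ha0 hr.1
    refine (GeoB_deriv h x hr0).trans ?_
    have h3 : r ^ 2 * dpt v f x r ≤ M :=
      (sq_dpt_mono h x (mem_Ioi.2 hr0) (mem_Ioi.2 (by linarith)) hr.2).trans (hS x).2
    have h4 : 2 * dpt v f x r / r = 2 * (r ^ 2 * dpt v f x r) / r ^ 3 := by
      field_simp
    rw [h4]
    have h5 : a ^ 3 ≤ r ^ 3 := pow_le_pow_left₀ ha0.le hr.1 3
    have h6 : 0 ≤ 2 * M := by linarith
    calc 2 * (r ^ 2 * dpt v f x r) / r ^ 3 ≤ 2 * M / r ^ 3 :=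
          div_le_div_of_nonneg_right (by linarith) (by positivity)
      _ ≤ 2 * M / a ^ 3 := div_le_div_of_nonneg_left h6 (by positivity) h5
  have h3 := (convex_Icc a S0).norm_image_sub_le_of_norm_hasDerivWithin_le h1 h2
    (right_mem_Icc.2 (ha1.trans hS0)) (left_mem_Icc.2 (ha1.trans hS0))
  have h4 : ‖a - S0‖ ≤ S0 := by
    rw [Real.norm_eq_abs, abs_le]
    constructor <;> linarith
  have h5 : ‖f (tp v x a) - f (tp v x S0)‖ ≤ 2 * M / a ^ 3 * S0 :=
    h3.trans (mul_le_mul_of_nonneg_left h4 (by positivity))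
  have h6 := (Complex.abs_re_le_norm _).trans h5
  have h7 := (Complex.abs_re_le_norm _).trans (hS x).1
  rw [sub_re] at h6
  rw [sub_re, tp_re] at h7
  have h8 : (f (tp v x a)).re - x =
      ((f (tp v x a)).re - (f (tp v x S0)).re) + ((f (tp v x S0)).re - x) := by ring
  rw [h8]
  exact (abs_add_le _ _).trans (add_le_add h6 h7)

/-- horizontal displacement along a path of bounded depth.

PROOF. `g r = Re f (tp v x r) + 4 D log r` and `g r = Re f (tp v x r) - 4 D log r` on `[s, a]`: the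
derivative of `Re f (tp v x r)` is `≤ ‖f'‖ ≤ 2 * (2 D) / r` in absolute value (`deriv_le`), the
derivative of `4 D log r` is `4 D / r`: the first is monotone, the second antitone. -/
theorem re_path (h : Sl q C γ v f) {x s a D : ℝ} (hs : 0 < s) (hsa : s ≤ a)
    (hD : ∀ r ∈ Icc s a, dpt v f x r ≤ 2 * D) :
    |(f (tp v x s)).re - (f (tp v x a)).re| ≤ 4 * D * Real.log (a / s) := by
  have ha : 0 < a := lt_of_lt_of_le hs hsa
  have hre : ∀ r : ℝ, 0 < r → HasDerivAt (fun r : ℝ => (f (tp v x r)).re)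
      (-I * deriv f (tp v x r)).re r := by
    intro r hr
    have h1 := hasDerivAt_tp h x hr
    have h2 := Complex.reCLM.hasFDerivAt.comp_hasDerivAt r h1
    exact h2
  have hlog : ∀ r : ℝ, 0 < r → HasDerivAt (fun r : ℝ => 4 * D * Real.log r) (4 * D * r⁻¹) r :=
    fun r hr => (Real.hasDerivAt_log hr.ne').const_mul _
  have hb : ∀ r ∈ Icc s a, |(-I * deriv f (tp v x r)).re| ≤ 4 * D * r⁻¹ := by
    intro r hr
    have hr0 : 0 < r := lt_of_lt_of_le hs hr.1
    refine (Complex.abs_re_le_norm _).trans ((GeoB_deriv h x hr0).trans ?_)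
    rw [div_eq_mul_inv]
    refine mul_le_mul_of_nonneg_right ?_ (by positivity)
    have := hD r hr
    linarith
  have hp : ∀ r ∈ Icc s a, 0 < r := fun r hr => lt_of_lt_of_le hs hr.1
  have e1 : ∀ r ∈ Icc s a, HasDerivAt (fun r : ℝ => (f (tp v x r)).re + 4 * D * Real.log r)
      ((-I * deriv f (tp v x r)).re + 4 * D * r⁻¹) r := fun r hr =>
    (hre r (hp r hr)).add (hlog r (hp r hr))
  have e2 : ∀ r ∈ Icc s a, HasDerivAt (fun r : ℝ => (f (tp v x r)).re - 4 * D * Real.log r)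
      ((-I * deriv f (tp v x r)).re - 4 * D * r⁻¹) r := fun r hr =>
    (hre r (hp r hr)).sub (hlog r (hp r hr))
  have m1 : MonotoneOn (fun r : ℝ => (f (tp v x r)).re + 4 * D * Real.log r) (Icc s a) := by
    refine monotoneOn_of_deriv_nonneg (convex_Icc s a)
      (fun r hr => (e1 r hr).continuousAt.continuousWithinAt)
      (fun r hr => (e1 r (interior_subset hr)).differentiableAt.differentiableWithinAt) ?_
    intro r hr
    rw [(e1 r (interior_subset hr)).deriv]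
    have := (abs_le.1 (hb r (interior_subset hr))).1
    linarith
  have m2 : AntitoneOn (fun r : ℝ => (f (tp v x r)).re - 4 * D * Real.log r) (Icc s a) := by
    refine antitoneOn_of_deriv_nonpos (convex_Icc s a)
      (fun r hr => (e2 r hr).continuousAt.continuousWithinAt)
      (fun r hr => (e2 r (interior_subset hr)).differentiableAt.differentiableWithinAt) ?_
    intro r hr
    rw [(e2 r (interior_subset hr)).deriv]
    have := (abs_le.1 (hb r (interior_subset hr))).2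
    linarith
  have k1 := m1 (left_mem_Icc.2 hsa) (right_mem_Icc.2 hsa) hsa
  have k2 := m2 (left_mem_Icc.2 hsa) (right_mem_Icc.2 hsa) hsa
  simp only at k1 k2
  rw [Real.log_div ha.ne' hs.ne', abs_le, mul_sub]
  constructor <;> linarith

/-- FIRST PASSAGE (coming from below).

PROOF. `dpt v f x` is continuous on `[s0, a]` (`hasDerivAt_tp`).
`σ = sSup {r ∈ [s0, a] : 2 D ≤ dpt r}` (a closed nonempty bounded set): `2 D ≤ dpt σ`; for
`r ∈ (σ, a]` `dpt r < 2 D`, so `σ < a` and by continuity `dpt σ ≤ 2 D`. -/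
theorem first_passage (h : Sl q C γ v f) {x s0 a D : ℝ} (hs0 : 0 < s0) (hsa : s0 ≤ a)
    (h1 : 2 * D ≤ dpt v f x s0) (h2 : dpt v f x a < 2 * D) :
    ∃ σ : ℝ, s0 ≤ σ ∧ σ < a ∧ dpt v f x σ = 2 * D ∧ ∀ r ∈ Icc σ a, dpt v f x r ≤ 2 * D := by
  have hc : ∀ r : ℝ, 0 < r → ContinuousAt (dpt v f x) r := by
    intro r hr
    have h3 := (hasDerivAt_tp h x hr).continuousAt
    have h4 : ContinuousAt (fun r : ℝ => (f (tp v x r)).im) r :=
      ContinuousAt.comp (g := Complex.im) (f := fun r : ℝ => f (tp v x r))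
        Complex.continuous_im.continuousAt h3
    exact h4.neg
  have hcO : ContinuousOn (dpt v f x) (Icc s0 a) := fun r hr =>
    (hc r (lt_of_lt_of_le hs0 hr.1)).continuousWithinAt
  have hA : IsCompact (Icc s0 a ∩ dpt v f x ⁻¹' Ici (2 * D)) :=
    isCompact_Icc.of_isClosed_subset (hcO.preimage_isClosed_of_isClosed isClosed_Icc isClosed_Ici)
      inter_subset_left
  have hne : (Icc s0 a ∩ dpt v f x ⁻¹' Ici (2 * D)).Nonempty :=
    ⟨s0, left_mem_Icc.2 hsa, h1⟩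
  have hmem := hA.sSup_mem hne
  set σ := sSup (Icc s0 a ∩ dpt v f x ⁻¹' Ici (2 * D)) with hσ
  have hlt : ∀ r, σ < r → r ≤ a → dpt v f x r < 2 * D := by
    intro r hr hra
    by_contra hcon
    have h5 : r ∈ Icc s0 a ∩ dpt v f x ⁻¹' Ici (2 * D) :=
      ⟨⟨hmem.1.1.trans hr.le, hra⟩, not_lt.1 hcon⟩
    exact absurd (le_csSup hA.bddAbove h5) (not_le.2 hr)
  have h6 : 2 * D ≤ dpt v f x σ := hmem.2
  have hσa : σ < a := by
    rcases lt_or_eq_of_le hmem.1.2 with h7 | h7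
    · exact h7
    · rw [h7] at h6
      exact absurd h6 (not_le.2 h2)
  have h8 : dpt v f x σ = 2 * D := by
    refine le_antisymm ?_ h6
    by_contra hcon
    have h9 := (hc σ (lt_of_lt_of_le hs0 hmem.1.1)).eventually (lt_mem_nhds (not_le.1 hcon))
    obtain ⟨r, hr1, hr2⟩ :=
      ((h9.filter_mono nhdsWithin_le_nhds).and (Ioo_mem_nhdsGT hσa)).exists
    exact absurd (hlt r hr2.1 hr2.2.le) (not_lt.2 hr1.le)
  refine ⟨σ, hmem.1.1, hσa, h8, fun r hr => ?_⟩
  rcases lt_or_eq_of_le hr.1 with h9 | h9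
  · exact (hlt r h9 hr.2).le
  · rw [← h9, h8]

end Pool.Agent.MP_ae5b4e_an_PK
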