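import Pool.Agent.Lib.MP_ae5b4e_an_PK.EG
import Pool.Agent.Lib.MP_ae5b4e_an_PK.GeoB

/-!
# POR (iii), N2, type I, PK, block EL (entrance)
-/

noncomputable section

namespace Pool.Agent.MP_ae5b4e_an_PK

open Complex Set Filter Topology Metric
open Pool.Agent.MP_ae5b4e_an_WB
open Pool.Agent.MP_ae5b4e_an_WD
open Pool.Agent.MP_ae5b4e_an_T
open Pool.Agent.MP_ae5b4e_an_M (S1 C1f Gf)

variable {q : ℂ → ℂ} {C γ v : ℝ} {f : ℂ → ℂ}

private theorem EJ_dist (v x s : ℝ) : -v - (tp v x s).im = s := by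
  rw [tp_im]
  ring

/-- PROOF. Union of balls whose centres are on a segment contained in the union
(`isPreconnected_of_forall` or `IsPreconnected.union`); `κ < 1`: contained in `Hp v`. -/
theorem ct_preconn {x κ σ a : ℝ} (hκ : 0 < κ) (hκ1 : κ ≤ 1 / 8) (hσ : 0 < σ) :
    IsPreconnected (Ct v x κ σ a) ∧ Ct v x κ σ a ⊆ Hp v := by
  constructor
  · rcases lt_or_ge a σ with h1 | h1
    · have h2 : Ct v x κ σ a = ∅ := by
        ext τ
        simp only [Ct, mem_ofPred_eq, mem_empty_iff_false, iff_false]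
        rintro ⟨s, hs, -⟩
        linarith [hs.1, hs.2]
      rw [h2]
      exact isPreconnected_empty
    · obtain ⟨L, hL⟩ : ∃ L : Set ℂ, L = (fun s : ℝ => tp v x s) '' Icc σ a := ⟨_, rfl⟩
      have hLc : IsPreconnected L := by
        rw [hL]
        refine isPreconnected_Icc.image _ (Continuous.continuousOn ?_)
        unfold tp
        fun_prop
      have hmem : ∀ s ∈ Icc σ a, tp v x s ∈ ball (tp v x s) (κ * s) := fun s hs =>
        mem_ball_self (mul_pos hκ (lt_of_lt_of_le hσ hs.1))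
      refine isPreconnected_of_forall (tp v x σ) ?_
      rintro y ⟨s, hs, hy⟩
      refine ⟨ball (tp v x s) (κ * s) ∪ L, ?_, Or.inr ?_, Or.inl hy, ?_⟩
      · rintro z (hz | hz)
        · exact ⟨s, hs, hz⟩
        · rw [hL] at hz
          obtain ⟨r, hr, rfl⟩ := hz
          exact ⟨r, hr, hmem r hr⟩
      · rw [hL]
        exact ⟨σ, left_mem_Icc.2 h1, rfl⟩
      · refine IsPreconnected.union (tp v x s) (hmem s hs) ?_
          (convex_ball _ _).isPreconnected hLc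
        rw [hL]
        exact ⟨s, hs, rfl⟩
  · rintro τ ⟨s, hs, hτ⟩
    have hs0 : 0 < s := lt_of_lt_of_le hσ hs.1
    rw [mem_ball, dist_eq_norm] at hτ
    have h1 := (abs_le.1 (Complex.abs_im_le_norm (τ - tp v x s))).2
    rw [Complex.sub_im, tp_im] at h1
    show τ.im < -v
    nlinarith

theorem isOpen_ct (v x κ σ a : ℝ) : IsOpen (Ct v x κ σ a) := by
  have h1 : Ct v x κ σ a = ⋃ s ∈ Icc σ a, ball (tp v x s) (κ * s) := by
    ext τ
    simp only [Ct, mem_ofPred_eq, mem_iUnion, exists_prop]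
  rw [h1]
  exact isOpen_biUnion fun s _ => isOpen_ball

/-- depth and distance in the truncated cone.

PROOF. `near` at `tp v x s` (`- v - Im (tp v x s) = s`). -/
theorem ct_near (h : Sl q C γ v f) {x σ a D : ℝ} (hσ : 0 < σ) (hs : ∀ s ∈ Icc σ a, D ≤ dpt v f x s)
    {s : ℝ} (hsI : s ∈ Icc σ a) {τ : ℂ} (hτ : τ ∈ ball (tp v x s) (1 / 8 * s)) :
    τ ∈ Hp v ∧ D / 2 ≤ -(f τ).im ∧ 7 / 8 * s ≤ -v - τ.im ∧ -v - τ.im ≤ 9 / 8 * s := by
  have hs0 : 0 < s := lt_of_lt_of_le hσ hsI.1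
  rw [mem_ball, dist_eq_norm] at hτ
  have h1 := near h (κ := 1 / 8) (by norm_num) le_rfl (tp_mem (x := x) hs0) (τ' := τ)
    (by rw [EJ_dist]; exact hτ.le)
  obtain ⟨h2, -, h3, -⟩ := h1
  have h4 : D ≤ -(f (tp v x s)).im := hs s hsI
  have h5 := abs_le.1 (Complex.abs_im_le_norm (τ - tp v x s))
  rw [Complex.sub_im, tp_im] at h5
  refine ⟨h2, by linarith, by linarith [h5.2], by linarith [h5.1]⟩

private theorem EJ_norm (γ : ℝ) (z : ℂ) : ‖(γ : ℂ) ^ 2 * z‖ = γ ^ 2 * ‖z‖ := by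
  rw [norm_mul, norm_pow, Complex.norm_real, Real.norm_eq_abs, sq_abs]

/-- THE CONE IS IN THE POCKET.

PROOF. `ct_near`: depth `≥ D / 2 ≥ 2`; `h.qb`: `‖γ² q‖ ≤ γ² C / (D/2)² ≤ ε²`. `strip_const` on the
preconnected set `Ct v x (1/8) σ a` (`ct_preconn`), which contains `tp v x a`. -/
theorem cone_strip (h : Sl q C γ v f) {D ε : ℝ} (hD : 4 ≤ D) (hε0 : 0 < ε) (hε1 : ε ≤ 1)
    (hε : γ ^ 2 * (4 * C / D ^ 2) ≤ ε ^ 2) {x σ a : ℝ} (hσ : 0 < σ) (hσa : σ ≤ a)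
    (hs : ∀ s ∈ Icc σ a, D ≤ dpt v f x s) {k : ℕ}
    (hk : |ax (Xf q γ f (tp v x a)) - k * Real.pi| < Real.pi / 2) :
    ∀ τ ∈ Ct v x (1 / 8) σ a, τ ∈ Hp v ∧ ‖(γ : ℂ) ^ 2 * q (f τ)‖ ≤ ε ^ 2 ∧
      |ax (Xf q γ f τ) - k * Real.pi| < Real.pi / 2 := by
  have hC := h.C_pos
  have hw : ∀ τ ∈ Ct v x (1 / 8) σ a, ‖(γ : ℂ) ^ 2 * q (f τ)‖ ≤ ε ^ 2 := by
    rintro τ ⟨s, hsI, hτ⟩
    obtain ⟨-, h2, -, -⟩ := ct_near h hσ hs hsI hτ
    have h3 := h.qb (f τ) (by linarith)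
    rw [EJ_norm]
    have h4 : D ^ 2 / 4 ≤ (f τ).im ^ 2 := by nlinarith
    have h5 : C / (f τ).im ^ 2 ≤ C / (D ^ 2 / 4) :=
      div_le_div_of_nonneg_left hC.le (by positivity) h4
    have h6 : C / (D ^ 2 / 4) = 4 * C / D ^ 2 := by
      field_simp
    refine le_trans (mul_le_mul_of_nonneg_left ?_ (sq_nonneg γ)) hε
    linarith
  have hpc := ct_preconn (v := v) (x := x) (κ := 1 / 8) (σ := σ) (a := a) (by norm_num) le_rfl hσ
  have ha : tp v x a ∈ Ct v x (1 / 8) σ a :=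
    ⟨a, right_mem_Icc.2 hσa, mem_ball_self (by linarith)⟩
  intro τ hτ
  refine ⟨hpc.2 hτ, hw τ hτ, ?_⟩
  refine strip_const h hpc.1 hpc.2 (fun τ' hτ' => (hw τ' hτ').trans ?_) ha hτ hk
  nlinarith

/-- LOWER BOUND OF `|w|`.

PROOF. `pt_facts`: `Re om = log ‖G‖`, `G = y / f'` with `y = k π + e`, `‖y‖ ≥ π - 1/8 ≥ 1`
(`‖G‖ ^ 2 = ‖γ² q‖` from `exp (2 om)`); `T.f_der`: `‖f'‖ d ≤ 2 P`, `P ≤ C2 / d²` (`hC2` at
`x' = τ.re`, `s = d`: `tp v τ.re d = τ`). So `- Re om = log (‖f'‖ / ‖y‖) ≤ log (2 C2 / d³) = log (2 C2) + 3 log (1/d)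
≤ (3 + log (2 C2)) (1 + |log (1/d)|)` (`C2 ≥ 1`). And `Re om < 0`: `‖γ² q‖ ≤ ε² < 1`. -/
theorem low_U {K : ℕ} {ρ ε : ℝ} (R : Rho K ρ ε) (hε : ε < 1) (h : Sl q C γ v f) {C2 : ℝ}
    (hC20 : 1 ≤ C2) (hC2 : ∀ x s : ℝ, 0 < s → s ≤ 1 → dpt v f x s ≤ C2 / s ^ 2) {τ : ℂ}
    (hτ : τ ∈ Hp v) (hd1 : -v - τ.im ≤ 1) {k : ℕ} (hk : 1 ≤ k) (hkK : k ≤ K)
    (hs : |ax (Xf q γ f τ) - k * Real.pi| < Real.pi / 2) (hw : ‖(γ : ℂ) ^ 2 * q (f τ)‖ ≤ ε ^ 2) :
    (omx k q γ f τ).re < 0 ∧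
      -(omx k q γ f τ).re ≤ (3 + Real.log (2 * C2)) * (1 + |Real.log (1 / (-v - τ.im))|) := by
  obtain ⟨he0, heρ, hysq, hGε, hexp, hre, hder, -, hq⟩ := pt_facts R h hτ hk hkK hs hw
  obtain ⟨y, hy⟩ : ∃ y : ℂ, y = k * Real.pi + ek k (Xf q γ f τ) := ⟨_, rfl⟩
  rw [← hy] at hysq hGε hder
  have hd : 0 < -v - τ.im := by
    have h1 : τ.im < -v := hτ
    linarith
  obtain ⟨d, hdd⟩ : ∃ d : ℝ, d = -v - τ.im := ⟨_, rfl⟩
  have hγ := h.γ_pos
  have hqn : 0 < ‖(γ : ℂ) ^ 2 * q (f τ)‖ := by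
    rw [EJ_norm]
    exact mul_pos (pow_pos hγ 2) (norm_pos_iff.2 hq)
  -- the norm of `y`
  have hy1 : 1 ≤ ‖y‖ := by
    have h1 : (1 : ℝ) ≤ k := by exact_mod_cast hk
    have h2 : ‖(k * Real.pi : ℂ)‖ = k * Real.pi := by
      rw [norm_mul, Complex.norm_natCast, Complex.norm_real, Real.norm_eq_abs,
        abs_of_pos Real.pi_pos]
    have h3 : ‖(k * Real.pi : ℂ)‖ ≤ ‖y‖ + ‖ek k (Xf q γ f τ)‖ := by
      have h4 : (k * Real.pi : ℂ) = y - ek k (Xf q γ f τ) := by rw [hy]; ring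
      rw [h4]
      exact norm_sub_le _ _
    have h5 := R.ρ_le
    have h6 := Real.pi_gt_three
    rw [h2] at h3
    nlinarith
  have hy0 : y ≠ 0 := norm_pos_iff.1 (by linarith)
  -- `‖G y‖ ^ 2 = ‖γ² q‖`
  obtain ⟨-, hG2, -⟩ := y_spec h hτ hq hysq
  have hG3 : ‖G y‖ ^ 2 = ‖(γ : ℂ) ^ 2 * q (f τ)‖ := by rw [← hG2, norm_pow]
  have hG0 : 0 < ‖G y‖ := by
    rcases (norm_nonneg (G y)).eq_or_lt with h1 | h1
    · rw [← h1] at hG3
      norm_num at hG3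
      rw [norm_mul, norm_pow] at hqn
      simp at hqn
      rcases hG3 with h2 | h2
      · exact absurd h2 hγ.ne'
      · exact absurd h2 hq
    · exact h1
  have hre' : (omx k q γ f τ).re = Real.log ‖G y‖ := by
    rw [hre, ← hG3, Real.log_pow]
    push_cast
    ring
  have hε0 := R.ε_pos
  constructor
  · rw [hre']
    exact Real.log_neg hG0 (lt_of_le_of_lt hGε hε)
  · -- `‖f'‖ ‖G‖ = ‖y‖`
    have h1 : ‖deriv f τ‖ = ‖y‖ / ‖G y‖ := by rw [hder, norm_div]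
    have h2 := f_der h hτ
    rw [← hdd] at h2 hd hd1 ⊢
    have h3 : -(f τ).im ≤ C2 / d ^ 2 := by
      have h4 := hC2 τ.re d hd hd1
      have h5 : tp v τ.re d = τ := by
        apply Complex.ext
        · rw [tp_re]
        · rw [tp_im, hdd]
          ring
      have h6 : dpt v f τ.re d = -(f τ).im := by
        unfold dpt
        rw [h5]
      rwa [h6] at h4
    have h4 : 1 / ‖G y‖ ≤ ‖deriv f τ‖ := by
      rw [h1]
      exact div_le_div_of_nonneg_right hy1 hG0.le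
    have h5 : 1 / ‖G y‖ ≤ 2 * C2 * (1 / d) ^ 3 := by
      have h6 : ‖deriv f τ‖ ≤ 2 * (C2 / d ^ 2) / d := by
        rw [le_div_iff₀ hd]
        linarith
      have h7 : 2 * (C2 / d ^ 2) / d = 2 * C2 * (1 / d) ^ 3 := by
        field_simp
      linarith
    have h6 : -Real.log ‖G y‖ ≤ Real.log (2 * C2) + 3 * Real.log (1 / d) := by
      have h7 := Real.log_le_log (by positivity) h5
      rw [one_div, Real.log_inv, Real.log_mul (by positivity) (by positivity), Real.log_pow] at h7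
      push_cast at h7
      linarith
    have h7 : 0 ≤ Real.log (2 * C2) := Real.log_nonneg (by linarith)
    have h8 := le_abs_self (Real.log (1 / d))
    have h9 := abs_nonneg (Real.log (1 / d))
    rw [hre']
    nlinarith

end Pool.Agent.MP_ae5b4e_an_PK
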