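import Pool.Agent.Lib.MP_ae5b4e_an_PK.EB
import Pool.Agent.Lib.MP_ae5b4e_an_PK.EC
import Pool.Agent.Lib.MP_ae5b4e_an_PK.ED
import Pool.Agent.Lib.MP_ae5b4e_an_PK.EEi
import Pool.Agent.Lib.MP_ae5b4e_an_PK.EH
import Pool.Agent.Lib.MP_ae5b4e_an_PK.EI
import Pool.Agent.Lib.MP_ae5b4e_an_PK.EJ

/-!
# POR (iii), N2, type I, PK, block EL (entrance)
-/

noncomputable section

namespace Pool.Agent.MP_ae5b4e_an_PK

open Complex Set Filter Topology Metric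
open Pool.Agent.MP_ae5b4e_an_WB
open Pool.Agent.MP_ae5b4e_an_WD
open Pool.Agent.MP_ae5b4e_an_T
open Pool.Agent.MP_ae5b4e_an_M (S1 C1f Gf)

variable {q : ℂ → ℂ} {C γ v : ℝ} {f : ℂ → ℂ}

/-- PROOF. `ome_region`, `ome_inj`: `ρ` = half the minimum of the two radii (and `1/8`);
`near_kpi K ρ`: `ε` (decreased to `≤ ε0` and `≤ 1/2`: `near` is monotone in `ε`). -/
theorem exists_Rho (K : ℕ) {ε0 : ℝ} (hε0 : 0 < ε0) : ∃ ρ ε : ℝ, Rho K ρ ε ∧ ε ≤ ε0 ∧ ε ≤ 1 / 2 := by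
  obtain ⟨ρ1, hρ10, hρ18, hreg⟩ := ome_region
  obtain ⟨ρ2, hρ20, hinj⟩ := ome_inj
  have hρ : 0 < min ρ1 ρ2 := lt_min hρ10 hρ20
  obtain ⟨ε1, hε10, hε11, hnear⟩ := near_kpi K hρ
  refine ⟨min ρ1 ρ2, min ε1 (min ε0 (1 / 2)), ?_, (min_le_right _ _).trans (min_le_left _ _),
    (min_le_right _ _).trans (min_le_right _ _)⟩
  refine ⟨hρ, (min_le_left _ _).trans hρ18, lt_min hε10 (lt_min hε0 (by norm_num)),
    (min_le_left _ _).trans hε11, ?_, ?_, ?_⟩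
  · intro k e hk he0 he hG
    exact (hreg k e hk he0 (he.trans_le (min_le_left _ _)) hG).1
  · intro k e1 e2 hk h1 h1' h2 h2' hG1 hG2 he
    exact hinj k e1 e2 hk h1 (h1'.trans_le (min_le_right _ _)) h2
      (h2'.trans_le (min_le_right _ _)) hG1 hG2 he
  · intro k hk hkK y hy hG
    exact hnear k hk hkK y hy (hG.trans (min_le_left _ _))

private theorem tp_dist (v x s : ℝ) : -v - (tp v x s).im = s := by
  rw [tp_im]
  ring

private theorem ax_le (X : ℂ) : ax X ≤ √‖X‖ := by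
  unfold ax
  apply Real.sqrt_le_sqrt
  have := Complex.re_le_norm X
  linarith

private theorem qsmall (h : Sl q C γ v f) {D ε x s : ℝ} (hD : 2 ≤ D)
    (hε : γ ^ 2 * (4 * C / D ^ 2) ≤ ε ^ 2) (hs : D ≤ dpt v f x s) :
    ‖(γ : ℂ) ^ 2 * q (f (tp v x s))‖ ≤ ε ^ 2 := by
  have hd : D ≤ -(f (tp v x s)).im := hs
  have h1 := h.qb (f (tp v x s)) (hD.trans hd)
  have hC := h.C_pos
  have hγ := h.γ_pos
  rw [norm_mul, norm_pow, norm_real, Real.norm_of_nonneg hγ.le]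
  have h2 : C / (f (tp v x s)).im ^ 2 ≤ C / D ^ 2 := by
    rw [← neg_sq (f (tp v x s)).im]
    gcongr
  have h3 : C / D ^ 2 ≤ 4 * C / D ^ 2 := by
    gcongr
    linarith
  calc γ ^ 2 * ‖q (f (tp v x s))‖ ≤ γ ^ 2 * (4 * C / D ^ 2) := by
        gcongr
        linarith
    _ ≤ ε ^ 2 := hε

private theorem exists_D {C γ ε : ℝ} (hC : 0 < C) (hγ : 1 ≤ γ) (hε : 0 < ε) (D0 : ℝ) :
    ∃ D : ℝ, 4 ≤ D ∧ D0 ≤ D ∧ γ ^ 2 * (4 * C / D ^ 2) ≤ ε ^ 2 := by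
  have h1 : 0 ≤ γ ^ 2 * (4 * C) / ε ^ 2 := by positivity
  refine ⟨max 4 D0 + γ ^ 2 * (4 * C) / ε ^ 2, ?_, ?_, ?_⟩
  · linarith [le_max_left 4 D0]
  · linarith [le_max_right 4 D0]
  · set D := max 4 D0 + γ ^ 2 * (4 * C) / ε ^ 2 with hD
    have hD1 : 1 ≤ D := by linarith [le_max_left 4 D0]
    have hD2 : γ ^ 2 * (4 * C) / ε ^ 2 ≤ D := by linarith [le_max_left 4 D0]
    have h2 : γ ^ 2 * (4 * C / D ^ 2) = γ ^ 2 * (4 * C) / D ^ 2 := by ring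
    rw [h2, div_le_iff₀ (by positivity)]
    rw [div_le_iff₀ (by positivity)] at hD2
    have h3 : D ≤ D ^ 2 := by nlinarith
    calc γ ^ 2 * (4 * C) ≤ D * ε ^ 2 := hD2
      _ ≤ D ^ 2 * ε ^ 2 := by gcongr
      _ = ε ^ 2 * D ^ 2 := by ring

/-- THE SHEET OF THE PATH. There are `K` and `a1`, and then, for every `D2` large, every vertical
path which reaches the depth `D2 + 1` at a distance `σ ≤ a1` has a sheet `1 ≤ k ≤ K` on `[σ, a1]`.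

PROOF. `strip0`: `ε0`; `D1 ≥ 4` with `γ² 4 C / D1² ≤ ε0²` (`≤ 1`). `pocket hW γ D1`: `a1`. For
`σ ≤ a1`, `D2 + 1 ≤ dpt σ`, `D2 ≥ D1`: `dpt ≥ D1 ≥ 2` on `[σ, a1]`, so `‖γ² q (f (tp s))‖ ≤ ε0²`.
`exists_strip` at `tp v x a1`: `k`; `ax X = |Re y| ≤ ‖y‖ = √‖X‖ ≤ 2 γ √C / a1` (`T.Xf_apriori`), so
`k π ≤ 2 γ √C / a1 + π / 2`: `k ≤ K`. `strip_const` for the segment (preconnected). `k ≠ 0`: otherwise
`mono_strip0` gives `dpt σ ≤ dpt a1 ≤ C2 / a1²` (`dpt_bound`), excluded by `D2 ≥ C2 / a1²`. -/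
theorem sheet {W : Set (ℂ → ℂ)} {kap : ℝ} (hW : Fm W C kap) (hq : q ∈ W) (hγ : 1 ≤ γ)
    (h : Sl q C γ v f) (hd : Deep v f) (ha : Asy f) : ∃ (K : ℕ) (a1 D0 : ℝ), 0 < a1 ∧ a1 ≤ 1 ∧
      ∀ x σ : ℝ, 0 < σ → σ ≤ a1 → D0 ≤ dpt v f x σ → ∃ k : ℕ, 1 ≤ k ∧ k ≤ K ∧
        ∀ s ∈ Icc σ a1, |ax (Xf q γ f (tp v x s)) - k * Real.pi| < Real.pi / 2 := by
  have hpi := Real.pi_pos
  have hC := hW.C_pos
  obtain ⟨ε0, hε00, hε01, hε0⟩ := strip0
  obtain ⟨D1, hD14, -, hD1⟩ := exists_D hC hγ hε00 0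
  obtain ⟨a1, ha10, ha11, hp⟩ := pocket hW γ D1
  obtain ⟨C2, hC21, hC2⟩ := dpt_bound h ha
  set Y : ℝ := 2 * γ * √C / a1 with hY
  set K : ℕ := ⌈(Y + Real.pi / 2) / Real.pi⌉₊ with hK
  refine ⟨K, a1, max (D1 + 1) (C2 / a1 ^ 2 + 1), ha10, ha11, ?_⟩
  intro x σ hσ hσa hD0
  have hP := hp q hq γ v f hγ le_rfl h hd x σ hσ hσa ((le_max_left _ _).trans hD0)
  have hw : ∀ s ∈ Icc σ a1, ‖(γ : ℂ) ^ 2 * q (f (tp v x s))‖ ≤ ε0 ^ 2 :=
    fun s hs => qsmall h (by linarith) hD1 (hP s hs)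
  have hε2 : ε0 ^ 2 ≤ 1 := by nlinarith
  have hw1 : ∀ s ∈ Icc σ a1, ‖(γ : ℂ) ^ 2 * q (f (tp v x s))‖ ≤ 1 :=
    fun s hs => (hw s hs).trans hε2
  have hma : a1 ∈ Icc σ a1 := ⟨hσa, le_rfl⟩
  obtain ⟨k, hk⟩ := exists_strip h (tp_mem (v := v) (x := x) ha10) (hw1 a1 hma)
  have hcont : Continuous (fun s : ℝ => tp v x s) := by
    unfold tp
    fun_prop
  have hpre : IsPreconnected ((fun s : ℝ => tp v x s) '' Icc σ a1) :=
    isPreconnected_Icc.image _ hcont.continuousOn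
  have hstrip : ∀ s ∈ Icc σ a1, |ax (Xf q γ f (tp v x s)) - k * Real.pi| < Real.pi / 2 := by
    intro s hs
    refine strip_const h hpre ?_ ?_ ⟨a1, hma, rfl⟩ ⟨s, hs, rfl⟩ hk
    · rintro _ ⟨t, ht, rfl⟩
      exact tp_mem (lt_of_lt_of_le hσ ht.1)
    · rintro _ ⟨t, ht, rfl⟩
      exact hw1 t ht
  refine ⟨k, ?_, ?_, hstrip⟩
  · by_contra hk0
    have hk0' : k = 0 := by omega
    have hmono := mono_strip0 h hε00 hε0 hσ hσa (fun s hs => ⟨hw s hs, by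
      have h1 := hstrip s hs
      rw [hk0', Nat.cast_zero, zero_mul, sub_zero] at h1
      exact (abs_lt.1 h1).2⟩)
    have h1 := hC2 x a1 ha10 ha11
    have h2 := (le_max_right (D1 + 1) (C2 / a1 ^ 2 + 1)).trans hD0
    linarith
  · have h1 := (abs_lt.1 hk).1
    have hdeep : 2 ≤ -(f (tp v x a1)).im := by
      have := hd _ (tp_mem (v := v) (x := x) ha10)
      linarith
    have h2 := Xf_apriori h (tp_mem (v := v) (x := x) ha10) hdeep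
    rw [tp_dist] at h2
    have hγ0 : 0 < γ := h.γ_pos
    have h3 : √‖Xf q γ f (tp v x a1)‖ ≤ Y := by
      rw [Real.sqrt_le_left (by positivity), hY, div_pow, le_div_iff₀ (by positivity)]
      calc ‖Xf q γ f (tp v x a1)‖ * a1 ^ 2 ≤ 4 * C * γ ^ 2 := h2
        _ = (2 * γ * √C) ^ 2 := by
          rw [mul_pow, Real.sq_sqrt hC.le]
          ring
    have h4 := ax_le (Xf q γ f (tp v x a1))
    have h5 : (k : ℝ) * Real.pi ≤ Y + Real.pi / 2 := by linarith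
    have h6 : (k : ℝ) ≤ (Y + Real.pi / 2) / Real.pi := by
      rw [le_div_iff₀ hpi]
      exact h5
    have h7 : (k : ℝ) ≤ K := h6.trans (Nat.le_ceil _)
    exact_mod_cast h7

/-- EL. ENTRANCE, for every point `x` whose vertical path reaches the depth `D1` at a
distance `σ < a` (not only the points of type `I`). `om` is the logarithm of `w` near `y = k π`;
`X = y²` is a function `Φ k` of `om` (injectivity of `om` on the horoball); `K, κ, a, B, D1, Φ` are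
uniform in `x` and `σ`. (Same statement as in Contract.lean.)

PROOF. `sheet`: `K, a1, D0`. `exists_Rho K`: `ρ, ε`. `exists_Phi`: `Φ`. `D2 ≥ max 4 D0` with
`γ² 4 C / D2² ≤ ε²`. `pocket hW γ D2`: `a2`; `a = min (min a1 a2) (1/2)`; `D1 = D2 + 1`; `κ = 1/16`.
For `x, σ`: `sheet`: `k`; `dpt ≥ D2` on `[σ, a]` (pocket); `cone_strip` for
`Ct v x (1/8) σ a ⊇ Ct v x (1/16) σ a`; `om = omx k q γ f`: `pt_facts` (differentiable,
`exp (2 om)`), `exists_Phi`. `dpt_bound`: `C2`, `low_U` (distance `≤ 9/8 · 1/2 ≤ 1`).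
`dist_pk K` at `a`: `t0 ≤ ‖X - (k π)²‖ = ‖e‖ ‖2 k π + e‖ ≤ ‖e‖ (2 K π + 1)`: `‖e‖ ≥ ρ1`,
`ome_bound`: `B0` (`pk k = ((k π : ℝ) : ℂ)²`). `om_growth` (`tp v x s` unfolds to its centre;
`1/8 * s = s/8`): `|Im om| ≤ ‖om‖ ≤ B (1 + log (1/s)²)`. `‖Xf‖ = ‖k π + e‖² ≤ (K π + 1)²`. -/
theorem entrance' {W : Set (ℂ → ℂ)} {C kap : ℝ} (hW : Fm W C kap) {q : ℂ → ℂ} (hq : q ∈ W)
    {γ v : ℝ} {f : ℂ → ℂ} (hγ : 1 ≤ γ) (h : Sl q C γ v f) (hd : Deep v f) (ha : Asy f) :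
    ∃ (K : ℕ) (κ a B D1 : ℝ) (Φ : ℕ → ℂ → ℂ), 0 < κ ∧ κ ≤ 1 / 8 ∧ 0 < a ∧ a ≤ 1 ∧ 1 ≤ B ∧ 1 ≤ D1 ∧
      ∀ x σ : ℝ, 0 < σ → σ < a → D1 ≤ dpt v f x σ → ∃ k : ℕ, 1 ≤ k ∧ k ≤ K ∧ ∃ om : ℂ → ℂ,
        ContinuousOn om (Ct v x κ σ a) ∧
        (∀ τ ∈ Ct v x κ σ a, exp (2 * om τ) = (γ : ℂ) ^ 2 * q (f τ)) ∧
        (∀ τ ∈ Ct v x κ σ a, Xf q γ f τ = Φ k (om τ)) ∧
        (∀ s ∈ Icc σ a, ∀ τ ∈ ball (tp v x s) (κ * s),
          |(om τ).im| ≤ B * (1 + Real.log (1 / s) ^ 2)) ∧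
        ∀ τ ∈ Ct v x κ σ a, ‖Xf q γ f τ‖ ≤ B := by
  have hpi := Real.pi_pos
  have hC := hW.C_pos
  obtain ⟨K, a1, D0, ha10, ha11, hsheet⟩ := sheet hW hq hγ h hd ha
  obtain ⟨ρ, ε, R, -, hε2⟩ := exists_Rho K one_pos
  obtain ⟨Φ, hΦ⟩ := exists_Phi R
  obtain ⟨D2, hD24, hD20, hD2⟩ := exists_D hC hγ R.ε_pos D0
  obtain ⟨a2, ha20, ha21, hp⟩ := pocket hW γ D2
  set a : ℝ := min (min a1 a2) (1 / 2) with haa
  have ha0 : 0 < a := lt_min (lt_min ha10 ha20) (by norm_num)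
  have haa1 : a ≤ a1 := (min_le_left _ _).trans (min_le_left _ _)
  have haa2 : a ≤ a2 := (min_le_left _ _).trans (min_le_right _ _)
  have hahalf : a ≤ 1 / 2 := min_le_right _ _
  obtain ⟨C2, hC21, hC2⟩ := dpt_bound h ha
  obtain ⟨t0, ht0, hdist⟩ := dist_pk K hC hγ ha0 (by linarith)
  have hden : 0 < 2 * K * Real.pi + 1 := by positivity
  obtain ⟨B0, hB0, hbound⟩ := ome_bound K (ρ1 := t0 / (2 * K * Real.pi + 1)) (by positivity)
  set A : ℝ := 3 + Real.log (2 * C2) with hA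
  have hA0 : 0 ≤ A := by
    have : 0 ≤ Real.log (2 * C2) := Real.log_nonneg (by linarith)
    linarith
  set B : ℝ := max (B0 + 200 * A) ((K * Real.pi + 1) ^ 2) with hB
  have hB1 : 1 ≤ B := by
    refine le_trans ?_ (le_max_right _ _)
    have : 0 ≤ (K : ℝ) * Real.pi := by positivity
    nlinarith
  refine ⟨K, 1 / 16, a, B, D2 + 1, Φ, by norm_num, by norm_num, ha0, by linarith, hB1,
    by linarith, ?_⟩
  intro x σ hσ hσa hDσ
  obtain ⟨k, hk1, hkK, hstrip⟩ := hsheet x σ hσ (hσa.le.trans haa1) (by linarith)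
  have hP2 := hp q hq γ v f hγ le_rfl h hd x σ hσ (hσa.le.trans haa2) hDσ
  have hP : ∀ s ∈ Icc σ a, D2 ≤ dpt v f x s := fun s hs => hP2 s ⟨hs.1, hs.2.trans haa2⟩
  have hka := hstrip a ⟨hσa.le, haa1⟩
  have hcone := cone_strip h hD24 R.ε_pos R.ε_le hD2 hσ hσa.le hP hka
  have hsub : Ct v x (1 / 16) σ a ⊆ Ct v x (1 / 8) σ a := by
    rintro τ ⟨s, hs, hτ⟩
    refine ⟨s, hs, ball_subset_ball ?_ hτ⟩
    have : 0 < s := lt_of_lt_of_le hσ hs.1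
    nlinarith
  have hpt : ∀ τ ∈ Ct v x (1 / 8) σ a, _ := fun τ hτ =>
    pt_facts R h (hcone τ hτ).1 hk1 hkK (hcone τ hτ).2.2 (hcone τ hτ).2.1
  refine ⟨k, hk1, hkK, omx k q γ f, ?_, ?_, ?_, ?_, ?_⟩
  · intro τ hτ
    exact (hpt τ (hsub hτ)).2.2.2.2.2.2.2.1.continuousAt.continuousWithinAt
  · intro τ hτ
    exact (hpt τ (hsub hτ)).2.2.2.2.1
  · intro τ hτ
    have h1 := hcone τ (hsub hτ)
    exact hΦ q C γ v f h τ h1.1 k hk1 hkK h1.2.2 h1.2.1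
  · have hmema : tp v x a ∈ Ct v x (1 / 8) σ a :=
      ⟨a, ⟨hσa.le, le_rfl⟩, mem_ball_self (by positivity)⟩
    have hfa := hpt _ hmema
    have hω0 : ‖omx k q γ f (tp v x a)‖ ≤ B0 := by
      refine hbound k hkK _ ?_ (hfa.2.1.le.trans R.ρ_le)
      have h1 := hdist q v f h hd k hk1 hkK x
      rw [div_le_iff₀ hden]
      refine h1.trans ?_
      have h2 : Xf q γ f (tp v x a) - pk k = ek k (Xf q γ f (tp v x a)) *
          (2 * (k * Real.pi) + ek k (Xf q γ f (tp v x a))) := by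
        have h3 := hfa.2.2.1
        have h4 : pk k = (k * Real.pi : ℂ) ^ 2 := by
          unfold pk
          push_cast
          ring
        rw [h4]
        linear_combination -h3
      rw [h2, norm_mul]
      refine mul_le_mul_of_nonneg_left ?_ (norm_nonneg _)
      have h5 : ‖(2 * (k * Real.pi) : ℂ)‖ ≤ 2 * K * Real.pi := by
        have h6 : (2 * (k * Real.pi) : ℂ) = ((2 * (k * Real.pi) : ℝ) : ℂ) := by push_cast; ring
        rw [h6, norm_real, Real.norm_of_nonneg (by positivity)]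
        have h7 : (k : ℝ) ≤ K := by exact_mod_cast hkK
        nlinarith
      calc ‖(2 * (k * Real.pi) : ℂ) + ek k (Xf q γ f (tp v x a))‖
          ≤ ‖(2 * (k * Real.pi) : ℂ)‖ + ‖ek k (Xf q γ f (tp v x a))‖ := norm_add_le _ _
        _ ≤ 2 * K * Real.pi + 1 := by
          have h8 := hfa.2.1.le.trans R.ρ_le
          linarith
    have hball : ∀ s ∈ Icc σ a, ∀ τ ∈ ball ((x : ℂ) - (v + s : ℝ) * I) (s / 8),
        τ ∈ Ct v x (1 / 8) σ a := by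
      intro s hs τ hτ
      refine ⟨s, hs, ?_⟩
      have h1 : (1 : ℝ) / 8 * s = s / 8 := by ring
      rw [h1]
      exact hτ
    have hgrow := om_growth (om := omx k q γ f) (x := x) (v := v) (A := A) (B0 := B0) hσ hσa
      (by linarith) hA0 hB0.le
      (fun s hs τ hτ =>
        (hpt τ (hball s hs τ hτ)).2.2.2.2.2.2.2.1.differentiableWithinAt)
      (by
        intro s hs τ hτ
        have hτC := hball s hs τ hτ
        have h1 := hcone τ hτC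
        have h2 := ct_near h hσ hP hs (τ := τ) (by
          have h3 : (1 : ℝ) / 8 * s = s / 8 := by ring
          rw [h3]
          exact hτ)
        have h3 : -v - τ.im ≤ 1 := by
          have := hs.2
          linarith [h2.2.2.2]
        exact low_U R (by linarith) h hC21 hC2 h1.1 h3 hk1 hkK h1.2.2 h1.2.1) hω0
    intro s hs τ hτ
    have h1 := hgrow s hs τ (by
      have h2 : (1 : ℝ) / 16 * s = s / 16 := by ring
      rw [h2] at hτ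
      exact hτ)
    refine (Complex.abs_im_le_norm _).trans (h1.trans ?_)
    have h3 : B0 + 200 * A ≤ B := le_max_left _ _
    gcongr
  · intro τ hτ
    have h1 := hpt τ (hsub hτ)
    rw [← h1.2.2.1, norm_pow]
    have h2 : ‖(k * Real.pi : ℂ) + ek k (Xf q γ f τ)‖ ≤ K * Real.pi + 1 := by
      have h5 : ‖(k * Real.pi : ℂ)‖ ≤ K * Real.pi := by
        have h6 : (k * Real.pi : ℂ) = ((k * Real.pi : ℝ) : ℂ) := by push_cast; ring
        rw [h6, norm_real, Real.norm_of_nonneg (by positivity)]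
        have h7 : (k : ℝ) ≤ K := by exact_mod_cast hkK
        gcongr
      calc ‖(k * Real.pi : ℂ) + ek k (Xf q γ f τ)‖
          ≤ ‖(k * Real.pi : ℂ)‖ + ‖ek k (Xf q γ f τ)‖ := norm_add_le _ _
        _ ≤ K * Real.pi + 1 := by
          have h8 := h1.2.1.le.trans R.ρ_le
          linarith
    calc ‖(k * Real.pi : ℂ) + ek k (Xf q γ f τ)‖ ^ 2 ≤ (K * Real.pi + 1) ^ 2 := by gcongr
      _ ≤ B := le_max_right _ _

end Pool.Agent.MP_ae5b4e_an_PK
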