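import Pool.Agent.Lib.MP_ae5b4e_an_T.T3Gf
import Pool.Agent.Lib.MP_ae5b4e_an_T.T3Imp

/-!
# POR (iii), type I, block PK: the state determines the point of the slice

`state_inj`: two points of the half plane below the line with the same label and the same derivative
of the label are equal. `deriv_eq_of_Xf`: the derivative of the label is determined by `y²`.
-/

noncomputable section

namespace Pool.Agent.MP_ae5b4e_an_PK

open Complex Set Filter Topology Metric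
open Pool.Agent.MP_ae5b4e_an_WB
open Pool.Agent.MP_ae5b4e_an_WD
open Pool.Agent.MP_ae5b4e_an_T
open Pool.Agent.MP_ae5b4e_an_M (S1 C1f Gf)

theorem isOpen_Hp (v : ℝ) : IsOpen (Hp v) := isOpen_lt Complex.continuous_im continuous_const

/-- the derivative of the label is determined by `y²` -/
theorem deriv_eq_of_Xf {q : ℂ → ℂ} {C γ v : ℝ} {f : ℂ → ℂ} (h : Sl q C γ v f) {τ₁ τ₂ : ℂ}
    (h1 : τ₁ ∈ Hp v) (h2 : τ₂ ∈ Hp v) (hX : Xf q γ f τ₁ = Xf q γ f τ₂) :
    deriv f τ₁ = deriv f τ₂ := by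
  have e1 := h.gf τ₁ h1
  have e2 := h.gf τ₂ h2
  have s2 := h.s1 τ₂ h2
  unfold Xf at hX
  unfold Gf at e1 e2
  rw [hX] at e1
  have hγ : (γ : ℂ) ≠ 0 := by exact_mod_cast h.γ_pos.ne'
  set x : ℂ := q (f τ₂) * (γ * deriv f τ₂) ^ 2 with hx
  have hne : (γ : ℂ) * (S1 x * cexp (1 - C1f x / S1 x)) ≠ 0 :=
    mul_ne_zero hγ (mul_ne_zero s2 (exp_ne_zero _))
  apply mul_right_cancel₀ hne
  linear_combination e1 - e2

/-- local uniqueness for the autonomous equation `g' = A (g)` -/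
private theorem Inj_ode {A g₁ g₂ : ℂ → ℂ} {l : ℂ} (hA : AnalyticAt ℂ A l)
    (h1 : ∀ᶠ z in 𝓝 (0 : ℂ), HasDerivAt g₁ (A (g₁ z)) z)
    (h2 : ∀ᶠ z in 𝓝 (0 : ℂ), HasDerivAt g₂ (A (g₂ z)) z) (e1 : g₁ 0 = l) (e2 : g₂ 0 = l) :
    g₁ =ᶠ[𝓝 0] g₂ := by
  have hAr : ContDiffAt ℝ 1 A l := hA.contDiffAt.restrict_scalars ℝ
  obtain ⟨K, S, hS, hK⟩ := hAr.exists_lipschitzOnWith
  have key : ∀ g : ℂ → ℂ, (∀ᶠ z in 𝓝 (0 : ℂ), HasDerivAt g (A (g z)) z) → g 0 = l →
      ∀ᶠ t : ℝ in 𝓝 0, HasDerivAt (fun t : ℝ => g t) (A (g t)) t ∧ g t ∈ S := by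
    intro g hg hg0
    have hc : ContinuousAt g 0 := hg.self_of_nhds.continuousAt
    have hS' : ∀ᶠ z in 𝓝 (0 : ℂ), g z ∈ S := hc.eventually (by rw [hg0]; exact hS)
    have h3 : Tendsto (fun t : ℝ => (t : ℂ)) (𝓝 0) (𝓝 0) := by
      have h4 := Complex.continuous_ofReal.tendsto 0
      rwa [Complex.ofReal_zero] at h4
    filter_upwards [h3.eventually (hg.and hS')] with t ht
    exact ⟨ht.1.comp_ofReal, ht.2⟩
  have hreal : (fun t : ℝ => g₁ t) =ᶠ[𝓝 0] fun t : ℝ => g₂ t := by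
    refine ODE_solution_unique_of_eventually (v := fun _ => A) (s := fun _ => S) (K := K)
      (Filter.Eventually.of_forall fun _ => hK) (key g₁ h1 e1) (key g₂ h2 e2) ?_
    show g₁ ((0 : ℝ) : ℂ) = g₂ ((0 : ℝ) : ℂ)
    rw [Complex.ofReal_zero, e1, e2]
  have an : ∀ g : ℂ → ℂ, (∀ᶠ z in 𝓝 (0 : ℂ), HasDerivAt g (A (g z)) z) → AnalyticAt ℂ g 0 := by
    intro g hg
    rw [Complex.analyticAt_iff_eventually_differentiableAt]
    exact hg.mono fun z hz => hz.differentiableAt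
  refine ((an g₁ h1).frequently_eq_iff_eventually_eq (an g₂ h2)).1 ?_
  have h5 : ∃ᶠ t : ℝ in 𝓝[≠] 0, g₁ t = g₂ t := (hreal.filter_mono nhdsWithin_le_nhds).frequently
  have h6 : Tendsto (fun t : ℝ => (t : ℂ)) (𝓝[≠] 0) (𝓝[≠] 0) := by
    refine tendsto_nhdsWithin_iff.2 ⟨?_, ?_⟩
    · have h4 := Complex.continuous_ofReal.tendsto 0
      rw [Complex.ofReal_zero] at h4
      exact h4.mono_left nhdsWithin_le_nhds
    · filter_upwards [self_mem_nhdsWithin] with t ht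
      rw [mem_compl_singleton_iff] at ht ⊢
      exact Complex.ofReal_ne_zero.2 ht
  exact h6.frequently h5

/-- near a point of the slice the derivative of the label is a fixed analytic function of the
label -/
private theorem Inj_A {q : ℂ → ℂ} {C γ v : ℝ} {f : ℂ → ℂ} (h : Sl q C γ v f) {τ₁ : ℂ}
    (h1 : τ₁ ∈ Hp v) : ∃ A : ℂ → ℂ, AnalyticAt ℂ A (f τ₁) ∧
      ∀ τ₂ ∈ Hp v, f τ₂ = f τ₁ → deriv f τ₂ = deriv f τ₁ →
        ∀ᶠ z in 𝓝 (0 : ℂ), HasDerivAt (fun z => f (τ₂ + z)) (A (f (τ₂ + z))) z := by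
  have hHp := isOpen_Hp v
  have hγ : (γ : ℂ) ≠ 0 := by exact_mod_cast h.γ_pos.ne'
  have hlow : (f τ₁).im < 0 := by
    have h2 := h.dep τ₁ h1
    have h3 : τ₁.im < -v := h1
    linarith
  set l := f τ₁ with hl
  set a := (γ : ℂ) * deriv f τ₁ with ha
  have hs := h.s1 τ₁ h1
  have hG := Gf_an h.qd hlow (α := a) hs
  have hF : AnalyticAt ℂ (fun p : (ℂ × ℂ) × ℂ => Gf q p.1.1 p.2 - p.1.2) ((l, (γ : ℂ)), a) := by
    refine AnalyticAt.sub ?_ (analyticAt_snd.fun_comp analyticAt_fst)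
    exact AnalyticAt.fun_comp (g := fun p : ℂ × ℂ => Gf q p.1 p.2)
      (f := fun p : (ℂ × ℂ) × ℂ => (p.1.1, p.2)) hG
      ((analyticAt_fst.fun_comp analyticAt_fst).prod analyticAt_snd)
  have hg := Gf_hasDerivAt (q := q) (l := l) (α := a) hs
  have hne : cexp (1 - C1f (q l * a ^ 2) / S1 (q l * a ^ 2)) / S1 (q l * a ^ 2) ≠ 0 :=
    div_ne_zero (exp_ne_zero _) hs
  obtain ⟨b, hb, hb0, hbe⟩ := implicit2 (x₀ := (l, (γ : ℂ))) (t₀ := a) hF
    (by
      show Gf q l a - γ = 0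
      rw [h.gf τ₁ h1, sub_self]) hne (hg.sub_const (γ : ℂ))
  refine ⟨fun l => b (l, (γ : ℂ)) / γ, ?_, ?_⟩
  · refine AnalyticAt.div ?_ analyticAt_const hγ
    exact AnalyticAt.fun_comp (g := b) (f := fun l : ℂ => (l, (γ : ℂ))) hb
      (analyticAt_id.prod analyticAt_const)
  · intro τ₂ h2 he hd
    have hfa : AnalyticAt ℂ f τ₂ := h.fd.analyticAt (hHp.mem_nhds h2)
    have hadd : Tendsto (fun z : ℂ => τ₂ + z) (𝓝 0) (𝓝 τ₂) := by
      have h3 : Continuous fun z : ℂ => τ₂ + z := by fun_prop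
      have h4 := h3.tendsto 0
      simp only [add_zero] at h4
      exact h4
    have hc : Tendsto (fun τ : ℂ => ((f τ, (γ : ℂ)), (γ : ℂ) * deriv f τ)) (𝓝 τ₂)
        (𝓝 ((l, (γ : ℂ)), a)) := by
      have c1 : ContinuousAt f τ₂ := hfa.continuousAt
      have c2 : ContinuousAt (deriv f) τ₂ := hfa.deriv.continuousAt
      have c3 : ContinuousAt (fun τ : ℂ => ((f τ, (γ : ℂ)), (γ : ℂ) * deriv f τ)) τ₂ :=
        (c1.prodMk continuousAt_const).prodMk (continuousAt_const.mul c2)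
      have c4 := c3.tendsto
      simp only [he, hd] at c4
      exact c4
    filter_upwards [hadd.eventually (hc.eventually hbe), hadd.eventually (hHp.mem_nhds h2)]
      with z hz hz2
    have h5 : b (f (τ₂ + z), (γ : ℂ)) = γ * deriv f (τ₂ + z) := by
      refine hz.1 ?_
      show Gf q (f (τ₂ + z)) (γ * deriv f (τ₂ + z)) - γ = 0
      rw [h.gf _ hz2, sub_self]
    rw [h5, mul_div_cancel_left₀ _ hγ]
    have h6 := (h.fd.differentiableAt (hHp.mem_nhds hz2)).hasDerivAt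
    have h7 : HasDerivAt (fun z : ℂ => τ₂ + z) 1 z := (hasDerivAt_id z).const_add τ₂
    have h8 := HasDerivAt.comp (h₂ := f) (h := fun z : ℂ => τ₂ + z) z h6 h7
    rw [mul_one] at h8
    exact h8

/-- STATE INJECTIVITY: two points below the line with the same label and the same derivative of the
label are equal. -/
theorem state_inj {q : ℂ → ℂ} {C γ v : ℝ} {f : ℂ → ℂ} (h : Sl q C γ v f)
    (hA : ∀ ε : ℝ, 0 < ε → ∃ R : ℝ, ∀ τ : ℂ, R ≤ -τ.im → ‖f τ - τ‖ ≤ ε) {τ₁ τ₂ : ℂ}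
    (h1 : τ₁ ∈ Hp v) (h2 : τ₂ ∈ Hp v) (he : f τ₁ = f τ₂) (hd : deriv f τ₁ = deriv f τ₂) :
    τ₁ = τ₂ := by
  obtain ⟨A, hAn, hode⟩ := Inj_A h h1
  have hloc := Inj_ode hAn (hode τ₁ h1 rfl rfl) (hode τ₂ h2 he.symm hd.symm)
    (by rw [add_zero]) (by rw [add_zero, he])
  set c := τ₂ - τ₁ with hc
  set U : Set ℂ := {τ | τ.im < min (-v) (-v - c.im)} with hU
  have hUo : IsOpen U := isOpen_lt Complex.continuous_im continuous_const
  have hUc : IsPreconnected U := (convex_halfSpace_im_lt _).isPreconnected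
  have hm1 : ∀ τ ∈ U, τ ∈ Hp v := by
    intro τ hτ
    have h3 : τ.im < -v := lt_of_lt_of_le hτ (min_le_left _ _)
    exact h3
  have hm2 : ∀ τ ∈ U, τ + c ∈ Hp v := by
    intro τ hτ
    have h3 : τ.im < -v - c.im := lt_of_lt_of_le hτ (min_le_right _ _)
    show (τ + c).im < -v
    rw [add_im]
    linarith
  have h1U : τ₁ ∈ U := by
    have h4 : τ₁.im < -v := h1
    refine lt_min h4 ?_
    have h3 : τ₂.im < -v := h2
    rw [hc, sub_im]
    linarith
  have hfa : AnalyticOnNhd ℂ f U := fun τ hτ =>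
    h.fd.analyticAt ((isOpen_Hp v).mem_nhds (hm1 τ hτ))
  have hga : AnalyticOnNhd ℂ (fun τ => f (τ + c)) U := fun τ hτ =>
    AnalyticAt.fun_comp (g := f) (f := fun τ : ℂ => τ + c)
      (h.fd.analyticAt ((isOpen_Hp v).mem_nhds (hm2 τ hτ))) (analyticAt_id.add analyticAt_const)
  have hev : f =ᶠ[𝓝 τ₁] fun τ => f (τ + c) := by
    have h3 : Tendsto (fun τ : ℂ => τ - τ₁) (𝓝 τ₁) (𝓝 0) := by
      have h4 : Continuous fun τ : ℂ => τ - τ₁ := by fun_prop
      have h5 := h4.tendsto τ₁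
      rw [sub_self] at h5
      exact h5
    filter_upwards [h3.eventually hloc] with τ hτ
    rw [add_sub_cancel] at hτ
    rw [hτ, hc]
    congr 1
    ring
  have hall := hfa.eqOn_of_preconnected_of_eventuallyEq hga hUc h1U hev
  have hc0 : c = 0 := by
    by_contra hne
    have hpos : 0 < ‖c‖ := norm_pos_iff.2 hne
    obtain ⟨R, hR⟩ := hA (‖c‖ / 3) (by positivity)
    set τ : ℂ := -((|R| + |v| + |c.im| + 1 : ℝ) : ℂ) * I with hτ
    have hτi : τ.im = -(|R| + |v| + |c.im| + 1) := by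
      rw [hτ, neg_mul, neg_im, im_ofReal_mul, I_im, mul_one]
    have a1 := le_abs_self R
    have a2 := le_abs_self v
    have a3 := le_abs_self c.im
    have a4 := neg_abs_le c.im
    have a5 := abs_nonneg v
    have a6 := abs_nonneg R
    have a7 := abs_nonneg c.im
    have b1 := hR τ (by rw [hτi]; linarith)
    have b2 := hR (τ + c) (by rw [add_im, hτi]; linarith)
    have b3 : f τ = f (τ + c) := hall (by
      show τ.im < min (-v) (-v - c.im)
      rw [hτi]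
      exact lt_min (by linarith) (by linarith))
    have b4 : c = (f τ - τ) - (f (τ + c) - (τ + c)) := by
      rw [← b3]
      ring
    have b5 := norm_sub_le (f τ - τ) (f (τ + c) - (τ + c))
    rw [← b4] at b5
    linarith
  rw [hc, sub_eq_zero] at hc0
  exact hc0.symm

end Pool.Agent.MP_ae5b4e_an_PK
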