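import Mathlib

/-!
# POR (iii), N2, type I, PK: length and area
-/

noncomputable section

namespace Pool.Agent.MP_ae5b4e_an_PK

open Complex Set Filter Topology Metric MeasureTheory

/-- the open rectangle `b1 < Re < b2`, `|Im| < κ` -/
def RR (b1 b2 κ : ℝ) : Set ℂ := {z | b1 < z.re ∧ z.re < b2 ∧ |z.im| < κ}

theorem isOpen_RR (b1 b2 κ : ℝ) : IsOpen (RR b1 b2 κ) :=
  (isOpen_lt continuous_const continuous_re).inter
    ((isOpen_lt continuous_re continuous_const).inter (isOpen_lt continuous_im.abs continuous_const))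

private theorem LA_cs {α : Type*} [MeasurableSpace α] (μ : Measure α) {f : α → ENNReal}
    (hf : AEMeasurable f μ) : (∫⁻ a, f a ∂μ) ^ 2 ≤ μ univ * ∫⁻ a, f a ^ 2 ∂μ := by
  have h := ENNReal.lintegral_mul_le_Lp_mul_Lq μ Real.HolderConjugate.two_two hf
    (aemeasurable_const (b := (1 : ENNReal)))
  have h2 : ∫⁻ a, f a ∂μ ≤ (∫⁻ a, f a ^ (2 : ℕ) ∂μ) ^ (1 / 2 : ℝ) * (μ univ) ^ (1 / 2 : ℝ) := by
    simpa using h
  have key : ∀ x : ENNReal, (x ^ (1 / 2 : ℝ)) ^ 2 = x := by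
    intro x
    rw [← ENNReal.rpow_natCast, ← ENNReal.rpow_mul]
    norm_num
  calc (∫⁻ a, f a ∂μ) ^ 2
      ≤ ((∫⁻ a, f a ^ (2 : ℕ) ∂μ) ^ (1 / 2 : ℝ) * (μ univ) ^ (1 / 2 : ℝ)) ^ 2 := by gcongr
    _ = μ univ * ∫⁻ a, f a ^ 2 ∂μ := by rw [mul_pow, key, key, mul_comm]

private theorem LA_rect {ρ : ℂ → ENNReal} (hρ : Measurable ρ) {P Q : Set ℝ} (hP : MeasurableSet P)
    (hQ : MeasurableSet Q) :
    (∫⁻ y in Q, ∫⁻ x in P, ρ ⟨x, y⟩) ^ 2 ≤
      volume P * volume Q * ∫⁻ w in {w : ℂ | w.re ∈ P ∧ w.im ∈ Q}, ρ w ^ 2 := by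
  have hmk : Measurable (fun p : ℝ × ℝ => (⟨p.1, p.2⟩ : ℂ)) := by
    have : (fun p : ℝ × ℝ => (⟨p.1, p.2⟩ : ℂ)) = Complex.measurableEquivRealProd.symm := by
      funext p
      apply Complex.measurableEquivRealProd.injective
      rw [MeasurableEquiv.apply_symm_apply, Complex.measurableEquivRealProd_apply]
    rw [this]
    exact Complex.measurableEquivRealProd.symm.measurable
  have hm : Measurable (fun p : ℝ × ℝ => ρ ⟨p.1, p.2⟩) := hρ.comp hmk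
  have h1 : ∫⁻ y in Q, ∫⁻ x in P, ρ ⟨x, y⟩ =
      ∫⁻ z, ρ ⟨z.1, z.2⟩ ∂((volume.restrict P).prod (volume.restrict Q)) :=
    (lintegral_prod_symm _ hm.aemeasurable).symm
  have h2 : ∫⁻ w in {w : ℂ | w.re ∈ P ∧ w.im ∈ Q}, ρ w ^ 2 =
      ∫⁻ z, ρ ⟨z.1, z.2⟩ ^ 2 ∂((volume.restrict P).prod (volume.restrict Q)) := by
    rw [Measure.prod_restrict]
    have h3 := Complex.volume_preserving_equiv_real_prod.setLIntegral_comp_preimage
      (hP.prod hQ) (f := fun z : ℝ × ℝ => ρ ⟨z.1, z.2⟩ ^ 2) (hm.pow_const 2)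
    exact h3
  rw [h1, h2]
  refine (LA_cs _ hm.aemeasurable).trans ?_
  rw [← univ_prod_univ, Measure.prod_prod, Measure.restrict_apply_univ,
    Measure.restrict_apply_univ]

private theorem LA_line {G : ℂ → ℂ} {Ω : Set ℂ} {b1 b2 η D : ℝ} (hb : b1 ≤ b2)
    (hΩ : IsOpen Ω) (hsub : ∀ t : ℝ, b1 ≤ t → t ≤ b2 → (⟨t, η⟩ : ℂ) ∈ Ω)
    (hG : DifferentiableOn ℂ G Ω) (hlen : D ≤ ‖G ⟨b1, η⟩ - G ⟨b2, η⟩‖) :
    ENNReal.ofReal D ≤ ∫⁻ t in Ioo b1 b2, ‖deriv G ⟨t, η⟩‖ₑ := by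
  have hmk : ∀ t : ℝ, (⟨t, η⟩ : ℂ) = (t : ℂ) + η * I := fun t => by
    apply Complex.ext <;> simp
  have hd : ∀ t ∈ uIcc b1 b2, HasDerivAt (fun t : ℝ => G ⟨t, η⟩) (deriv G ⟨t, η⟩) t := by
    intro t ht
    rw [uIcc_of_le hb] at ht
    have h1 : HasDerivAt G (deriv G ⟨t, η⟩) ⟨t, η⟩ :=
      (hG.differentiableAt (hΩ.mem_nhds (hsub t ht.1 ht.2))).hasDerivAt
    have h2 : HasDerivAt (fun t : ℝ => (⟨t, η⟩ : ℂ)) 1 t := by
      have h3 : HasDerivAt (fun t : ℝ => (t : ℂ) + η * I) 1 t :=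
        (Complex.ofRealCLM.hasDerivAt (x := t)).add_const _
      have h4 : (fun t : ℝ => (⟨t, η⟩ : ℂ)) = fun t : ℝ => (t : ℂ) + η * I := by
        funext t
        exact hmk t
      rw [h4]
      exact h3
    have h5 := HasDerivAt.scomp (h := fun t : ℝ => (⟨t, η⟩ : ℂ)) (g₁ := G) t h1 h2
    rw [one_smul] at h5
    exact h5
  have hcd : ContinuousOn (deriv G) Ω := (hG.deriv hΩ).continuousOn
  have hc : ContinuousOn (fun t : ℝ => deriv G ⟨t, η⟩) (uIcc b1 b2) := by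
    rw [uIcc_of_le hb]
    refine hcd.comp ?_ (fun t ht => hsub t ht.1 ht.2)
    have h4 : (fun t : ℝ => (⟨t, η⟩ : ℂ)) = fun t : ℝ => (t : ℂ) + η * I := by
      funext t
      exact hmk t
    rw [h4]
    exact (Complex.continuous_ofReal.add continuous_const).continuousOn
  have hint := intervalIntegral.integral_eq_sub_of_hasDerivAt hd hc.intervalIntegrable
  rw [intervalIntegral.integral_of_le hb, integral_Ioc_eq_integral_Ioo] at hint
  have h6 := enorm_integral_le_lintegral_enorm (μ := volume.restrict (Ioo b1 b2))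
    (fun t : ℝ => deriv G ⟨t, η⟩)
  rw [hint] at h6
  refine le_trans ?_ h6
  rw [← ofReal_norm, norm_sub_rev]
  exact ENNReal.ofReal_le_ofReal hlen

/-- LENGTH AND AREA.

PROOF. For `|η| < κ`: `D ≤ ‖G (b2 + iη) - G (b1 + iη)‖ ≤ ∫_(b1)^(b2) ‖G' (t + iη)‖ dt`
(`intervalIntegral.integral_eq_sub_of_hasDerivAt`, `intervalIntegral.norm_integral_le_integral_norm`;
`G'` continuous on `Ω`), in lintegral form `ofReal D ≤ ∫⁻ t in Ioo b1 b2, ‖G' (t + iη)‖ₑ`.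
Cauchy-Schwarz (`ENNReal.lintegral_mul_le_Lp_mul_Lq` with the exponents 2, 2 and the function 1, or the
real version): `ofReal (D²) ≤ ofReal (b2 - b1) * ∫⁻ t in Ioo b1 b2, ‖G' (t + iη)‖ₑ²`. Integrate over
`η ∈ (-κ, κ)` (length `2 κ`) and Tonelli: `Complex.volume_preserving_equiv_real_prod` (symm),
`RR` = the product of the intervals, `MeasureTheory.lintegral_prod`; `‖G'‖ₑ²` is measurable on `RR`
(continuous on the open set `RR`: `ContinuousOn.measurable...`, `AEMeasurable`). -/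
theorem length_area {G : ℂ → ℂ} {Ω : Set ℂ} {b1 b2 κ D : ℝ} (hb : b1 ≤ b2) (hκ : 0 < κ)
    (hD : 0 ≤ D) (hΩ : IsOpen Ω) (hsub : ∀ z : ℂ, b1 ≤ z.re → z.re ≤ b2 → |z.im| < κ → z ∈ Ω)
    (hG : DifferentiableOn ℂ G Ω)
    (hlen : ∀ η : ℝ, |η| < κ → D ≤ ‖G ⟨b1, η⟩ - G ⟨b2, η⟩‖) :
    ENNReal.ofReal (2 * κ * D ^ 2) ≤
      ENNReal.ofReal (b2 - b1) * ∫⁻ z in RR b1 b2 κ, ‖deriv G z‖ₑ ^ 2 := by
  have hm : Measurable (fun z : ℂ => ‖deriv G z‖ₑ) := (measurable_deriv G).enorm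
  have h1 := LA_rect hm (measurableSet_Ioo (a := b1) (b := b2)) (measurableSet_Ioo (a := -κ) (b := κ))
  have hset : {w : ℂ | w.re ∈ Ioo b1 b2 ∧ w.im ∈ Ioo (-κ) κ} = RR b1 b2 κ := by
    ext w
    constructor
    · rintro ⟨h2, h3⟩
      exact ⟨h2.1, h2.2, abs_lt.2 h3⟩
    · rintro ⟨h2, h3, h4⟩
      exact ⟨⟨h2, h3⟩, abs_lt.1 h4⟩
  rw [hset, Real.volume_Ioo, Real.volume_Ioo, show κ - -κ = 2 * κ by ring] at h1
  have h2 : ENNReal.ofReal (2 * κ * D) ≤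
      ∫⁻ y in Ioo (-κ) κ, ∫⁻ x in Ioo b1 b2, ‖deriv G ⟨x, y⟩‖ₑ := by
    calc ENNReal.ofReal (2 * κ * D) = ENNReal.ofReal D * volume (Ioo (-κ) κ) := by
          rw [Real.volume_Ioo, ← ENNReal.ofReal_mul hD]
          congr 1
          ring
      _ = ∫⁻ _y in Ioo (-κ) κ, ENNReal.ofReal D := (setLIntegral_const _ _).symm
      _ ≤ _ := by
          refine setLIntegral_mono' measurableSet_Ioo fun y hy => ?_
          have hy' : |y| < κ := abs_lt.2 hy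
          exact LA_line hb hΩ (fun t h3 h4 => hsub ⟨t, y⟩ h3 h4 hy') hG (hlen y hy')
  have h3 : ENNReal.ofReal (2 * κ * D) ^ 2 ≤ ENNReal.ofReal (b2 - b1) * ENNReal.ofReal (2 * κ) *
      ∫⁻ w in RR b1 b2 κ, ‖deriv G w‖ₑ ^ 2 := le_trans (by gcongr) h1
  have hκ2 : (0 : ℝ) < 2 * κ := by positivity
  have h4 : ENNReal.ofReal (2 * κ) * ENNReal.ofReal (2 * κ * D ^ 2) ≤ ENNReal.ofReal (2 * κ) *
      (ENNReal.ofReal (b2 - b1) * ∫⁻ w in RR b1 b2 κ, ‖deriv G w‖ₑ ^ 2) := by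
    calc ENNReal.ofReal (2 * κ) * ENNReal.ofReal (2 * κ * D ^ 2) =
          ENNReal.ofReal (2 * κ * D) ^ 2 := by
          rw [← ENNReal.ofReal_mul hκ2.le, ← ENNReal.ofReal_pow (by positivity)]
          congr 1
          ring
      _ ≤ _ := h3
      _ = _ := by ring
  exact (ENNReal.mul_le_mul_iff_right (by simpa using hκ2) ENNReal.ofReal_ne_top).1 h4

end Pool.Agent.MP_ae5b4e_an_PK
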