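import Pool.Agent.Lib.MP_ae5b4e_an_PK.Defs
import Pool.Agent.Lib.MP_ae5b4e_an_PK.Inj

/-!
# POR (iii), N2, type I, PK: packing of the points with the same sheet `k`
-/

noncomputable section

namespace Pool.Agent.MP_ae5b4e_an_PK

open Complex Set Filter Topology Metric MeasureTheory
open Pool.Agent.MP_ae5b4e_an_WB
open Pool.Agent.MP_ae5b4e_an_WD
open Pool.Agent.MP_ae5b4e_an_T
open Pool.Agent.MP_ae5b4e_an_M (S1 C1f Gf)

variable {q : ℂ → ℂ} {C γ v : ℝ} {f : ℂ → ℂ}

/-- the box of labels -/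
def LBox (x0 H W : ℝ) : Set ℂ := {l | 0 ≤ -l.im ∧ -l.im ≤ H ∧ |l.re - x0| ≤ W}

/-- PROOF. `Complex.volume_preserving_equiv_real_prod`: the box is the product of
`Icc (x0 - W) (x0 + W)` and `Icc (-H) 0`. -/
theorem volume_LBox {x0 H W : ℝ} (hH : 0 ≤ H) (hW : 0 ≤ W) :
    volume (LBox x0 H W) = ENNReal.ofReal (2 * W * H) := by
  have h1 : LBox x0 H W = Complex.measurableEquivRealProd ⁻¹'
      (Icc (x0 - W) (x0 + W) ×ˢ Icc (-H) 0) := by
    ext l
    have e1 : Complex.measurableEquivRealProd l = (l.re, l.im) := rfl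
    rw [mem_preimage, e1]
    constructor
    · rintro ⟨h1, h2, h3⟩
      obtain ⟨h4, h5⟩ := abs_le.mp h3
      exact ⟨⟨by show x0 - W ≤ l.re; linarith, by show l.re ≤ x0 + W; linarith⟩,
        ⟨by show -H ≤ l.im; linarith, by show l.im ≤ 0; linarith⟩⟩
    · rintro ⟨⟨h1, h2⟩, ⟨h3, h4⟩⟩
      change x0 - W ≤ l.re at h1
      change l.re ≤ x0 + W at h2
      change -H ≤ l.im at h3
      change l.im ≤ 0 at h4
      exact ⟨by linarith, by linarith, abs_le.mpr ⟨by linarith, by linarith⟩⟩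
  rw [h1, Complex.volume_preserving_equiv_real_prod.measure_preimage_equiv,
    Measure.volume_eq_prod, Measure.prod_prod, Real.volume_Icc, Real.volume_Icc,
    ← ENNReal.ofReal_mul (by linarith)]
  congr 1
  ring

/-- the same label and nearly the same imaginary part of the logarithm: the same point.

PROOF. `exp (2 om) = γ² q (f τ) = γ² q (f τ') = exp (2 om')`, so `2 om - 2 om' = 2 π i n`
(`Complex.exp_eq_exp_iff_exists_int`), `|Im| < 2 π` gives `n = 0`: `om = om'`, so `Xf` equal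
(`Φ k`), `deriv_eq_of_Xf`, `state_inj` (Inj.lean). -/
theorem same_point (h : Sl q C γ v f) (ha : Asy f) {Φ : ℂ → ℂ} {τ τ' w w' : ℂ} (hτ : τ ∈ Hp v)
    (hτ' : τ' ∈ Hp v) (e1 : exp (2 * w) = (γ : ℂ) ^ 2 * q (f τ))
    (e2 : exp (2 * w') = (γ : ℂ) ^ 2 * q (f τ')) (x1 : Xf q γ f τ = Φ w)
    (x2 : Xf q γ f τ' = Φ w') (hf : f τ = f τ') (him : |w.im - w'.im| < Real.pi) : τ = τ' := by
  have h1 : exp (2 * w) = exp (2 * w') := by rw [e1, e2, hf]
  obtain ⟨n, hn⟩ := Complex.exp_eq_exp_iff_exists_int.mp h1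
  have h2 : w.im - w'.im = n * Real.pi := by
    have h3 := congrArg Complex.im hn
    simp at h3
    linarith
  have hpi := Real.pi_pos
  have hn0 : n = 0 := by
    rw [h2, abs_mul, abs_of_pos hpi] at him
    have h3 : |(n : ℝ)| < 1 := by
      by_contra hneg
      have := mul_le_mul_of_nonneg_right (not_lt.mp hneg) hpi.le
      linarith
    have h4 : |n| < 1 := by exact_mod_cast h3
    exact Int.abs_lt_one_iff.mp h4
  have h3 : w = w' := by
    rw [hn0] at hn
    have h4 : (2 : ℂ) * w = 2 * w' := by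
      rw [hn]
      simp
    exact mul_left_cancel₀ two_ne_zero h4
  have h4 : Xf q γ f τ = Xf q γ f τ' := by rw [x1, x2, h3]
  exact state_inj h ha hτ hτ' hf (deriv_eq_of_Xf h hτ hτ' h4)

end Pool.Agent.MP_ae5b4e_an_PK
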