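import Pool.Agent.Lib.MP_ae5b4e_an_PK.RayB
import Pool.Agent.Lib.MP_ae5b4e_an_PK.CountA
import Pool.Agent.Lib.MP_ae5b4e_an_PK.PackA

/-!
# POR (iii), N2, type I, PK: packing of the points with the same sheet `k`
-/

noncomputable section

namespace Pool.Agent.MP_ae5b4e_an_PK

open Complex Set Filter Topology Metric MeasureTheory
open Pool.Agent.MP_ae5b4e_an_WB
open Pool.Agent.MP_ae5b4e_an_WD
open Pool.Agent.MP_ae5b4e_an_T
open Pool.Agent.MP_ae5b4e_an_M (S1 C1f Gf)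

variable {q : ℂ → ℂ} {C γ v : ℝ} {f : ℂ → ℂ}

/-- PACKING FOR ONE SHEET. `σ x` = first passage of the depth `2 D`.

PROOF. `count_area` with `G x = f ∘ ch v x`, `R x = RR (log (σ x)) (log a) κ`,
`om x z = Im (om x (ch v x z))`, `B = LBox x0 (4 D) (ell + C3 + 4 D T + D)`:
`hG`: `diff_fch` (open set); `hom`: `ch v x z ∈ Cn v x κ a` (`ch_mem`), composition;
`hM`: `ch v x z ∈ ball (tp v x s) (κ s)`, `s = exp (Re z) > σ x ≥ a exp (-T)` (`ch_dist`),
hypothesis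
`hb`; `hinj`: `same_point`, `ch_inj`; `hB`: `label_box` and `|x - x0| ≤ ell`.
Sum of `area_low` over `x ∈ S` (`log (a / σ x) ≤ T`):
`card S * 2 κ D² ≤ T (2 M + 1) * 2 (ell + C3 + 4 D T + D) * 4 D`. -/
theorem pack_k (h : Sl q C γ v f) (ha : Asy f) {κ a C3 D T ell x0 : ℝ} {M : ℕ} {S : Finset ℝ}
    {σ : ℝ → ℝ} {om : ℝ → ℂ → ℂ} {Φ : ℂ → ℂ} (hκ : 0 < κ) (hκ1 : κ ≤ 1 / 64) (ha0 : 0 < a)
    (ha1 : a ≤ 1) (hD : 0 < D) (hT : 0 ≤ T) (hell : 0 ≤ ell) (hC0 : 0 ≤ C3)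
    (hC3 : ∀ x ∈ S, |(f (tp v x a)).re - x| ≤ C3) (hx0 : ∀ x ∈ S, |x - x0| ≤ ell)
    (hsep : ∀ x ∈ S, ∀ y ∈ S, x ≠ y → 1 ≤ |x - y|)
    (hσ : ∀ x ∈ S, 0 < σ x ∧ σ x < a ∧ Real.log (a / σ x) ≤ T)
    (hσD : ∀ x ∈ S, dpt v f x (σ x) = 2 * D ∧ ∀ r ∈ Icc (σ x) a, dpt v f x r ≤ 2 * D)
    (haD : ∀ x ∈ S, dpt v f x a ≤ D / 4)
    (hc : ∀ x ∈ S, ContinuousOn (om x) (Cn v x κ a))
    (he : ∀ x ∈ S, ∀ τ ∈ Cn v x κ a, exp (2 * om x τ) = (γ : ℂ) ^ 2 * q (f τ))
    (hΦ : ∀ x ∈ S, ∀ τ ∈ Cn v x κ a, Xf q γ f τ = Φ (om x τ))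
    (hb : ∀ x ∈ S, ∀ s : ℝ, σ x < s → s < a → ∀ τ ∈ ball (tp v x s) (κ * s),
      |(om x τ).im| ≤ Real.pi * M) :
    (S.card : ℝ) * (2 * κ * D ^ 2) ≤
      T * ((2 * M + 1) * (2 * (ell + C3 + 4 * D * T + D) * (4 * D))) := by
  have hκ8 : κ ≤ 1 / 8 := by linarith
  have hre : ∀ x ∈ S, ∀ z ∈ RR (Real.log (σ x)) (Real.log a) κ,
      σ x < Real.exp z.re ∧ Real.exp z.re < a := by
    intro x hx z hz
    obtain ⟨z1, z2, -⟩ := hz
    obtain ⟨s1, -, -⟩ := hσ x hx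
    constructor
    · have := Real.exp_lt_exp.2 z1
      rwa [Real.exp_log s1] at this
    · have := Real.exp_lt_exp.2 z2
      rwa [Real.exp_log ha0] at this
  have hball : ∀ x ∈ S, ∀ z ∈ RR (Real.log (σ x)) (Real.log a) κ,
      ch v x z ∈ ball (tp v x (Real.exp z.re)) (κ * Real.exp z.re) := by
    intro x hx z hz
    rw [mem_ball, dist_eq_norm]
    refine (ch_dist v x z).trans_lt ?_
    rw [mul_comm κ]
    exact mul_lt_mul_of_pos_left hz.2.2 (Real.exp_pos _)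
  have hCn : ∀ x ∈ S, ∀ z ∈ RR (Real.log (σ x)) (Real.log a) κ, ch v x z ∈ Cn v x κ a :=
    fun x hx z hz => ch_mem hz.2.2 (hre x hx z hz).2.le
  have hHp : ∀ x ∈ S, ∀ z ∈ RR (Real.log (σ x)) (Real.log a) κ, ch v x z ∈ Hp v := by
    intro x hx z hz
    have h1 := hball x hx z hz
    rw [mem_ball, dist_eq_norm] at h1
    have h2 := (abs_le.1 (abs_im_le_norm (ch v x z - tp v x (Real.exp z.re)))).2
    rw [sub_im, tp_im] at h2
    have h3 : κ * Real.exp z.re ≤ 1 / 64 * Real.exp z.re :=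
      mul_le_mul_of_nonneg_right hκ1 (Real.exp_pos _).le
    have h4 := Real.exp_pos z.re
    show (ch v x z).im < -v
    linarith
  have hcc : ∀ x : ℝ, Continuous fun z => ch v x z := by
    intro x
    unfold ch
    fun_prop
  obtain ⟨W, hW⟩ : ∃ W : ℝ, W = ell + C3 + 4 * D * T + D := ⟨_, rfl⟩
  have hW0 : 0 ≤ W := by
    rw [hW]
    positivity
  have key := count_area (S := S) (G := fun x z => f (ch v x z))
    (R := fun x => RR (Real.log (σ x)) (Real.log a) κ)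
    (om := fun x z => (om x (ch v x z)).im) (M := M) (B := LBox x0 (4 * D) W)
    (fun x _ => isOpen_RR _ _ _)
    (fun x hx z hz => by
      have ho : IsOpen {z : ℂ | |z.im| < 1} := isOpen_lt continuous_im.abs continuous_const
      have hz1 : z ∈ {z : ℂ | |z.im| < 1} := by
        show |z.im| < 1
        linarith [hz.2.2]
      exact (diff_fch h x).differentiableAt (ho.mem_nhds hz1))
    (fun x hx => by
      refine continuous_im.comp_continuousOn ?_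
      exact (hc x hx).comp (hcc x).continuousOn (hCn x hx))
    (fun x hx z hz => hb x hx (Real.exp z.re) (hre x hx z hz).1 (hre x hx z hz).2 _
      (hball x hx z hz))
    (fun x hx y hy z hz w hw he1 hlt => by
      have e1 := same_point h ha (hHp x hx z hz) (hHp y hy w hw) (he x hx _ (hCn x hx z hz))
        (he y hy _ (hCn y hy w hw)) (hΦ x hx _ (hCn x hx z hz)) (hΦ y hy _ (hCn y hy w hw)) he1 hlt
      refine ch_inj hκ8 hz.2.2 hw.2.2 ((hre x hx z hz).2.le.trans ha1)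
        ((hre y hy w hw).2.le.trans ha1) ?_ e1
      rcases eq_or_ne x y with hxy | hxy
      · exact Or.inl hxy
      · exact Or.inr (hsep x hx y hy hxy))
    (fun x hx z hz => by
      obtain ⟨s1, s2, s3⟩ := hσ x hx
      obtain ⟨b1, b2, b3⟩ := label_box h hκ hκ1 s1 s2.le hD (hσD x hx).2 (hC3 x hx) s3 hz
      refine ⟨b1.le, b2, ?_⟩
      have b4 := hx0 x hx
      have b5 : (f (ch v x z)).re - x0 = ((f (ch v x z)).re - x) + (x - x0) := by ring
      rw [b5, hW]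
      refine (abs_add_le _ _).trans ?_
      linarith)
  rw [volume_LBox (by positivity) hW0] at key
  have hlow : ∀ x ∈ S, ENNReal.ofReal (2 * κ * D ^ 2) ≤ ENNReal.ofReal T *
      ∫⁻ z in RR (Real.log (σ x)) (Real.log a) κ, ‖deriv (fun z => f (ch v x z)) z‖ₑ ^ 2 := by
    intro x hx
    obtain ⟨s1, s2, s3⟩ := hσ x hx
    refine (area_low h hκ hκ1 s1 s2.le hD (hσD x hx).1 (haD x hx)).trans ?_
    exact mul_le_mul_left (ENNReal.ofReal_le_ofReal s3) _
  have hsum := Finset.sum_le_sum hlow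
  rw [← Finset.mul_sum, Finset.sum_const, nsmul_eq_mul] at hsum
  have hfin : ENNReal.ofReal ((S.card : ℝ) * (2 * κ * D ^ 2)) ≤
      ENNReal.ofReal (T * ((2 * M + 1) * (2 * W * (4 * D)))) := by
    calc ENNReal.ofReal ((S.card : ℝ) * (2 * κ * D ^ 2))
        = (S.card : ENNReal) * ENNReal.ofReal (2 * κ * D ^ 2) := by
          rw [ENNReal.ofReal_mul (Nat.cast_nonneg _), ENNReal.ofReal_natCast]
      _ ≤ _ := hsum
      _ ≤ ENNReal.ofReal T * ((2 * M + 1 : ℕ) * ENNReal.ofReal (2 * W * (4 * D))) :=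
          mul_le_mul_right key _
      _ = ENNReal.ofReal (T * ((2 * M + 1) * (2 * W * (4 * D)))) := by
          rw [ENNReal.ofReal_mul hT]
          congr 1
          rw [← ENNReal.ofReal_natCast, ← ENNReal.ofReal_mul (Nat.cast_nonneg _)]
          congr 1
          push_cast
          ring
  rw [← hW]
  exact (ENNReal.ofReal_le_ofReal_iff (by positivity)).1 hfin

end Pool.Agent.MP_ae5b4e_an_PK
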