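import Pool.Agent.Lib.MP_ae5b4e_an_PK.GeoB

/-!
# POR (iii), N2, type I, PK: the cone below one point, in the logarithmic coordinate
-/

noncomputable section

namespace Pool.Agent.MP_ae5b4e_an_PK

open Complex Set Filter Topology Metric MeasureTheory
open Pool.Agent.MP_ae5b4e_an_WB
open Pool.Agent.MP_ae5b4e_an_WD
open Pool.Agent.MP_ae5b4e_an_T
open Pool.Agent.MP_ae5b4e_an_M (S1 C1f Gf)

variable {q : ℂ → ℂ} {C γ v : ℝ} {f : ℂ → ℂ}

/-- logarithmic coordinate of the cone: `t + iη ↦ x - i v - i exp (t + iη)` -/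
def ch (v x : ℝ) (z : ℂ) : ℂ := (x : ℂ) - v * I - I * exp z

/-- PROOF. `ch v x z - tp v x (exp t) = - I (exp (t + iη) - exp t)`, norm
`= exp t |exp (iη) - 1| ≤ exp t |η|` (`Real.norm_exp_I_mul_ofReal_sub_one_le` or
`2 |sin (η/2)| ≤ |η|`). -/
theorem ch_dist (v x : ℝ) (z : ℂ) :
    ‖ch v x z - tp v x (Real.exp z.re)‖ ≤ Real.exp z.re * |z.im| := by
  have h1 : ch v x z - tp v x (Real.exp z.re) =
      -I * (((Real.exp z.re : ℝ) : ℂ) * (exp (I * (z.im : ℂ)) - 1)) := by
    have h2 : exp z = ((Real.exp z.re : ℝ) : ℂ) * exp (I * (z.im : ℂ)) := by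
      rw [Complex.ofReal_exp, ← Complex.exp_add]
      congr 1
      rw [mul_comm I]
      exact (Complex.re_add_im z).symm
    unfold ch tp
    rw [h2]
    push_cast
    ring
  rw [h1, norm_mul, norm_neg, Complex.norm_I, one_mul, norm_mul, Complex.norm_real,
    Real.norm_of_nonneg (Real.exp_pos _).le]
  refine mul_le_mul_of_nonneg_left ?_ (Real.exp_pos _).le
  have := Real.norm_exp_I_mul_ofReal_sub_one_le (x := z.im)
  rwa [Real.norm_eq_abs] at this

/-- for `|Im z| < κ` the point `ch v x z` is in the ball of the cone -/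
theorem ch_mem {v x κ a : ℝ} {z : ℂ} (hz : |z.im| < κ) (ha : Real.exp z.re ≤ a) :
    ch v x z ∈ Cn v x κ a := by
  refine ⟨Real.exp z.re, ⟨Real.exp_pos _, ha⟩, ?_⟩
  rw [mem_ball, dist_eq_norm]
  refine (ch_dist v x z).trans_lt ?_
  rw [mul_comm κ]
  exact mul_lt_mul_of_pos_left hz (Real.exp_pos _)

/-- `Re (ch v x z) - x = exp t sin η`, `|..| ≤ exp t |η|`; and injectivity for `|Im| < 1`.

PROOF. `exp z = exp w` with `|Im z|, |Im w| < 1 < π` gives `z = w`
(`Complex.exp_inj_of_neg_pi_lt_of_le_pi`).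
For different `x`: `|Re (ch v x z) - x| ≤ exp (Re z) |Im z| ≤ κ` and `1 ≤ |x - x'|`. -/
theorem ch_inj {v x x' κ : ℝ} (hκ : κ ≤ 1 / 8) {z w : ℂ} (hz : |z.im| < κ) (hw : |w.im| < κ)
    (hz1 : Real.exp z.re ≤ 1) (hw1 : Real.exp w.re ≤ 1) (hx : x = x' ∨ 1 ≤ |x - x'|)
    (he : ch v x z = ch v x' w) : x = x' ∧ z = w := by
  have key : ∀ {y : ℝ} {u : ℂ}, |u.im| < κ → Real.exp u.re ≤ 1 →
      |(ch v y u).re - y| ≤ κ := by
    intro y u hu hu1
    have h1 := ch_dist v y u
    have h2 := Complex.abs_re_le_norm (ch v y u - tp v y (Real.exp u.re))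
    rw [Complex.sub_re, tp_re] at h2
    have h3 : Real.exp u.re * |u.im| ≤ 1 * κ :=
      mul_le_mul hu1 hu.le (abs_nonneg _) zero_le_one
    linarith
  have h1 := key (y := x) hz hz1
  have h2 := key (y := x') hw hw1
  have hxx : x = x' := by
    rcases hx with h | h
    · exact h
    · exfalso
      rw [he] at h1
      have h3 : x - x' = ((ch v x' w).re - x') - ((ch v x' w).re - x) := by ring
      have h4 := abs_sub ((ch v x' w).re - x') ((ch v x' w).re - x)
      rw [← h3] at h4
      linarith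
  refine ⟨hxx, ?_⟩
  subst hxx
  unfold ch at he
  have h3 : exp z = exp w := by
    have h4 : I * exp z = I * exp w := by linear_combination -he
    exact mul_left_cancel₀ I_ne_zero h4
  have hpi := Real.pi_gt_three
  have hz' := abs_lt.mp hz
  have hw' := abs_lt.mp hw
  exact Complex.exp_inj_of_neg_pi_lt_of_le_pi (by linarith) (by linarith) (by linarith)
    (by linarith) h3

/-- `f ∘ ch` is holomorphic for `|Im z| < 1` -/
theorem diff_fch (h : Sl q C γ v f) (x : ℝ) :
    DifferentiableOn ℂ (fun z => f (ch v x z)) {z | |z.im| < 1} := by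
  have h1 : MapsTo (ch v x) {z | |z.im| < 1} (Hp v) := by
    intro z hz
    have h2 : (ch v x z).im = -v - Real.exp z.re * Real.cos z.im := by
      unfold ch
      simp [Complex.exp_re]
    show (ch v x z).im < -v
    rw [h2]
    have h3 := Real.cos_pos_of_le_one (le_of_lt hz)
    have h4 : 0 < Real.exp z.re * Real.cos z.im := mul_pos (Real.exp_pos _) h3
    linarith
  have h2 : DifferentiableOn ℂ (ch v x) {z | |z.im| < 1} := by
    unfold ch
    exact (((differentiable_const _).sub (differentiable_const _)).sub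
      (Complex.differentiable_exp.const_mul I)).differentiableOn
  exact h.fd.comp h2 h1

end Pool.Agent.MP_ae5b4e_an_PK
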