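import Pool.Agent.Lib.MP_ae5b4e_an_PK.RayA
import Pool.Agent.Lib.MP_ae5b4e_an_PK.LA

/-!
# POR (iii), N2, type I, PK: the cone below one point, in the logarithmic coordinate
-/

noncomputable section

namespace Pool.Agent.MP_ae5b4e_an_PK

open Complex Set Filter Topology Metric MeasureTheory
open Pool.Agent.MP_ae5b4e_an_WB
open Pool.Agent.MP_ae5b4e_an_WD
open Pool.Agent.MP_ae5b4e_an_T
open Pool.Agent.MP_ae5b4e_an_M (S1 C1f Gf)

variable {q : ℂ → ℂ} {C γ v : ℝ} {f : ℂ → ℂ}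

private theorem rayB_near (h : Sl q C γ v f) {κ x D' : ℝ} (hκ : 0 < κ) (hκ1 : κ ≤ 1 / 64)
    {z : ℂ} (hz : |z.im| < κ) (hd : dpt v f x (Real.exp z.re) ≤ D') :
    ch v x z ∈ Hp v ∧ -(f (ch v x z)).im ≤ 2 * D' ∧
      ‖f (ch v x z) - f (tp v x (Real.exp z.re))‖ ≤ 4 * κ * D' := by
  have hs := Real.exp_pos z.re
  have h1 : ‖ch v x z - tp v x (Real.exp z.re)‖ ≤ κ * (-v - (tp v x (Real.exp z.re)).im) := by
    rw [tp_im]
    have h2 := ch_dist v x z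
    have h3 : Real.exp z.re * |z.im| ≤ Real.exp z.re * κ := mul_le_mul_of_nonneg_left hz.le hs.le
    linarith
  obtain ⟨h2, h3, -, h5⟩ := near h hκ.le (by linarith) (tp_mem hs) h1
  have hd' : -(f (tp v x (Real.exp z.re))).im ≤ D' := hd
  refine ⟨h2, by linarith, h5.trans ?_⟩
  exact mul_le_mul_of_nonneg_left hd' (by linarith)

/-- LOWER BOUND OF THE AREA. `κ ≤ 1/64`; `dpt` at `a` at most `D / 4`, at `σ` equal to `2 D`.

PROOF. `length_area` for `G = f ∘ ch`, `b1 = log σ`, `b2 = log a`, `Ω = {|Im z| < 1}`. For `|η| <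
κ`:
`z1 = log σ + iη`: `‖ch v x z1 - tp v x σ‖ ≤ κ σ` (`ch_dist`), so by `near`
`‖f (ch v x z1) - f (tp v x σ)‖ ≤ 4 κ (2 D) ≤ D / 8`, and the same at `a`: `≤ 4 κ (D / 4) ≤ D / 64`.
`‖f (tp σ) - f (tp a)‖ ≥ |dpt σ - dpt a| ≥ 2 D - D / 4`. So the distance of the values at `z1`, `z2`
is
`≥ 2 D - D/4 - D/8 - D/64 ≥ D`. -/
theorem area_low (h : Sl q C γ v f) {κ σ a D x : ℝ} (hκ : 0 < κ) (hκ1 : κ ≤ 1 / 64) (hσ : 0 < σ)
    (hσa : σ ≤ a) (hD : 0 < D) (h1 : dpt v f x σ = 2 * D) (h2 : dpt v f x a ≤ D / 4) :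
    ENNReal.ofReal (2 * κ * D ^ 2) ≤ ENNReal.ofReal (Real.log (a / σ)) *
      ∫⁻ z in RR (Real.log σ) (Real.log a) κ, ‖deriv (fun z => f (ch v x z)) z‖ₑ ^ 2 := by
  have ha0 : 0 < a := hσ.trans_le hσa
  have hlog : Real.log (a / σ) = Real.log a - Real.log σ := Real.log_div ha0.ne' hσ.ne'
  rw [hlog]
  refine length_area (G := fun z => f (ch v x z)) (Ω := {z | |z.im| < 1})
    (Real.log_le_log hσ hσa) hκ hD.le (isOpen_lt continuous_im.abs continuous_const)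
    (fun z _ _ hz => lt_of_lt_of_le hz (by linarith)) (diff_fch h x) ?_
  intro η hη
  obtain ⟨-, -, h5⟩ := rayB_near h (x := x) (D' := 2 * D) (z := ⟨Real.log σ, η⟩) hκ hκ1 hη (by
    rw [Real.exp_log hσ, h1])
  obtain ⟨-, -, h6⟩ := rayB_near h (x := x) (D' := D / 4) (z := ⟨Real.log a, η⟩) hκ hκ1 hη (by
    rw [Real.exp_log ha0]
    exact h2)
  simp only at h5 h6
  rw [Real.exp_log hσ] at h5
  rw [Real.exp_log ha0] at h6
  have h7 : 2 * D - D / 4 ≤ ‖f (tp v x σ) - f (tp v x a)‖ := by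
    have h8 := Complex.abs_im_le_norm (f (tp v x σ) - f (tp v x a))
    have h9 := neg_abs_le ((f (tp v x σ) - f (tp v x a)).im)
    rw [Complex.sub_im] at h8 h9
    unfold dpt at h1 h2
    linarith
  have h8 : ‖f (tp v x σ) - f (tp v x a)‖ ≤ ‖f (ch v x ⟨Real.log σ, η⟩) - f (tp v x σ)‖ +
      ‖f (ch v x ⟨Real.log σ, η⟩) - f (ch v x ⟨Real.log a, η⟩)‖ +
      ‖f (ch v x ⟨Real.log a, η⟩) - f (tp v x a)‖ := by
    have e1 : f (tp v x σ) - f (tp v x a) = -(f (ch v x ⟨Real.log σ, η⟩) - f (tp v x σ)) +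
        (f (ch v x ⟨Real.log σ, η⟩) - f (ch v x ⟨Real.log a, η⟩)) +
        (f (ch v x ⟨Real.log a, η⟩) - f (tp v x a)) := by ring
    rw [e1]
    refine (norm_add_le _ _).trans (add_le_add ((norm_add_le _ _).trans ?_) le_rfl)
    rw [norm_neg]
  have h9 : 4 * κ * (2 * D) ≤ D / 8 := by nlinarith
  have h10 : 4 * κ * (D / 4) ≤ D / 64 := by nlinarith
  show D ≤ ‖f (ch v x ⟨Real.log σ, η⟩) - f (ch v x ⟨Real.log a, η⟩)‖
  linarith

/-- THE LABELS of the cone between `σ` and `a`.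

PROOF. `s = exp (Re z) ∈ (σ, a)`; `near` at `tp v x s` (`dpt ≤ 2 D`): depth `≤ 4 D` and
`‖f (ch v x z) - f (tp v x s)‖ ≤ 4 κ 2 D ≤ D`; `re_path` (`log (a / s) ≤ T`) and `hC3`. -/
theorem label_box (h : Sl q C γ v f) {κ σ a D x C3 T : ℝ} (hκ : 0 < κ) (hκ1 : κ ≤ 1 / 64)
    (hσ : 0 < σ) (hσa : σ ≤ a) (hD : 0 < D) (h1 : ∀ r ∈ Icc σ a, dpt v f x r ≤ 2 * D)
    (hC3 : |(f (tp v x a)).re - x| ≤ C3) (hT : Real.log (a / σ) ≤ T) {z : ℂ}
    (hz : z ∈ RR (Real.log σ) (Real.log a) κ) :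
    0 < -(f (ch v x z)).im ∧ -(f (ch v x z)).im ≤ 4 * D ∧
      |(f (ch v x z)).re - x| ≤ C3 + 4 * D * T + D := by
  obtain ⟨hz1, hz2, hz3⟩ := hz
  have hs1 : σ < Real.exp z.re := (Real.log_lt_iff_lt_exp hσ).mp hz1
  have ha0 : 0 < a := hσ.trans_le hσa
  have hs2 : Real.exp z.re < a := by
    rw [← Real.exp_log ha0]
    exact Real.exp_lt_exp.mpr hz2
  have hs := Real.exp_pos z.re
  obtain ⟨h3, h4, h5⟩ := rayB_near h (x := x) (D' := 2 * D) hκ hκ1 hz3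
    (h1 _ ⟨hs1.le, hs2.le⟩)
  refine ⟨?_, by linarith, ?_⟩
  · have h6 := h.dep _ h3
    have h7 : (ch v x z).im < -v := h3
    linarith
  · have h6 := re_path h (x := x) (D := D) hs hs2.le
      (fun r hr => h1 r ⟨hs1.le.trans hr.1, hr.2⟩)
    have h7 : Real.log (a / Real.exp z.re) ≤ T := by
      refine le_trans (Real.log_le_log (by positivity) ?_) hT
      exact div_le_div_of_nonneg_left ha0.le hσ hs1.le
    have h8 : 4 * D * Real.log (a / Real.exp z.re) ≤ 4 * D * T :=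
      mul_le_mul_of_nonneg_left h7 (by linarith)
    have h9 : 4 * κ * (2 * D) ≤ D := by nlinarith
    have h10 := Complex.abs_re_le_norm (f (ch v x z) - f (tp v x (Real.exp z.re)))
    rw [Complex.sub_re] at h10
    have h11 : (f (ch v x z)).re - x = ((f (ch v x z)).re - (f (tp v x (Real.exp z.re))).re) +
        ((f (tp v x (Real.exp z.re))).re - (f (tp v x a)).re) +
        ((f (tp v x a)).re - x) := by ring
    rw [h11]
    refine (abs_add_three _ _ _).trans ?_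
    linarith

end Pool.Agent.MP_ae5b4e_an_PK
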